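import Pool.Agent.Helper927.Dist.Defs
set_option autoImplicit false
set_option maxHeartbeats 4000000
universe u v

namespace Pool.Agent.Dist14

/-! ### AVAILABLE: statements you may use; leave these `sorry`s in place (they are proved in other jobs) -/



/-! ### TARGET: replace the `sorry`s below by proofs (auxiliary lemmas are fine, put them in this file) -/

theorem steph_iff (R : Type u) [Ring R] (M : Type v) [AddCommGroup M] [Module R M] :
    EndoDistrib R M ↔ Steph R M := by
  constructor
  · intro hD x y
    have h1 : x + y ∈ Submodule.span (Module.End R M) {x + y} ⊓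
        (Submodule.span (Module.End R M) {x} ⊔ Submodule.span (Module.End R M) {y}) := by
      refine ⟨Submodule.mem_span_singleton_self _, ?_⟩
      exact Submodule.add_mem_sup (Submodule.mem_span_singleton_self _)
        (Submodule.mem_span_singleton_self _)
    rw [hD, Submodule.mem_sup] at h1
    obtain ⟨s, hs, t, ht, hst⟩ := h1
    obtain ⟨f, hf⟩ := Submodule.mem_span_singleton.mp hs.1
    obtain ⟨f₁, hf₁⟩ := Submodule.mem_span_singleton.mp hs.2
    obtain ⟨h, hh⟩ := Submodule.mem_span_singleton.mp ht.2
    rw [Module.End.smul_def] at hf hf₁ hh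
    rw [map_add] at hf
    refine ⟨1 - f, h - (1 - f), f₁ - f, ?_, ?_⟩
    · simp only [LinearMap.sub_apply, Module.End.one_apply]
      rw [hh]
      have h2 : x + y = f x + f y + t := by rw [hf, hst]
      have h3 : x = f x + f y + t - y := by rw [← h2]; abel
      nth_rewrite 1 [h3]
      abel
    · simp only [LinearMap.sub_apply, Module.End.one_apply]
      rw [hf₁, ← hf]
      abel
  · intro hS U V W
    apply le_antisymm
    · rintro u ⟨hu, hu'⟩
      obtain ⟨v, hv, w, hw, hvw⟩ := Submodule.mem_sup.mp hu'
      obtain ⟨e, f, g, h1, h2⟩ := hS v w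
      have h3 : e u ∈ W := by
        rw [← hvw, map_add, h1]
        exact W.add_mem (W.smul_mem f hw) (W.smul_mem e hw)
      have h4 : e u ∈ U := U.smul_mem e hu
      have h5 : u - e u ∈ V := by
        have h6 : u - e u = (v - e v) + g v := by
          rw [← h2, ← hvw, map_add]
          abel
        rw [h6]
        exact V.add_mem (V.sub_mem hv (V.smul_mem e hv)) (V.smul_mem g hv)
      have h7 : u - e u ∈ U := U.sub_mem hu h4
      have h8 : u = (u - e u) + e u := by abel
      rw [h8]
      exact Submodule.add_mem_sup ⟨h7, h5⟩ ⟨h4, h3⟩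
    · apply sup_le
      · exact inf_le_inf_left U le_sup_left
      · exact inf_le_inf_left U le_sup_right

end Pool.Agent.Dist14
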