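import Pool.Agent.Helper927.Dist.Defs
set_option autoImplicit false
set_option maxHeartbeats 4000000
universe u v

namespace Pool.Agent.Dist14

/-! ### AVAILABLE: statements you may use; leave these `sorry`s in place (they are proved in other jobs) -/



/-! ### TARGET: replace the `sorry`s below by proofs (auxiliary lemmas are fine, put them in this file) -/

theorem FiltData.op {R : Type u} [Ring R] {I : ℕ → Set R} {a : R} (h : FiltData R I a) :
    FiltData Rᵐᵒᵖ (fun n => {x | MulOpposite.unop x ∈ I n}) (MulOpposite.op a) where
  zero_mem n := h.zero_mem n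
  add_mem n x y hx hy := h.add_mem n _ _ hx hy
  mul_left n r x hx := h.mul_right n (MulOpposite.unop r) _ hx
  mul_right n r x hx := h.mul_left n (MulOpposite.unop r) _ hx
  anti n x hx := h.anti n _ hx
  mem_zero x := h.mem_zero _
  one_notMem := h.one_notMem
  left_mem n x hx := h.right_mem n _ hx
  right_mem n x hx := h.left_mem n _ hx
  left_cancel n x hx := h.right_cancel n _ hx
  right_cancel n x hx := h.left_cancel n _ hx

theorem FiltData.unop {R : Type u} [Ring R] {I : ℕ → Set Rᵐᵒᵖ} {a : Rᵐᵒᵖ}
    (h : FiltData Rᵐᵒᵖ I a) :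
    FiltData R (fun n => {x | MulOpposite.op x ∈ I n}) (MulOpposite.unop a) where
  zero_mem n := h.zero_mem n
  add_mem n x y hx hy := h.add_mem n _ _ hx hy
  mul_left n r x hx := h.mul_right n (MulOpposite.op r) _ hx
  mul_right n r x hx := h.mul_left n (MulOpposite.op r) _ hx
  anti n x hx := h.anti n _ hx
  mem_zero x := h.mem_zero _
  one_notMem := h.one_notMem
  left_mem n x hx := h.right_mem n _ hx
  right_mem n x hx := h.left_mem n _ hx
  left_cancel n x hx := h.right_cancel n _ hx
  right_cancel n x hx := h.left_cancel n _ hx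

end Pool.Agent.Dist14
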