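import Pool.Agent.Helper927.Dist.Defs
set_option autoImplicit false
set_option maxHeartbeats 4000000
universe u v

namespace Pool.Agent.Dist14

/-! ### AVAILABLE: statements you may use; leave these `sorry`s in place (they are proved in other jobs) -/



/-! ### TARGET: replace the `sorry`s below by proofs (auxiliary lemmas are fine, put them in this file) -/

/-- The abstract three-direction lemma. -/
theorem three_dir {R : Type u} [Ring R] {M : Type v} [AddCommGroup M] [Module R M]
    (hM : Steph R M) {S : Type*} (Q : S → Type*) [∀ i, AddCommGroup (Q i)]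
    (ρ : ∀ i, M →+ Q i) (x : ∀ i, Q i) (g : S → Fin 3) (ξ η : M)
    (c : ∀ i, Module.End R M → Q i)
    (c_one : ∀ i, c i 1 = x i) (c_sub : ∀ i φ ψ, c i (φ - ψ) = c i φ - c i ψ)
    (hξ : ∀ φ i, ρ i (φ ξ) = if g i = 1 then 0 else c i φ)
    (hη : ∀ φ i, ρ i (φ η) = if g i = 0 then 0 else c i φ) :
    ∃ ζ : M, ∀ i, ρ i ζ = if g i = 1 then - x i else 0 := by
  obtain ⟨e, f, g', h1, h2⟩ := hM ξ η
  refine ⟨e ξ - e η, fun i => ?_⟩
  rw [map_sub, hξ, hη]
  have h1' : ρ i (e ξ) = ρ i (f η) := by rw [h1]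
  have h2' : ρ i ((1 - e) η) = ρ i (g' ξ) := by
    rw [← h2]; rfl
  rw [hξ, hη] at h1'
  rw [hη, hξ, c_sub, c_one] at h2'
  by_cases h10 : g i = 1
  · have h00 : g i ≠ 0 := by rw [h10]; decide
    simp only [h10, if_true] at h1' h2' ⊢
    simp only [show ((1 : Fin 3) = 0) = False by simp, if_false] at h1' h2' ⊢
    rw [sub_eq_zero] at h2'
    rw [← h2', zero_sub]
  · by_cases h00 : g i = 0
    · simp only [h00] at h1' h2' ⊢
      simp only [show ((0 : Fin 3) = 1) = False by simp, if_false, if_true] at h1' h2' ⊢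
      rw [h1', sub_zero]
    · simp only [h10, h00, if_false, sub_self]

end Pool.Agent.Dist14
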