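import Pool.Agent.Helper927.Dist.Defs
import Pool.Agent.Helper927.Dist.A1
import Pool.Agent.Helper927.Dist.A9
set_option autoImplicit false
set_option maxHeartbeats 4000000
universe u v

namespace Pool.Agent.Dist14

/-! ### TARGET -/

section filt

variable {R : Type u} [Ring R] {I : ℕ → Set R} {a : R}

/-- the left ideal with carrier `I n` -/
def FLI (h : FiltData R I a) (n : ℕ) : Submodule R R where
  carrier := I n
  zero_mem' := h.zero_mem n
  add_mem' := fun {x y} hx hy => h.add_mem n x y hx hy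
  smul_mem' := fun r x hx => h.mul_left n r x hx

/-- the quotient module -/
def FQ (h : FiltData R I a) (n : ℕ) : Type u := R ⧸ FLI h n

instance (h : FiltData R I a) (n : ℕ) : AddCommGroup (FQ h n) :=
  Submodule.Quotient.addCommGroup (FLI h n)

instance (h : FiltData R I a) (n : ℕ) : Module R (FQ h n) :=
  Submodule.Quotient.module (FLI h n)

/-- the quotient map -/
def Fmk (h : FiltData R I a) (n : ℕ) : R →ₗ[R] FQ h n where
  toFun x := (Submodule.Quotient.mk x : R ⧸ FLI h n)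
  map_add' _ _ := rfl
  map_smul' _ _ := rfl

theorem Fmk_eq_zero (h : FiltData R I a) (n : ℕ) (x : R) : Fmk h n x = 0 ↔ x ∈ I n :=
  Submodule.Quotient.mk_eq_zero (FLI h n)

theorem Fmk_surj (h : FiltData R I a) (n : ℕ) (q : FQ h n) : ∃ t, Fmk h n t = q :=
  Submodule.Quotient.mk_surjective (FLI h n) q

theorem FLI_mem (h : FiltData R I a) (n : ℕ) (x : R) : x ∈ FLI h n ↔ x ∈ I n := Iff.rfl

theorem F_pow_mem (h : FiltData R I a) {n : ℕ} {x : R} (hx : x ∈ I n) (k : ℕ) :
    a ^ k * x ∈ I (n + k) := by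
  induction k with
  | zero => simpa using hx
  | succ k ih =>
    rw [pow_succ', mul_assoc]
    exact h.left_mem _ _ ih

theorem F_cancel_left (h : FiltData R I a) {n : ℕ} {x : R} (k : ℕ)
    (hx : a ^ k * x ∈ I (n + 1 + k)) : x ∈ I (n + 1) := by
  induction k with
  | zero => simpa using hx
  | succ k ih =>
    apply ih
    rw [pow_succ', mul_assoc] at hx
    have h1 : n + 1 + (k + 1) = (n + k) + 2 := by omega
    rw [h1] at hx
    have h2 := h.left_cancel _ _ hx
    have h3 : n + k + 1 = n + 1 + k := by omega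
    rwa [h3] at h2

theorem F_cancel_right (h : FiltData R I a) {n : ℕ} {x : R} (k : ℕ)
    (hx : x * a ^ k ∈ I (n + 1 + k)) : x ∈ I (n + 1) := by
  induction k with
  | zero => simpa using hx
  | succ k ih =>
    apply ih
    rw [pow_succ, ← mul_assoc] at hx
    have h1 : n + 1 + (k + 1) = (n + k) + 2 := by omega
    rw [h1] at hx
    have h2 := h.right_cancel _ _ hx
    have h3 : n + k + 1 = n + 1 + k := by omega
    rwa [h3] at h2

theorem F_anti (h : FiltData R I a) {m n : ℕ} (hmn : m ≤ n) {x : R} (hx : x ∈ I n) :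
    x ∈ I m := by
  induction n, hmn using Nat.le_induction with
  | base => exact hx
  | succ n _ ih => exact ih (h.anti _ _ hx)

theorem F_pow_mem' (h : FiltData R I a) (t : R) (k : ℕ) : a ^ k * t ∈ I k := by
  have := F_pow_mem h (h.mem_zero t) k
  rwa [Nat.zero_add] at this

theorem FLI_le (h : FiltData R I a) (i : ℕ) : FLI h (2 * i + 1) ≤ FLI h (i + 1) :=
  fun _ hx => F_anti h (by omega) hx

/-- the factor map -/
def Ffac (h : FiltData R I a) (i : ℕ) : FQ h (2 * i + 1) →ₗ[R] FQ h (i + 1) where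
  toFun := (FLI h (2 * i + 1)).mapQ (FLI h (i + 1)) LinearMap.id (FLI_le h i)
  map_add' := fun x y => map_add ((FLI h (2 * i + 1)).mapQ (FLI h (i + 1)) LinearMap.id
    (FLI_le h i)) x y
  map_smul' := fun r x => map_smul ((FLI h (2 * i + 1)).mapQ (FLI h (i + 1)) LinearMap.id
    (FLI_le h i)) r x

theorem Ffac_mk (h : FiltData R I a) (i : ℕ) (t : R) :
    Ffac h i (Fmk h (2 * i + 1) t) = Fmk h (i + 1) t := rfl

/-- direction -/
def gdir (i : ℕ) : Fin 3 := ⟨i % 3, Nat.mod_lt _ (by norm_num)⟩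

/-- weights -/
def alw (R : Type u) [Ring R] (i : ℕ) : R := if gdir i = 1 then 0 else 1
def gaw (R : Type u) [Ring R] (i : ℕ) : R := if gdir i = 0 then 0 else 1

theorem alw_or (i : ℕ) : alw R i = 0 ∨ alw R i = 1 := by
  unfold alw; split_ifs <;> simp
theorem gaw_or (i : ℕ) : gaw R i = 0 ∨ gaw R i = 1 := by
  unfold gaw; split_ifs <;> simp

theorem alw_comm (i : ℕ) (r : R) : r * alw R i = alw R i * r := by
  rcases alw_or (R := R) i with h | h <;> rw [h] <;> simp
theorem gaw_comm (i : ℕ) (r : R) : r * gaw R i = gaw R i * r := by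
  rcases gaw_or (R := R) i with h | h <;> rw [h] <;> simp

/-- the module -/
def FMM (h : FiltData R I a) : Submodule R (∀ i : ℕ, FQ h (2 * i + 1)) where
  carrier := {z | ∃ (k : ℕ) (u v : R), ∀ i, k ≤ i → z i = Fmk h (2 * i + 1)
    (alw R i * (u * a ^ (i - k)) + gaw R i * (v * a ^ (i - k)))}
  zero_mem' := ⟨0, 0, 0, fun i _ => by simp⟩
  add_mem' := by
    rintro z z' ⟨k, u, v, hz⟩ ⟨k', u', v', hz'⟩
    refine ⟨k + k', u * a ^ k' + u' * a ^ k, v * a ^ k' + v' * a ^ k, fun i hi => ?_⟩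
    have e1 : a ^ (i - k) = a ^ k' * a ^ (i - (k + k')) := by
      rw [← pow_add]; congr 1; omega
    have e2 : a ^ (i - k') = a ^ k * a ^ (i - (k + k')) := by
      rw [← pow_add]; congr 1; omega
    rw [Pi.add_apply, hz i (by omega), hz' i (by omega), ← map_add, e1, e2]
    congr 1
    simp only [add_mul, mul_add, mul_assoc]
    abel
  smul_mem' := by
    rintro r z ⟨k, u, v, hz⟩
    refine ⟨k, r * u, r * v, fun i hi => ?_⟩
    rw [Pi.smul_apply, hz i hi, ← map_smul, smul_eq_mul]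
    congr 1
    rw [mul_add, ← mul_assoc, alw_comm, ← mul_assoc r (gaw R i), gaw_comm]
    simp only [mul_assoc]

/-- tail elements -/
def FW (h : FiltData R I a) (k : ℕ) (s t : R) : FMM h :=
  ⟨fun i => if k ≤ i then Fmk h (2 * i + 1)
    (alw R i * (s * a ^ (i - k)) + gaw R i * (t * a ^ (i - k))) else 0,
    ⟨k, s, t, fun _ hi => if_pos hi⟩⟩

/-- coordinate elements -/
def Fd (h : FiltData R I a) (j : ℕ) : FMM h :=
  ⟨Pi.single j (Fmk h (2 * j + 1) 1), ⟨j + 1, 0, 0, fun i hi => by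
    rw [Pi.single_eq_of_ne (by omega)]
    simp⟩⟩

/-- the projections -/
def Frho (h : FiltData R I a) (i : ℕ) : FMM h →ₗ[R] FQ h (i + 1) :=
  (Ffac h i).comp ((LinearMap.proj i).comp (FMM h).subtype)

theorem Frho_apply (h : FiltData R I a) (i : ℕ) (z : FMM h) (t : R)
    (ht : z.1 i = Fmk h (2 * i + 1) t) : Frho h i z = Fmk h (i + 1) t := by
  show Ffac h i (z.1 i) = _
  rw [ht, Ffac_mk]

theorem Frho_sub (h : FiltData R I a) (i : ℕ) (z w : FMM h) :
    Frho h i (z - w) = Frho h i z - Frho h i w := by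
  have h1 : Frho h i (z - w) + Frho h i w = Frho h i z := by
    rw [← map_add, sub_add_cancel]
  exact eq_sub_of_add_eq h1

theorem Fc_sub (h : FiltData R I a) (i : ℕ) (φ ψ : Module.End R (FMM h)) :
    a ^ i • Frho h i ((φ - ψ) (Fd h i))
      = a ^ i • Frho h i (φ (Fd h i)) - a ^ i • Frho h i (ψ (Fd h i)) := by
  have h1 : (φ - ψ) (Fd h i) = φ (Fd h i) - ψ (Fd h i) := LinearMap.sub_apply _ _ _
  have h2 := Frho_sub h i (φ (Fd h i)) (ψ (Fd h i))
  rw [h1]
  refine (congrArg (fun q => a ^ i • q) h2).trans ?_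
  exact smul_sub _ _ _

theorem pow_smul_zero (h : FiltData R I a) (n : ℕ) (q : FQ h n) : a ^ n • q = 0 := by
  obtain ⟨t, rfl⟩ := Fmk_surj h n q
  rw [← map_smul, smul_eq_mul, Fmk_eq_zero]
  exact F_pow_mem' h t n

theorem Fd_smul (h : FiltData R I a) (j : ℕ) : a ^ (2 * j + 1) • Fd h j = 0 := by
  apply Subtype.ext
  funext i
  show a ^ (2 * j + 1) • (Pi.single j (Fmk h (2 * j + 1) 1) : ∀ i, FQ h (2 * i + 1)) i = 0
  by_cases hij : i = j
  · subst hij
    rw [Pi.single_eq_same]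
    exact pow_smul_zero h _ _
  · rw [Pi.single_eq_of_ne hij, smul_zero]

/-- lower coordinates do not contribute -/
theorem Flow (h : FiltData R I a) (φ : Module.End R (FMM h)) {i j : ℕ} (hj : j < i) :
    a ^ j • Frho h i (φ (Fd h j)) = 0 := by
  obtain ⟨t, ht⟩ := Fmk_surj h (2 * i + 1) ((φ (Fd h j)).1 i)
  rw [Frho_apply h i _ t ht.symm, ← map_smul, smul_eq_mul, Fmk_eq_zero]
  have h1 : a ^ (2 * j + 1) • (φ (Fd h j)) = 0 := by
    rw [← map_smul, Fd_smul, map_zero]
  have h2 : a ^ (2 * j + 1) • (φ (Fd h j)).1 i = 0 := by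
    have := congrArg (fun z : FMM h => z.1 i) h1
    exact this
  rw [← ht, ← map_smul, smul_eq_mul, Fmk_eq_zero] at h2
  have h3 : a ^ (2 * j + 1) * t ∈ I ((2 * i - 2 * j - 1) + 1 + (2 * j + 1)) := by
    have e : (2 * i - 2 * j - 1) + 1 + (2 * j + 1) = 2 * i + 1 := by omega
    rw [e]
    exact h2
  have h4 := F_cancel_left h _ h3
  have h5 := F_pow_mem h h4 j
  exact F_anti h (by omega) h5

/-- decomposition -/
theorem Fdecomp (h : FiltData R I a) (s t : R) (hs : s = 0 ∨ s = 1) (ht : t = 0 ∨ t = 1)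
    (i : ℕ) : FW h 0 s t = ∑ j ∈ Finset.range (i + 1),
      ((alw R j * s + gaw R j * t) * a ^ j) • Fd h j + a ^ (i + 1) • FW h (i + 1) s t := by
  apply Subtype.ext
  funext m
  have hsum : ((∑ j ∈ Finset.range (i + 1),
      ((alw R j * s + gaw R j * t) * a ^ j) • Fd h j + a ^ (i + 1) • FW h (i + 1) s t : FMM h)).1 m
      = ∑ j ∈ Finset.range (i + 1), ((alw R j * s + gaw R j * t) * a ^ j) • (Fd h j).1 m
        + a ^ (i + 1) • (FW h (i + 1) s t).1 m := by
    rw [Submodule.coe_add, Pi.add_apply, Submodule.coe_sum, Finset.sum_apply]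
    rfl
  rw [hsum]
  have hd : ∀ j, j ≠ m → ((alw R j * s + gaw R j * t) * a ^ j) • (Fd h j).1 m = 0 := by
    intro j hj
    show _ • (Pi.single j (Fmk h (2 * j + 1) 1) : ∀ i, FQ h (2 * i + 1)) m = 0
    rw [Pi.single_eq_of_ne (Ne.symm hj), smul_zero]
  have hW : (FW h 0 s t).1 m = Fmk h (2 * m + 1)
      (alw R m * (s * a ^ m) + gaw R m * (t * a ^ m)) := by
    have h0 : (FW h 0 s t).1 m = if 0 ≤ m then Fmk h (2 * m + 1)
      (alw R m * (s * a ^ (m - 0)) + gaw R m * (t * a ^ (m - 0))) else 0 := rfl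
    rw [h0, if_pos (Nat.zero_le m), Nat.sub_zero]
  rw [hW]
  by_cases hm : m ≤ i
  · rw [Finset.sum_eq_single m (fun j _ hj => hd j hj)
      (fun hc => absurd (Finset.mem_range.2 (by omega)) hc)]
    have h2 : (FW h (i + 1) s t).1 m = 0 := if_neg (by omega)
    rw [h2, smul_zero, add_zero]
    show _ = _ • (Pi.single m (Fmk h (2 * m + 1) 1) : ∀ i, FQ h (2 * i + 1)) m
    rw [Pi.single_eq_same, ← map_smul, smul_eq_mul, mul_one, add_mul]
    simp only [mul_assoc]
  · rw [Finset.sum_eq_zero (fun j hj => hd j (by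
      have := Finset.mem_range.1 hj
      omega)), zero_add]
    have h2 : (FW h (i + 1) s t).1 m = Fmk h (2 * m + 1)
        (alw R m * (s * a ^ (m - (i + 1))) + gaw R m * (t * a ^ (m - (i + 1)))) :=
      if_pos (by omega)
    rw [h2, ← map_smul, smul_eq_mul]
    congr 1
    have e1 : a ^ m = a ^ (i + 1) * a ^ (m - (i + 1)) := by
      rw [← pow_add]; congr 1; omega
    have cs : ∀ r : R, r * s = s * r := by
      intro r; rcases hs with hs | hs <;> rw [hs] <;> simp
    have ct : ∀ r : R, r * t = t * r := by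
      intro r; rcases ht with ht | ht <;> rw [ht] <;> simp
    rw [mul_add, ← mul_assoc (a ^ (i + 1)) (alw R m), alw_comm,
      ← mul_assoc (a ^ (i + 1)) (gaw R m), gaw_comm, mul_assoc (alw R m) (a ^ (i + 1)),
      ← mul_assoc (a ^ (i + 1)) s, cs, mul_assoc (gaw R m) (a ^ (i + 1)),
      ← mul_assoc (a ^ (i + 1)) t, ct, mul_assoc s (a ^ (i + 1)), ← e1,
      mul_assoc t (a ^ (i + 1)), ← e1]

theorem Fkey (h : FiltData R I a) (s t : R) (hs : s = 0 ∨ s = 1) (ht : t = 0 ∨ t = 1)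
    (φ : Module.End R (FMM h)) (i : ℕ) :
    Frho h i (φ (FW h 0 s t)) = (alw R i * s + gaw R i * t) • (a ^ i • Frho h i (φ (Fd h i))) := by
  rw [Fdecomp h s t hs ht i]
  simp only [map_add, map_sum, map_smul]
  rw [pow_smul_zero h (i + 1), add_zero, Finset.sum_range_succ, Finset.sum_eq_zero, zero_add,
    mul_smul]
  intro j hj
  rw [mul_smul, Flow h φ (Finset.mem_range.1 hj), smul_zero]

end filt

theorem FiltData.not_ladm {R : Type u} [Ring R] {I : ℕ → Set R} {a : R}
    (h : FiltData R I a) : ¬ LAdm R := by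
  intro hL
  have hM : Steph R (FMM h) := (steph_iff R (FMM h)).1 (hL (FMM h))
  obtain ⟨ζ, hζ⟩ := three_dir hM (S := ℕ) (fun i => FQ h (i + 1))
    (fun i => (Frho h i).toAddMonoidHom) (fun i => Fmk h (i + 1) (a ^ i)) gdir
    (FW h 0 1 0) (FW h 0 0 1) (fun i φ => a ^ i • Frho h i (φ (Fd h i)))
    (by
      intro i
      show a ^ i • Frho h i (Fd h i) = _
      rw [Frho_apply h i (Fd h i) 1 (Pi.single_eq_same _ _), ← map_smul, smul_eq_mul, mul_one])
    (fun i φ ψ => Fc_sub h i φ ψ)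
    (by
      intro φ i
      show Frho h i (φ (FW h 0 1 0)) = _
      rw [Fkey h 1 0 (Or.inr rfl) (Or.inl rfl)]
      unfold alw
      split_ifs with hg <;> simp)
    (by
      intro φ i
      show Frho h i (φ (FW h 0 0 1)) = _
      rw [Fkey h 0 1 (Or.inl rfl) (Or.inr rfl)]
      unfold gaw
      split_ifs with hg <;> simp)
  obtain ⟨k, u, v, hz⟩ := ζ.2
  have hζ' : ∀ i, Frho h i ζ = if gdir i = 1 then -(Fmk h (i + 1) (a ^ i)) else 0 := hζ
  have g0 : gdir (3 * k) = 0 := by
    apply Fin.ext; show 3 * k % 3 = 0; omega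
  have g1 : gdir (3 * k + 1) = 1 := by
    apply Fin.ext; show (3 * k + 1) % 3 = 1; omega
  have g2 : gdir (3 * k + 2) = 2 := by
    apply Fin.ext; show (3 * k + 2) % 3 = 2; omega
  have hval : ∀ i, k ≤ i → Frho h i ζ = Fmk h (i + 1)
      (alw R i * (u * a ^ (i - k)) + gaw R i * (v * a ^ (i - k))) :=
    fun i hi => Frho_apply h i ζ _ (hz i hi)
  -- direction 0
  have r0 : u ∈ I (k + 1) := by
    have e1 := hval (3 * k) (by omega)
    rw [hζ', g0, if_neg (by decide)] at e1
    have e2 : alw R (3 * k) = 1 := by unfold alw; rw [g0, if_neg (by decide)]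
    have e3 : gaw R (3 * k) = 0 := by unfold gaw; rw [g0, if_pos rfl]
    rw [e2, e3, one_mul, zero_mul, add_zero] at e1
    have e4 := (Fmk_eq_zero h (3 * k + 1) _).1 e1.symm
    apply F_cancel_right h (3 * k - k)
    have e5 : k + 1 + (3 * k - k) = 3 * k + 1 := by omega
    rw [e5]
    exact e4
  have r2 : u + v ∈ I (k + 1) := by
    have e1 := hval (3 * k + 2) (by omega)
    rw [hζ', g2, if_neg (by decide)] at e1
    have e2 : alw R (3 * k + 2) = 1 := by unfold alw; rw [g2, if_neg (by decide)]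
    have e3 : gaw R (3 * k + 2) = 1 := by unfold gaw; rw [g2, if_neg (by decide)]
    rw [e2, e3, one_mul, one_mul, ← add_mul] at e1
    have e4 := (Fmk_eq_zero h (3 * k + 2 + 1) _).1 e1.symm
    apply F_cancel_right h (3 * k + 2 - k)
    have e5 : k + 1 + (3 * k + 2 - k) = 3 * k + 2 + 1 := by omega
    rw [e5]
    exact e4
  have r1 : v + a ^ k ∈ I (k + 1) := by
    have e1 := hval (3 * k + 1) (by omega)
    rw [hζ', g1, if_pos rfl] at e1
    have e2 : alw R (3 * k + 1) = 0 := by unfold alw; rw [g1, if_pos rfl]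
    have e3 : gaw R (3 * k + 1) = 1 := by unfold gaw; rw [g1, if_neg (by decide)]
    rw [e2, e3, zero_mul, one_mul, zero_add] at e1
    have e6 : Fmk h (3 * k + 1 + 1) (v * a ^ (3 * k + 1 - k) + a ^ (3 * k + 1)) = 0 := by
      rw [map_add, ← e1, neg_add_cancel]
    have e4 := (Fmk_eq_zero h (3 * k + 1 + 1) _).1 e6
    apply F_cancel_right h (3 * k + 1 - k)
    have e5 : k + 1 + (3 * k + 1 - k) = 3 * k + 1 + 1 := by omega
    have e7 : (v + a ^ k) * a ^ (3 * k + 1 - k) = v * a ^ (3 * k + 1 - k) + a ^ (3 * k + 1) := by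
      rw [add_mul, ← pow_add]
      congr 2
      omega
    rw [e5, e7]
    exact e4
  have r3 : a ^ k ∈ I (k + 1) := by
    have e1 : (v + a ^ k) + ((-1) * (u + v) + u) = a ^ k := by
      rw [neg_one_mul]
      abel
    rw [← e1]
    exact h.add_mem _ _ _ r1 (h.add_mem _ _ _ (h.mul_left _ _ _ r2) r0)
  have r4 : a ^ k * 1 ∈ I (0 + 1 + k) := by
    rw [mul_one, Nat.zero_add, Nat.add_comm]
    exact r3
  exact h.one_notMem (F_cancel_left h k r4)

end Pool.Agent.Dist14
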