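import Pool.Agent.Helper927.Dist.Defs
set_option autoImplicit false
set_option maxHeartbeats 4000000
universe u v

namespace Pool.Agent.Dist14

/-! ### AVAILABLE: statements you may use; leave these `sorry`s in place (they are proved in other jobs) -/



/-! ### TARGET: replace the `sorry`s below by proofs (auxiliary lemmas are fine, put them in this file) -/

theorem LDist.maximal_twoSided {R : Type u} [Ring R] (h : LDist R) (m : Ideal R)
    (hm : m.IsMaximal) : m.IsTwoSided := by
  refine ⟨fun {x} a hx => ?_⟩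
  by_contra hxa
  obtain ⟨b, hb⟩ : ∃ b, 1 - b * (x * a) ∈ m := by
    have h1 := (Ideal.isMaximal_iff.1 hm).2 (m ⊔ Ideal.span {x * a}) (x * a) le_sup_left hxa
      (le_sup_right (a := m) (Ideal.subset_span rfl))
    obtain ⟨y, hy, z, hz, hyz⟩ := Submodule.mem_sup.1 h1
    obtain ⟨b, rfl⟩ := Ideal.mem_span_singleton'.1 hz
    refine ⟨b, ?_⟩
    have : 1 - b * (x * a) = y := by
      rw [← hyz]; abel
    rw [this]
    exact hy
  set y := 1 - a * b * x with hy
  set w := b * x with hw
  have hy1 : y - 1 ∈ m := by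
    have : y - 1 = -(a * b) * x := by rw [hy]; noncomm_ring
    rw [this]
    exact m.mul_mem_left _ hx
  have hya : y * a ∈ m := by
    have : y * a = a * (1 - b * (x * a)) := by rw [hy]; noncomm_ring
    rw [this]
    exact m.mul_mem_left _ hb
  have hw0 : w ∈ m := m.mul_mem_left _ hx
  have hwa : w * a - 1 ∈ m := by
    have : w * a - 1 = -(1 - b * (x * a)) := by rw [hw]; noncomm_ring
    rw [this]
    exact m.neg_mem hb
  obtain ⟨c, α, β, h1, h2⟩ := h y (y + w)
  -- first: c y = α (y + w)
  have hα : α ∈ m := by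
    have e1 : c * (y * a) ∈ m := m.mul_mem_left _ hya
    have e2 : α * (w * a - 1) ∈ m := m.mul_mem_left _ hwa
    have e3 : α * (y * a) ∈ m := m.mul_mem_left _ hya
    have e4 : α = c * (y * a) - α * (y * a) - α * (w * a - 1) := by
      have : c * (y * a) = α * (y + w) * a := by rw [← mul_assoc, h1]
      rw [this]; noncomm_ring
    rw [e4]
    exact m.sub_mem (m.sub_mem e1 e3) e2
  have hc : c ∈ m := by
    have e1 : c * (y - 1) ∈ m := m.mul_mem_left _ hy1
    have e2 : α * (y - 1) ∈ m := m.mul_mem_left _ hy1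
    have e3 : α * w ∈ m := m.mul_mem_left _ hw0
    have e4 : c = α * (y - 1) + α * w + α - c * (y - 1) := by
      have : c * (y - 1) = α * (y + w) - c := by rw [← h1]; noncomm_ring
      rw [this]; noncomm_ring
    rw [e4]
    exact m.sub_mem (m.add_mem (m.add_mem e2 e3) hα) e1
  have hc' : 1 - c ∈ m := by
    have e1 : β * (y * a) ∈ m := m.mul_mem_left _ hya
    have e2 : (1 - c) * (w * a - 1) ∈ m := m.mul_mem_left _ hwa
    have e3 : (1 - c) * (y * a) ∈ m := m.mul_mem_left _ hya
    have e4 : 1 - c = β * (y * a) - (1 - c) * (y * a) - (1 - c) * (w * a - 1) := by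
      have : β * (y * a) = (1 - c) * (y + w) * a := by rw [← mul_assoc, h2]
      rw [this]; noncomm_ring
    rw [e4]
    exact m.sub_mem (m.sub_mem e1 e3) e2
  apply hm.ne_top
  rw [Ideal.eq_top_iff_one]
  have : (1 : R) = c + (1 - c) := by abel
  rw [this]
  exact m.add_mem hc hc'

end Pool.Agent.Dist14
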