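import Pool.Agent.Helper927.Dist.Defs
set_option autoImplicit false
set_option maxHeartbeats 4000000
universe u v

namespace Pool.Agent.Dist14

/-! ### AVAILABLE: statements you may use; leave these `sorry`s in place (they are proved in other jobs) -/



/-! ### TARGET: replace the `sorry`s below by proofs (auxiliary lemmas are fine, put them in this file) -/

theorem left_inv_mod {R : Type u} [Ring R] (m : Ideal R) (hm : m.IsMaximal)
    (a : R) (ha : a ∉ m) : ∃ b : R, b * a - 1 ∈ m := by
  have h1 : m ⊔ Ideal.span {a} = ⊤ := by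
    apply hm.1.2
    refine lt_of_le_of_ne le_sup_left ?_
    intro h
    apply ha
    rw [h]
    exact Submodule.mem_sup_right (Ideal.subset_span rfl)
  have h2 : (1 : R) ∈ m ⊔ Ideal.span {a} := by rw [h1]; trivial
  obtain ⟨x, hx, y, hy, hxy⟩ := Submodule.mem_sup.1 h2
  obtain ⟨b, hb⟩ := Submodule.mem_span_singleton.1 hy
  refine ⟨b, ?_⟩
  have h3 : b * a - 1 = -x := by
    rw [← hxy, ← hb, smul_eq_mul]
    abel
  rw [h3]
  exact m.neg_mem hx

theorem inv_mod {R : Type u} [Ring R] (m : Ideal R) (hm : m.IsMaximal) (h2 : m.IsTwoSided)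
    (a : R) (ha : a ∉ m) : ∃ b : R, b * a - 1 ∈ m ∧ a * b - 1 ∈ m := by
  obtain ⟨b, hb⟩ := left_inv_mod m hm a ha
  have hbm : b ∉ m := by
    intro hbm
    have h3 : b * a ∈ m := m.mul_mem_right a hbm
    have h4 : (1 : R) ∈ m := by
      have h5 : (1 : R) = b * a - (b * a - 1) := by abel
      rw [h5]
      exact m.sub_mem h3 hb
    exact hm.ne_top ((Ideal.eq_top_iff_one m).2 h4)
  obtain ⟨c, hc⟩ := left_inv_mod m hm b hbm
  refine ⟨b, hb, ?_⟩
  have h6 : a - c ∈ m := by
    have h7 : a - c = c * (b * a - 1) - (c * b - 1) * a := by noncomm_ring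
    rw [h7]
    exact m.sub_mem (m.mul_mem_left c hb) (m.mul_mem_right a hc)
  have h8 : a * b - 1 = (a - c) * b + (c * b - 1) := by noncomm_ring
  rw [h8]
  exact m.add_mem (m.mul_mem_right b h6) hc

theorem mem_or_mem_of_maximal {R : Type u} [Ring R] (m : Ideal R) (hm : m.IsMaximal)
    (h2 : m.IsTwoSided) (a b : R) (hab : a * b ∈ m) : a ∈ m ∨ b ∈ m := by
  by_cases ha : a ∈ m
  · exact Or.inl ha
  · right
    obtain ⟨b', hb'⟩ := left_inv_mod m hm a ha
    have h3 : b = b' * (a * b) - (b' * a - 1) * b := by noncomm_ring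
    rw [h3]
    exact m.sub_mem (m.mul_mem_left b' hab) (m.mul_mem_right b hb')

end Pool.Agent.Dist14
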