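import Pool.Agent.Helper927.Dist.Defs
import Pool.Agent.Helper927.Dist.A5
import Pool.Agent.Helper927.Dist.A6
set_option autoImplicit false
set_option maxHeartbeats 4000000
universe u v

namespace Pool.Agent.Dist14

/-! ### TARGET: replace the `sorry`s below by proofs (auxiliary lemmas are fine, put them in this file) -/


section aux

variable {R : Type u} [Ring R]

theorem aux_left {a : R} (hl : LDist R) (m : Ideal R) (hm : m.IsMaximal) (h2 : m.IsTwoSided)
    (ha : a ∈ m) (ha2 : a ∉ m * m) (y : R) (hy : y ∈ m) :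
    ∃ r : R, y - r * a ∈ m * m := by
  obtain ⟨c, al, be, h1, h3⟩ := hl y a
  by_cases hc : c ∈ m
  · have hbe : be ∉ m := by
      intro hb
      apply ha2
      have : a = c * a + be * y := by
        rw [← h3]; noncomm_ring
      rw [this]
      exact Ideal.add_mem _ (Ideal.mul_mem_mul hc ha) (Ideal.mul_mem_mul hb hy)
    obtain ⟨b', hb1, -⟩ := inv_mod m hm h2 be hbe
    refine ⟨b' * (1 - c), ?_⟩
    have : y - b' * (1 - c) * a = -((b' * be - 1) * y) := by
      have : b' * (1 - c) * a = b' * ((1 - c) * a) := by noncomm_ring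
      rw [this, h3]; noncomm_ring
    rw [this]
    exact (m * m).neg_mem (Ideal.mul_mem_mul hb1 hy)
  · obtain ⟨c', hc1, -⟩ := inv_mod m hm h2 c hc
    refine ⟨c' * al, ?_⟩
    have : y - c' * al * a = -((c' * c - 1) * y) := by
      have : c' * al * a = c' * (al * a) := by noncomm_ring
      rw [this, ← h1]; noncomm_ring
    rw [this]
    exact (m * m).neg_mem (Ideal.mul_mem_mul hc1 hy)

theorem aux_right {a : R} (hr : RDist R) (m : Ideal R) (hm : m.IsMaximal) (h2 : m.IsTwoSided)
    (ha : a ∈ m) (ha2 : a ∉ m * m) (y : R) (hy : y ∈ m) :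
    ∃ r : R, y - a * r ∈ m * m := by
  obtain ⟨c, al, be, h1, h3⟩ := hr y a
  by_cases hc : c ∈ m
  · have hbe : be ∉ m := by
      intro hb
      apply ha2
      have : a = a * c + y * be := by
        rw [← h3]; noncomm_ring
      rw [this]
      exact Ideal.add_mem _ (Ideal.mul_mem_mul ha hc) (Ideal.mul_mem_mul hy hb)
    obtain ⟨b', -, hb1⟩ := inv_mod m hm h2 be hbe
    refine ⟨(1 - c) * b', ?_⟩
    have : y - a * ((1 - c) * b') = -(y * (be * b' - 1)) := by
      have : a * ((1 - c) * b') = (a * (1 - c)) * b' := by noncomm_ring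
      rw [this, h3]; noncomm_ring
    rw [this]
    exact (m * m).neg_mem (Ideal.mul_mem_mul hy hb1)
  · obtain ⟨c', -, hc1⟩ := inv_mod m hm h2 c hc
    refine ⟨al * c', ?_⟩
    have : y - a * (al * c') = -(y * (c * c' - 1)) := by
      have : a * (al * c') = (a * al) * c' := by noncomm_ring
      rw [this, ← h1]; noncomm_ring
    rw [this]
    exact (m * m).neg_mem (Ideal.mul_mem_mul hy hc1)

theorem pw_succ (m : Ideal R) (n : ℕ) : m ^ (n + 1) = m ^ n * m := by
  rw [Submodule.pow_succ]

theorem pw_succ' (m : Ideal R) (h2 : m.IsTwoSided) (n : ℕ) : m ^ (n + 1) = m * m ^ n :=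
  Ideal.IsTwoSided.pow_succ n

theorem pw_zero (m : Ideal R) : m ^ 0 = ⊤ := by
  rw [Submodule.pow_zero]; exact Ideal.one_eq_top

theorem step2 {a : R} (m : Ideal R) (h2 : m.IsTwoSided) (ha : a ∈ m)
    (h1 : ∀ y ∈ m, ∃ r : R, y - r * a ∈ m * m) (n : ℕ) :
    ∀ y ∈ m ^ n, ∃ r : R, y - r * a ^ n ∈ m ^ (n + 1) := by
  have htwo : ∀ k, (m ^ k).IsTwoSided := fun k => inferInstance
  induction n with
  | zero => intro y _; exact ⟨y, by simp⟩
  | succ n ih =>
    intro y hy
    rw [pw_succ] at hy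
    refine Submodule.mul_induction_on hy ?_ ?_
    · intro x hx z hz
      obtain ⟨r, hr⟩ := h1 z hz
      haveI := htwo n
      obtain ⟨s, hs⟩ := ih (x * r) (Ideal.mul_mem_right _ _ hx)
      refine ⟨s, ?_⟩
      have : x * z - s * a ^ (n + 1) = (x * r - s * a ^ n) * a + x * (z - r * a) := by
        rw [pow_succ]; noncomm_ring
      rw [this]
      refine Ideal.add_mem _ ?_ ?_
      · rw [pw_succ]; exact Ideal.mul_mem_mul hs ha
      · have : m ^ (n + 1 + 1) = m ^ n * (m * m) := by
          rw [pw_succ, pw_succ, mul_assoc]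
        rw [this]; exact Ideal.mul_mem_mul hx hr
    · rintro x y ⟨r, hr⟩ ⟨s, hs⟩
      refine ⟨r + s, ?_⟩
      have : x + y - (r + s) * a ^ (n + 1) = (x - r * a ^ (n + 1)) + (y - s * a ^ (n + 1)) := by
        noncomm_ring
      rw [this]; exact Ideal.add_mem _ hr hs

theorem step2' {a : R} (m : Ideal R) (h2 : m.IsTwoSided) (ha : a ∈ m)
    (h1 : ∀ y ∈ m, ∃ r : R, y - a * r ∈ m * m) (n : ℕ) :
    ∀ y ∈ m ^ n, ∃ r : R, y - a ^ n * r ∈ m ^ (n + 1) := by
  induction n with
  | zero => intro y _; exact ⟨y, by simp⟩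
  | succ n ih =>
    intro y hy
    rw [pw_succ' m h2] at hy
    refine Submodule.mul_induction_on hy ?_ ?_
    · intro z hz x hx
      obtain ⟨r, hr⟩ := h1 z hz
      obtain ⟨s, hs⟩ := ih (r * x) (Ideal.mul_mem_left _ _ hx)
      refine ⟨s, ?_⟩
      have : z * x - a ^ (n + 1) * s = a * (r * x - a ^ n * s) + (z - a * r) * x := by
        rw [pow_succ']; noncomm_ring
      rw [this]
      refine Ideal.add_mem _ ?_ ?_
      · rw [pw_succ' m h2]; exact Ideal.mul_mem_mul ha hs
      · have : m ^ (n + 1 + 1) = (m * m) * m ^ n := by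
          rw [pw_succ' m h2, pw_succ' m h2, mul_assoc]
        rw [this]; exact Ideal.mul_mem_mul hr hx
    · rintro x y ⟨r, hr⟩ ⟨s, hs⟩
      refine ⟨r + s, ?_⟩
      have : x + y - a ^ (n + 1) * (r + s) = (x - a ^ (n + 1) * r) + (y - a ^ (n + 1) * s) := by
        noncomm_ring
      rw [this]; exact Ideal.add_mem _ hr hs

theorem pw_le (m : Ideal R) {i j : ℕ} (h : i ≤ j) : m ^ j ≤ m ^ i := Ideal.pow_le_pow_right h

theorem apow_mem {a : R} (m : Ideal R) (ha : a ∈ m) (n : ℕ) : a ^ n ∈ m ^ n := by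
  induction n with
  | zero => rw [pw_zero]; trivial
  | succ n ih => rw [pw_succ, pow_succ]; exact Ideal.mul_mem_mul ih ha

end aux

theorem filtData_of_pow_ne {R : Type u} [Ring R] (hl : LDist R) (hr : RDist R) (m : Ideal R)
    (hm : m.IsMaximal) (h : ∀ k : ℕ, m ^ k ≠ m ^ (k + 1)) :
    ∃ (I : ℕ → Set R) (a : R), FiltData R I a := by
  have h2 : m.IsTwoSided := hl.maximal_twoSided m hm
  have htwo : ∀ k, (m ^ k).IsTwoSided := fun k => inferInstance
  have hone : m ^ 1 = m := by
    rw [pw_succ, pw_zero]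
    apply le_antisymm
    · rw [Submodule.mul_le]; intro x _ y hy; exact m.mul_mem_left x hy
    · intro x hx; simpa using Ideal.mul_mem_mul (I := (⊤ : Ideal R)) (J := m) (r := 1) trivial hx
  have h22 : m ^ 2 = m * m := by rw [pw_succ, hone]
  have hex : ∃ a, a ∈ m ∧ a ∉ m * m := by
    by_contra hcon
    push Not at hcon
    apply h 1
    apply le_antisymm
    · intro x hx
      rw [hone] at hx
      have := hcon x hx
      show x ∈ m ^ 2
      rw [h22]; exact this
    · exact pw_le m (by norm_num)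
  obtain ⟨a, ha, ha2⟩ := hex
  have hL := aux_left hl m hm h2 ha ha2
  have hR := aux_right hr m hm h2 ha ha2
  have S2 := step2 m h2 ha hL
  have S2' := step2' m h2 ha hR
  have S3 : ∀ n, a ^ n ∉ m ^ (n + 1) := by
    intro n hn
    apply h n
    apply le_antisymm
    · intro y hy
      obtain ⟨r, hr⟩ := S2 n y hy
      have : y = (y - r * a ^ n) + r * a ^ n := by noncomm_ring
      rw [this]
      exact Ideal.add_mem _ hr (Ideal.mul_mem_left _ _ hn)
    · exact pw_le m (Nat.le_succ n)
  refine ⟨fun n => ((m ^ n : Ideal R) : Set R), a, ?_⟩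
  refine ⟨?_, ?_, ?_, ?_, ?_, ?_, ?_, ?_, ?_, ?_, ?_⟩
  · intro n; exact (m ^ n).zero_mem
  · intro n x y hx hy; exact (m ^ n).add_mem hx hy
  · intro n r x hx; exact (m ^ n).mul_mem_left r hx
  · intro n r x hx; haveI := htwo n; exact Ideal.mul_mem_right r _ hx
  · intro n x hx; exact pw_le m (Nat.le_succ n) hx
  · intro x; show x ∈ m ^ 0; rw [pw_zero]; trivial
  · intro h1
    have h1' : (1 : R) ∈ m ^ 1 := h1
    rw [hone] at h1'
    exact hm.ne_top ((Ideal.eq_top_iff_one m).2 h1')
  · intro n x hx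
    show a * x ∈ m ^ (n + 1)
    rw [pw_succ' m h2]; exact Ideal.mul_mem_mul ha hx
  · intro n x hx
    show x * a ∈ m ^ (n + 1)
    rw [pw_succ]; exact Ideal.mul_mem_mul hx ha
  · -- left_cancel
    intro n x hx
    by_contra hcon
    have hex : ∃ k, x ∉ m ^ (k + 1) := ⟨n, hcon⟩
    classical
    set j := Nat.find hex with hj
    have hj1 : x ∉ m ^ (j + 1) := Nat.find_spec hex
    have hjn : j ≤ n := Nat.find_min' hex hcon
    have hj0 : x ∈ m ^ j := by
      rcases Nat.eq_zero_or_pos j with h0 | h0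
      · rw [h0, pw_zero]; trivial
      · obtain ⟨k, hk⟩ := Nat.exists_eq_succ_of_ne_zero h0.ne'
        have := Nat.find_min hex (m := k) (by omega)
        rw [not_not] at this
        rw [hk]; exact this
    obtain ⟨r, hr⟩ := S2' j x hj0
    have hrm : r ∉ m := by
      intro hrm
      apply hj1
      have : x = (x - a ^ j * r) + a ^ j * r := by noncomm_ring
      rw [this]
      refine Ideal.add_mem _ hr ?_
      rw [pw_succ]; exact Ideal.mul_mem_mul (apow_mem m ha j) hrm
    obtain ⟨r', -, hr'⟩ := inv_mod m hm h2 r hrm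
    apply S3 (j + 1)
    have hxa : a * x ∈ m ^ (j + 2) := pw_le m (by omega) hx
    have hza : a * (x - a ^ j * r) ∈ m ^ (j + 2) := by
      rw [show j + 2 = (j + 1) + 1 from rfl, pw_succ' m h2]; exact Ideal.mul_mem_mul ha hr
    have hra : a ^ (j + 1) * r ∈ m ^ (j + 2) := by
      have : a ^ (j + 1) * r = a * x - a * (x - a ^ j * r) := by
        rw [pow_succ']; noncomm_ring
      rw [this]; exact (m ^ (j + 2)).sub_mem hxa hza
    have hrr : a ^ (j + 1) * r * r' ∈ m ^ (j + 2) := by
      haveI := htwo (j + 2); exact Ideal.mul_mem_right _ _ hra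
    have hlast : a ^ (j + 1) * (r * r' - 1) ∈ m ^ (j + 2) := by
      rw [show j + 2 = (j + 1) + 1 from rfl, pw_succ]
      exact Ideal.mul_mem_mul (apow_mem m ha _) hr'
    have : a ^ (j + 1) = a ^ (j + 1) * r * r' - a ^ (j + 1) * (r * r' - 1) := by noncomm_ring
    rw [this]
    exact (m ^ (j + 2)).sub_mem hrr hlast
  · -- right_cancel
    intro n x hx
    by_contra hcon
    have hex : ∃ k, x ∉ m ^ (k + 1) := ⟨n, hcon⟩
    classical
    set j := Nat.find hex with hj
    have hj1 : x ∉ m ^ (j + 1) := Nat.find_spec hex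
    have hjn : j ≤ n := Nat.find_min' hex hcon
    have hj0 : x ∈ m ^ j := by
      rcases Nat.eq_zero_or_pos j with h0 | h0
      · rw [h0, pw_zero]; trivial
      · obtain ⟨k, hk⟩ := Nat.exists_eq_succ_of_ne_zero h0.ne'
        have := Nat.find_min hex (m := k) (by omega)
        rw [not_not] at this
        rw [hk]; exact this
    obtain ⟨r, hr⟩ := S2 j x hj0
    have hrm : r ∉ m := by
      intro hrm
      apply hj1
      have : x = (x - r * a ^ j) + r * a ^ j := by noncomm_ring
      rw [this]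
      refine Ideal.add_mem _ hr ?_
      rw [pw_succ' m h2]; exact Ideal.mul_mem_mul hrm (apow_mem m ha j)
    obtain ⟨r', hr', -⟩ := inv_mod m hm h2 r hrm
    apply S3 (j + 1)
    have hxa : x * a ∈ m ^ (j + 2) := pw_le m (by omega) hx
    have hza : (x - r * a ^ j) * a ∈ m ^ (j + 2) := by
      rw [show j + 2 = (j + 1) + 1 from rfl, pw_succ]; exact Ideal.mul_mem_mul hr ha
    have hra : r * a ^ (j + 1) ∈ m ^ (j + 2) := by
      have : r * a ^ (j + 1) = x * a - (x - r * a ^ j) * a := by
        rw [pow_succ]; noncomm_ring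
      rw [this]; exact (m ^ (j + 2)).sub_mem hxa hza
    have hrr : r' * (r * a ^ (j + 1)) ∈ m ^ (j + 2) := Ideal.mul_mem_left _ _ hra
    have hlast : (r' * r - 1) * a ^ (j + 1) ∈ m ^ (j + 2) := by
      rw [show j + 2 = (j + 1) + 1 from rfl, pw_succ' m h2]
      exact Ideal.mul_mem_mul hr' (apow_mem m ha _)
    have : a ^ (j + 1) = r' * (r * a ^ (j + 1)) - (r' * r - 1) * a ^ (j + 1) := by noncomm_ring
    rw [this]
    exact (m ^ (j + 2)).sub_mem hrr hlast

end Pool.Agent.Dist14
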