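import Pool.Agent.Helper927.Dist.Defs
import Pool.Agent.Helper927.Dist.A1
set_option autoImplicit false
set_option maxHeartbeats 4000000
universe u v

namespace Pool.Agent.Dist14

/-! ### TARGET: replace the `sorry`s below by proofs (auxiliary lemmas are fine, put them in this file) -/

theorem LAdm.rdist {R : Type u} [Ring R] (h : LAdm R) : RDist R := by
  intro p q
  obtain ⟨e, f, g, h1, h2⟩ := (steph_iff R R).1 (h R) p q
  have hφ : ∀ (φ : Module.End R R) (x : R), φ x = x * φ 1 := by
    intro φ x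
    have : φ x = φ (x • (1 : R)) := by rw [smul_eq_mul, mul_one]
    rw [this, map_smul, smul_eq_mul]
  refine ⟨e 1, f 1, g 1, ?_, ?_⟩
  · rw [← hφ e p, ← hφ f q, h1]
  · rw [← hφ g p, mul_sub, mul_one, ← hφ e q, h2]

theorem LAdm.ldist {R : Type u} [Ring R] (h : LAdm R) : LDist R := by
  intro p q
  set N : Submodule R (R × R) := Submodule.span R {(q, 0), (0, p), (p, -q)} with hN
  have hN1 : ((q, 0) : R × R) ∈ N := Submodule.subset_span (by simp)
  have hN2 : ((0, p) : R × R) ∈ N := Submodule.subset_span (by simp)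
  have hN3 : ((p, -q) : R × R) ∈ N := Submodule.subset_span (by simp)
  set x : (R × R) ⧸ N := N.mkQ (1, 0) with hx
  set y : (R × R) ⧸ N := N.mkQ (0, 1) with hy
  have hpx : p • x = N.mkQ (p, 0) := by rw [hx, ← map_smul]; simp
  have hqy : q • y = N.mkQ (0, q) := by rw [hy, ← map_smul]; simp
  have hqx : q • x = 0 := by
    rw [hx, ← map_smul, Submodule.mkQ_apply, Submodule.Quotient.mk_eq_zero]
    simpa using hN1
  have hpy : p • y = 0 := by
    rw [hy, ← map_smul, Submodule.mkQ_apply, Submodule.Quotient.mk_eq_zero]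
    simpa using hN2
  have hs : p • x = q • y := by
    rw [hpx, hqy, ← sub_eq_zero, ← map_sub, Submodule.mkQ_apply, Submodule.Quotient.mk_eq_zero]
    simpa using hN3
  obtain ⟨e, f, g, h1, h2⟩ := (steph_iff R ((R × R) ⧸ N)).1 (h _) x y
  have h3 : e (p • x) = 0 := by rw [map_smul, h1, ← map_smul, hpy, map_zero]
  have h4 : q • y - e (q • y) = 0 := by
    rw [map_smul, ← smul_sub, h2, ← map_smul, hqx, map_zero]
  rw [← hs, h3, sub_zero, hpx, Submodule.mkQ_apply, Submodule.Quotient.mk_eq_zero, hN,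
    Submodule.mem_span_triple] at h4
  obtain ⟨r, s, t, h5⟩ := h4
  have h6 := congrArg Prod.fst h5
  have h7 := congrArg Prod.snd h5
  simp at h6 h7
  refine ⟨1 - t, r, s, ?_, ?_⟩
  · rw [sub_mul, one_mul, sub_eq_iff_eq_add]
    exact h6.symm
  · rw [sub_sub_cancel]
    have : s * p - t * q = 0 := by rw [← h7]; abel
    exact (sub_eq_zero.mp this).symm

end Pool.Agent.Dist14
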