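import Pool.Agent.Helper927.Dist.Defs
import Pool.Agent.Helper927.Dist.A11
import Pool.Agent.Helper927.Dist.A12
import Pool.Agent.Helper927.Dist.A3
set_option autoImplicit false
set_option maxHeartbeats 4000000
universe u v

namespace Pool.Agent.Dist14

/-! ### TARGET: replace the `sorry`s below by proofs (auxiliary lemmas are fine, put them in this file) -/

/-- In an admissible ring the powers of every maximal ideal become stationary. -/
theorem LAdm.pow_stable {R : Type u} [Ring R] (h : LAdm R) (m : Ideal R)
    (hm : m.IsMaximal) : ∃ k : ℕ, 0 < k ∧ m ^ k = m ^ (k + 1) := by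
  by_contra hcon
  push Not at hcon
  have key : ∀ k : ℕ, m ^ k ≠ m ^ (k + 1) := by
    intro k
    rcases Nat.eq_zero_or_pos k with rfl | hk
    · intro h0
      apply hm.ne_top
      have h1 : m ^ 0 = ⊤ := by rw [Submodule.pow_zero]; exact Ideal.one_eq_top
      have h2 : m ^ (0 + 1) = m := Submodule.pow_one m
      rw [← h2, ← h0, h1]
    · exact hcon k hk
  obtain ⟨I, a, hI⟩ := filtData_of_pow_ne h.ldist h.rdist m hm key
  exact FiltData.not_ladm hI h

end Pool.Agent.Dist14
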