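import Pool.Agent.Helper927.Dist.Defs
set_option autoImplicit false
set_option maxHeartbeats 4000000
universe u v

namespace Pool.Agent.Dist14

/-! ### AVAILABLE: statements you may use; leave these `sorry`s in place (they are proved in other jobs) -/



/-! ### TARGET: replace the `sorry`s below by proofs (auxiliary lemmas are fine, put them in this file) -/

/-- If every additive map between `S`-modules that is `R`-linear is `S`-linear, then
admissibility passes from `R` to `S`. -/
theorem LAdm.of_epi {R S : Type u} [Ring R] [Ring S] (f : R →+* S)
    (hf : ∀ (M : Type u) [AddCommGroup M] [Module S M] (φ : M →+ M),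
      (∀ (r : R) (z : M), φ (f r • z) = f r • φ z) → ∀ (s : S) (z : M), φ (s • z) = s • φ z)
    (h : LAdm R) : LAdm S := by
  intro M _ _
  letI : Module R M := Module.compHom M f
  let toS : Module.End R M → Module.End S M := fun ψ =>
    { toFun := ψ
      map_add' := ψ.map_add
      map_smul' := fun s z => hf M ψ.toAddMonoidHom (fun r z => ψ.map_smul r z) s z }
  let lift : Submodule (Module.End S M) M → Submodule (Module.End R M) M := fun U =>
    { carrier := U
      add_mem' := fun ha hb => U.add_mem ha hb
      zero_mem' := U.zero_mem
      smul_mem' := fun ψ z hz => U.smul_mem (toS ψ) hz }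
  intro U V W
  have key := h M (lift U) (lift V) (lift W)
  ext x
  have k := SetLike.ext_iff.1 key x
  simp only [Submodule.mem_inf, Submodule.mem_sup] at k ⊢
  exact k

theorem LAdm.of_surjective {R S : Type u} [Ring R] [Ring S] (f : R →+* S)
    (hf : Function.Surjective f) (h : LAdm R) : LAdm S := by
  refine LAdm.of_epi f (fun M _ _ φ hφ s z => ?_) h
  obtain ⟨r, rfl⟩ := hf s
  exact hφ r z

end Pool.Agent.Dist14
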