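import Pool.Agent.Helper927.Dist.Defs
set_option autoImplicit false
set_option maxHeartbeats 4000000
universe u v

namespace Pool.Agent.Dist14

/-! ### AVAILABLE: statements you may use; leave these `sorry`s in place (they are proved in other jobs) -/



/-! ### TARGET: replace the `sorry`s below by proofs (auxiliary lemmas are fine, put them in this file) -/

theorem LDist.of_surjective {R S : Type u} [Ring R] [Ring S] (f : R →+* S)
    (hf : Function.Surjective f) (h : LDist R) : LDist S := by
  intro p q
  obtain ⟨p, rfl⟩ := hf p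
  obtain ⟨q, rfl⟩ := hf q
  obtain ⟨c, a, b, h1, h2⟩ := h p q
  refine ⟨f c, f a, f b, ?_, ?_⟩
  · rw [← map_mul, h1, map_mul]
  · rw [← map_one f, ← map_sub, ← map_mul, h2, map_mul]

theorem RDist.of_surjective {R S : Type u} [Ring R] [Ring S] (f : R →+* S)
    (hf : Function.Surjective f) (h : RDist R) : RDist S := by
  intro p q
  obtain ⟨p, rfl⟩ := hf p
  obtain ⟨q, rfl⟩ := hf q
  obtain ⟨c, a, b, h1, h2⟩ := h p q
  refine ⟨f c, f a, f b, ?_, ?_⟩
  · rw [← map_mul, h1, map_mul]
  · rw [← map_one f, ← map_sub, ← map_mul, h2, map_mul]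

theorem LDist.op {R : Type u} [Ring R] (h : LDist R) : RDist Rᵐᵒᵖ := by
  intro p q
  obtain ⟨c, a, b, h1, h2⟩ := h p.unop q.unop
  refine ⟨MulOpposite.op c, MulOpposite.op a, MulOpposite.op b, ?_, ?_⟩
  · apply MulOpposite.unop_injective
    simpa using h1
  · apply MulOpposite.unop_injective
    simpa using h2

theorem RDist.op {R : Type u} [Ring R] (h : RDist R) : LDist Rᵐᵒᵖ := by
  intro p q
  obtain ⟨c, a, b, h1, h2⟩ := h p.unop q.unop
  refine ⟨MulOpposite.op c, MulOpposite.op a, MulOpposite.op b, ?_, ?_⟩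
  · apply MulOpposite.unop_injective
    simpa using h1
  · apply MulOpposite.unop_injective
    simpa using h2

end Pool.Agent.Dist14
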