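import Pool.Agent.Helper927.Dist.Defs
set_option autoImplicit false
set_option maxHeartbeats 4000000
universe u v

namespace Pool.Agent.Dist14

/-! ### AVAILABLE: statements you may use; leave these `sorry`s in place (they are proved in other jobs) -/



/-! ### TARGET: replace the `sorry`s below by proofs (auxiliary lemmas are fine, put them in this file) -/

theorem LDist.idem_aux {R : Type u} [Ring R] (h : LDist R) (e : R) (he : e * e = e)
    (r : R) : e * r * (1 - e) = 0 := by
  obtain ⟨c, a, b, h1, h2⟩ := h e (e * r * (1 - e))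
  have z : (1 - e) * e = 0 := by rw [sub_mul, one_mul, he, sub_self]
  have z' : e * (1 - e) = 0 := by rw [mul_sub, mul_one, he, sub_self]
  have z2 : (1 - e) * (1 - e) = 1 - e := by rw [mul_sub, mul_one, z, sub_zero]
  have hc : c * e = 0 := by
    calc c * e = (c * e) * e := by rw [mul_assoc, he]
      _ = a * (e * r * (1 - e)) * e := by rw [h1]
      _ = a * (e * r * ((1 - e) * e)) := by simp only [mul_assoc]
      _ = 0 := by rw [z, mul_zero, mul_zero]
  have ht : (1 - c) * (e * r * (1 - e)) = 0 := by
    calc (1 - c) * (e * r * (1 - e)) = (1 - c) * (e * r * (1 - e)) * (1 - e) := by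
          simp only [mul_assoc, z2]
      _ = b * e * (1 - e) := by rw [h2]
      _ = 0 := by rw [mul_assoc, z', mul_zero]
  have : e * r * (1 - e) = c * (e * r * (1 - e)) := by
    rw [sub_mul, one_mul, sub_eq_zero] at ht
    exact ht
  rw [this]
  calc c * (e * r * (1 - e)) = (c * e) * (r * (1 - e)) := by simp only [mul_assoc]
    _ = 0 := by rw [hc, zero_mul]

theorem LDist.idem_central {R : Type u} [Ring R] (h : LDist R) (e : R) (he : e * e = e)
    (r : R) : e * r = r * e := by
  have h1 := LDist.idem_aux h e he r
  have he' : (1 - e) * (1 - e) = 1 - e := by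
    rw [mul_sub, mul_one, sub_mul, one_mul, he, sub_self, sub_zero]
  have h2 := LDist.idem_aux h (1 - e) he' r
  rw [mul_sub, mul_one, sub_eq_zero] at h1
  rw [sub_sub_cancel, sub_mul, one_mul, sub_mul, sub_eq_zero] at h2
  rw [h1, h2]

end Pool.Agent.Dist14
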