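import Pool.Agent.Helper927.Dist.Defs
import Pool.Agent.Helper927.Dist.A4
import Pool.Agent.Helper927.Dist.A7
set_option autoImplicit false
set_option maxHeartbeats 4000000
universe u v

namespace Pool.Agent.Dist14

/-! ### TARGET: replace the `sorry`s below by proofs (auxiliary lemmas are fine, put them in this file) -/

theorem LDist.inf_eq_mul {R : Type u} [Ring R] (h : LDist R) (X Y : Ideal R)
    (hX : X.IsTwoSided) (hY : Y.IsTwoSided) (hXY : X ⊔ Y = ⊤) : X ⊓ Y = X * Y := by
  haveI := hX
  haveI := hY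
  haveI : (X * Y).IsTwoSided := inferInstance
  apply le_antisymm
  · intro z hz
    obtain ⟨hzX, hzY⟩ := Submodule.mem_inf.mp hz
    have h1 : (1 : R) ∈ X ⊔ Y := by rw [hXY]; trivial
    obtain ⟨a, ha, b, hb, hab⟩ := Submodule.mem_sup.mp h1
    have hS : LDist (R ⧸ (X * Y)) :=
      h.of_surjective (Ideal.Quotient.mk (X * Y)) Ideal.Quotient.mk_surjective
    have hab0 : (Ideal.Quotient.mk (X * Y)) (a * b) = 0 :=
      Ideal.Quotient.eq_zero_iff_mem.mpr (Ideal.mul_mem_mul ha hb)
    have haz0 : (Ideal.Quotient.mk (X * Y)) (a * z) = 0 :=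
      Ideal.Quotient.eq_zero_iff_mem.mpr (Ideal.mul_mem_mul ha hzY)
    have hzb0 : (Ideal.Quotient.mk (X * Y)) (z * b) = 0 :=
      Ideal.Quotient.eq_zero_iff_mem.mpr (Ideal.mul_mem_mul hzX hb)
    have hidem : (Ideal.Quotient.mk (X * Y)) a * (Ideal.Quotient.mk (X * Y)) a
        = (Ideal.Quotient.mk (X * Y)) a := by
      have : a = a * a + a * b := by rw [← mul_add, hab, mul_one]
      have h2 := congrArg (Ideal.Quotient.mk (X * Y)) this
      rw [map_add, hab0, add_zero, map_mul] at h2
      exact h2.symm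
    have hcen := hS.idem_central _ hidem ((Ideal.Quotient.mk (X * Y)) z)
    have hz1 : (Ideal.Quotient.mk (X * Y)) z = 0 := by
      have e1 : z = z * a + z * b := by rw [← mul_add, hab, mul_one]
      have h2 := congrArg (Ideal.Quotient.mk (X * Y)) e1
      rw [map_add, hzb0, add_zero, map_mul, ← hcen, ← map_mul, haz0] at h2
      exact h2
    exact Ideal.Quotient.eq_zero_iff_mem.mp hz1
  · apply le_inf
    · exact Ideal.mul_le_left
    · exact Ideal.mul_le_right

end Pool.Agent.Dist14
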