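import Pool.Agent.Helper927.Dist.Defs
set_option autoImplicit false
set_option maxHeartbeats 4000000
universe u v

namespace Pool.Agent.Dist14

/-! ### AVAILABLE: statements you may use; leave these `sorry`s in place (they are proved in other jobs) -/



/-! ### TARGET: replace the `sorry`s below by proofs (auxiliary lemmas are fine, put them in this file) -/

/-- In a `PiRing` every nonzero element is a unit times a power of `p`, on both sides. -/
theorem PiRing.exists_unit_mul {B : Type u} [Ring B] {p : B} (h : PiRing B p) (x : B)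
    (hx : x ≠ 0) : ∃ (i : ℕ) (w : Bˣ), p ^ i ≠ 0 ∧ x = w * p ^ i := by
  have key : ∀ n : ℕ, (∃ (i : ℕ) (w : Bˣ), x = w * p ^ i) ∨ ∃ y, x = y * p ^ n := by
    intro n
    induction n with
    | zero => exact Or.inr ⟨x, by simp⟩
    | succ n ih =>
      rcases ih with ih | ⟨y, hy⟩
      · exact Or.inl ih
      · rcases h.left y with ⟨w, hw⟩ | ⟨z, hz⟩
        · exact Or.inl ⟨n, w, by rw [hw, ← hy]⟩
        · exact Or.inr ⟨z, by rw [hy, hz, pow_succ', mul_assoc]⟩
  obtain ⟨n, hn⟩ := h.nilp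
  rcases key n with ⟨i, w, hw⟩ | ⟨y, hy⟩
  · refine ⟨i, w, ?_, hw⟩
    intro h0
    apply hx
    rw [hw, h0, mul_zero]
  · exact absurd (by rw [hy, hn, mul_zero]) hx

theorem PiRing.exists_mul_unit {B : Type u} [Ring B] {p : B} (h : PiRing B p) (x : B)
    (hx : x ≠ 0) : ∃ (i : ℕ) (w : Bˣ), p ^ i ≠ 0 ∧ x = p ^ i * w := by
  have key : ∀ n : ℕ, (∃ (i : ℕ) (w : Bˣ), x = p ^ i * w) ∨ ∃ y, x = p ^ n * y := by
    intro n
    induction n with
    | zero => exact Or.inr ⟨x, by simp⟩
    | succ n ih =>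
      rcases ih with ih | ⟨y, hy⟩
      · exact Or.inl ih
      · rcases h.right y with ⟨w, hw⟩ | ⟨z, hz⟩
        · exact Or.inl ⟨n, w, by rw [hw, ← hy]⟩
        · exact Or.inr ⟨z, by rw [hy, hz, pow_succ, mul_assoc]⟩
  obtain ⟨n, hn⟩ := h.nilp
  rcases key n with ⟨i, w, hw⟩ | ⟨y, hy⟩
  · refine ⟨i, w, ?_, hw⟩
    intro h0
    apply hx
    rw [hw, h0, zero_mul]
  · exact absurd (by rw [hy, hn, zero_mul]) hx

theorem PiRing.op {B : Type u} [Ring B] {p : B} (h : PiRing B p) :
    PiRing Bᵐᵒᵖ (MulOpposite.op p) := by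
  refine ⟨?_, ?_, ?_, ?_⟩
  · have := h.nontrivial
    infer_instance
  · obtain ⟨n, hn⟩ := h.nilp
    exact ⟨n, by rw [← MulOpposite.op_pow, hn, MulOpposite.op_zero]⟩
  · intro x
    rcases h.right x.unop with hu | ⟨y, hy⟩
    · left
      have := hu.op
      simpa using this
    · right
      refine ⟨MulOpposite.op y, ?_⟩
      rw [← MulOpposite.op_mul, ← hy, MulOpposite.op_unop]
  · intro x
    rcases h.left x.unop with hu | ⟨y, hy⟩
    · left
      have := hu.op
      simpa using this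
    · right
      refine ⟨MulOpposite.op y, ?_⟩
      rw [← MulOpposite.op_mul, ← hy, MulOpposite.op_unop]

end Pool.Agent.Dist14
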