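import Pool.Agent.Helper927.Dist.Defs
import Pool.Agent.Helper927.Dist.B1
set_option autoImplicit false
set_option maxHeartbeats 4000000
universe u v

namespace Pool.Agent.Dist14

/-! ### TARGET: replace the `sorry`s below by proofs (auxiliary lemmas are fine, put them in this file) -/

theorem PiRing.ideal_eq {B : Type u} [Ring B] {p : B} (h : PiRing B p) {N : ℕ} (hN : p ^ N = 0)
    (I : Ideal B) : ∃ i, i < N + 1 ∧ I = Ideal.span {p ^ i} := by
  classical
  by_cases hI : I = ⊥
  · exact ⟨N, by omega, by rw [hI, hN]; simp⟩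
  · obtain ⟨x, hx, hx0⟩ := (Submodule.ne_bot_iff I).1 hI
    have key : ∀ y ∈ I, y ≠ 0 → ∃ (i : ℕ) (w : Bˣ), p ^ i ≠ 0 ∧ y = w * p ^ i ∧ p ^ i ∈ I := by
      intro y hy hy0
      obtain ⟨i, w, hi, hw⟩ := h.exists_unit_mul y hy0
      refine ⟨i, w, hi, hw, ?_⟩
      have := I.mul_mem_left (↑w⁻¹ : B) hy
      rwa [hw, ← mul_assoc, Units.inv_mul, one_mul] at this
    have hex : ∃ i, p ^ i ∈ I := by
      obtain ⟨i, w, hi, hw, hm⟩ := key x hx hx0
      exact ⟨i, hm⟩
    refine ⟨Nat.find hex, ?_, ?_⟩
    · have : Nat.find hex ≤ N := Nat.find_min' hex (by rw [hN]; exact I.zero_mem)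
      omega
    · apply le_antisymm
      · intro y hy
        by_cases hy0 : y = 0
        · rw [hy0]; exact Submodule.zero_mem _
        · obtain ⟨j, w, hj, hw, hm⟩ := key y hy hy0
          have hle : Nat.find hex ≤ j := Nat.find_min' hex hm
          rw [hw, show j = (j - Nat.find hex) + Nat.find hex by omega, pow_add, ← mul_assoc]
          exact Ideal.mul_mem_left _ _ (Ideal.subset_span rfl)
      · rw [Ideal.span_le, Set.singleton_subset_iff]
        exact Nat.find_spec hex

theorem PiRing.left_part {B : Type u} [Ring B] {p : B} (h : PiRing B p) :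
    IsArtinianRing B ∧ ∀ I J : Ideal B, I ≤ J ∨ J ≤ I := by
  obtain ⟨N, hN⟩ := h.nilp
  have hmono : ∀ i j, i ≤ j → Ideal.span {p ^ j} ≤ Ideal.span {p ^ i} := by
    intro i j hij
    rw [Ideal.span_le, Set.singleton_subset_iff, show j = (j - i) + i by omega, pow_add]
    exact Ideal.mul_mem_left _ _ (Ideal.subset_span rfl)
  constructor
  · have : Finite (Ideal B) := by
      refine Finite.of_surjective (fun i : Fin (N + 1) => Ideal.span {p ^ (i : ℕ)}) ?_
      intro I
      obtain ⟨i, hi, rfl⟩ := h.ideal_eq hN I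
      exact ⟨⟨i, hi⟩, rfl⟩
    have h2 : Finite (Submodule B B) := this
    exact (inferInstance : WellFoundedLT (Submodule B B))
  · intro I J
    obtain ⟨i, hi, rfl⟩ := h.ideal_eq hN I
    obtain ⟨j, hj, rfl⟩ := h.ideal_eq hN J
    rcases le_total i j with hij | hij
    · exact Or.inr (hmono i j hij)
    · exact Or.inl (hmono j i hij)

theorem PiRing.isArtinianChainRing {B : Type u} [Ring B] {p : B} (h : PiRing B p) :
    IsArtinianChainRing B where
  nontrivial := h.nontrivial
  left_artinian := h.left_part.1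
  right_artinian := h.op.left_part.1
  left_chain := h.left_part.2
  right_chain := h.op.left_part.2

end Pool.Agent.Dist14
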