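import Pool.Agent.Helper927.Dist.Defs
set_option autoImplicit false
set_option maxHeartbeats 4000000
universe u v

namespace Pool.Agent.Dist14

/-! ### AVAILABLE: statements you may use; leave these `sorry`s in place (they are proved in other jobs) -/



/-! ### TARGET: replace the `sorry`s below by proofs (auxiliary lemmas are fine, put them in this file) -/

theorem chain_of_equiv {B C : Type u} [Ring B] [Ring C] (e : B ≃+* C)
    (h : ∀ I J : Ideal B, I ≤ J ∨ J ≤ I) : ∀ I J : Ideal C, I ≤ J ∨ J ≤ I := by
  intro I J
  have key : ∀ I J : Ideal C, I.comap (e : B →+* C) ≤ J.comap (e : B →+* C) → I ≤ J := by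
    intro I J hIJ x hx
    have h1 : e.symm x ∈ I.comap (e : B →+* C) := by
      rw [Ideal.mem_comap]
      simpa using hx
    have h2 := hIJ h1
    rw [Ideal.mem_comap] at h2
    simpa using h2
  rcases h (I.comap (e : B →+* C)) (J.comap (e : B →+* C)) with h1 | h1
  · exact Or.inl (key I J h1)
  · exact Or.inr (key J I h1)

theorem artin_of_equiv {B C : Type u} [Ring B] [Ring C] (e : B ≃+* C)
    (h : IsArtinianRing B) : IsArtinianRing C :=
  Function.Surjective.isArtinianRing (f := (e : B →+* C)) e.surjective

theorem ofEquiv_aux {B C : Type u} [Ring B] [Ring C] (e : B ≃+* C)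
    (h : IsArtinianChainRing B) : IsArtinianChainRing C where
  nontrivial := by
    have := h.nontrivial
    exact e.injective.nontrivial
  left_artinian := artin_of_equiv e h.left_artinian
  right_artinian := artin_of_equiv (RingEquiv.op e) h.right_artinian
  left_chain := chain_of_equiv e h.left_chain
  right_chain := chain_of_equiv (RingEquiv.op e) h.right_chain

theorem IsArtinianChainRing.op {B : Type u} [Ring B] (h : IsArtinianChainRing B) :
    IsArtinianChainRing Bᵐᵒᵖ where
  nontrivial := by
    have := h.nontrivial
    infer_instance
  left_artinian := h.right_artinian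
  right_artinian := artin_of_equiv (RingEquiv.opOp B) h.left_artinian
  left_chain := h.right_chain
  right_chain := chain_of_equiv (RingEquiv.opOp B) h.left_chain

theorem IsArtinianChainRing.of_ringEquiv {B C : Type u} [Ring B] [Ring C] (e : B ≃+* C)
    (h : IsArtinianChainRing B) : IsArtinianChainRing C := ofEquiv_aux e h

end Pool.Agent.Dist14
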