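import Pool.Agent.Helper927.Dist.Defs
import Pool.Agent.Helper927.Dist.B11
set_option autoImplicit false
set_option maxHeartbeats 4000000
universe u v

namespace Pool.Agent.Dist14

/-! ### TARGET: replace the `sorry`s below by proofs (auxiliary lemmas are fine, put them in this file) -/

theorem good_of_ringEquiv_aux {A C : Type u} [Ring A] [Ring C] (e : A ≃+* C)
    (h : IsFiniteProductOfArtinianChainRings A) :
    IsFiniteProductOfArtinianChainRings C := by
  obtain ⟨n, B, hB, hch, ⟨f⟩⟩ := h
  exact ⟨n, B, hB, hch, ⟨e.symm.trans f⟩⟩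

theorem good_op {A : Type u} [Ring A] (h : IsFiniteProductOfArtinianChainRings A) :
    IsFiniteProductOfArtinianChainRings Aᵐᵒᵖ := by
  obtain ⟨n, B, hB, hch, ⟨f⟩⟩ := h
  refine ⟨n, fun i => (B i)ᵐᵒᵖ, fun i => inferInstance, fun i => (hch i).op, ⟨?_⟩⟩
  refine (RingEquiv.op f).trans ?_
  exact
    { toFun := fun x i => MulOpposite.op (MulOpposite.unop x i)
      invFun := fun y => MulOpposite.op (fun i => MulOpposite.unop (y i))
      left_inv := fun x => rfl
      right_inv := fun y => rfl
      map_mul' := fun x y => rfl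
      map_add' := fun x y => rfl }

theorem good_unop {A : Type u} [Ring A] (h : IsFiniteProductOfArtinianChainRings Aᵐᵒᵖ) :
    IsFiniteProductOfArtinianChainRings A :=
  good_of_ringEquiv_aux (RingEquiv.opOp A).symm (good_op h)

theorem good_of_ringEquiv {A C : Type u} [Ring A] [Ring C] (e : A ≃+* C)
    (h : IsFiniteProductOfArtinianChainRings A) :
    IsFiniteProductOfArtinianChainRings C := good_of_ringEquiv_aux e h

end Pool.Agent.Dist14
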