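import Pool.Agent.Helper927.Dist.Defs
import Pool.Agent.Helper927.Dist.B1
set_option autoImplicit false
set_option maxHeartbeats 4000000
universe u v

namespace Pool.Agent.Dist14

/-! ### TARGET: replace the `sorry`s below by proofs (auxiliary lemmas are fine, put them in this file) -/

/-- annihilator computation: `p ^ n = 0`, `p ^ (n-1) ≠ 0`. -/
theorem PiRing.mem_of_pow_mul_eq_zero {B : Type u} [Ring B] {p : B} (h : PiRing B p) {n : ℕ}
    (hn : ∀ i, p ^ i = 0 ↔ n ≤ i) (i : ℕ) (hi : i ≤ n) (z : B) (hz : p ^ (n - i) * z = 0) :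
    ∃ w, z = p ^ i * w := by
  by_cases hz0 : z = 0
  · exact ⟨0, by rw [hz0, mul_zero]⟩
  obtain ⟨j, w, hj, hzw⟩ := h.exists_mul_unit z hz0
  have h1 : p ^ (n - i + j) * (w : B) = 0 := by
    rw [pow_add, mul_assoc, ← hzw, hz]
  have h2 : p ^ (n - i + j) = 0 := by
    have := congrArg (fun t => t * ((w⁻¹ : Bˣ) : B)) h1
    simpa [mul_assoc] using this
  have h3 : n ≤ n - i + j := (hn _).1 h2
  have h4 : i ≤ j := by omega
  refine ⟨p ^ (j - i) * w, ?_⟩
  rw [← mul_assoc, ← pow_add, Nat.add_sub_cancel' h4]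
  exact hzw

theorem PiRing.mem_of_mul_pow_eq_zero {B : Type u} [Ring B] {p : B} (h : PiRing B p) {n : ℕ}
    (hn : ∀ i, p ^ i = 0 ↔ n ≤ i) (i : ℕ) (hi : i ≤ n) (z : B) (hz : z * p ^ (n - i) = 0) :
    ∃ w, z = w * p ^ i := by
  by_cases hz0 : z = 0
  · exact ⟨0, by rw [hz0, zero_mul]⟩
  obtain ⟨j, w, hj, hzw⟩ := h.exists_unit_mul z hz0
  have h1 : (w : B) * p ^ (j + (n - i)) = 0 := by
    rw [pow_add, ← mul_assoc, ← hzw, hz]
  have h2 : p ^ (j + (n - i)) = 0 := by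
    have := congrArg (fun t => ((w⁻¹ : Bˣ) : B) * t) h1
    simpa [← mul_assoc] using this
  have h3 : n ≤ j + (n - i) := (hn _).1 h2
  have h4 : i ≤ j := by omega
  refine ⟨w * p ^ (j - i), ?_⟩
  rw [mul_assoc, ← pow_add, Nat.sub_add_cancel h4]
  exact hzw

end Pool.Agent.Dist14
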