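import Pool.Agent.Helper927.Dist.Defs
import Pool.Agent.Helper927.Dist.B1
import Pool.Agent.Helper927.Dist.B2
set_option autoImplicit false
set_option maxHeartbeats 4000000
universe u v

namespace Pool.Agent.Dist14

/-! ### TARGET: replace the `sorry`s below by proofs (auxiliary lemmas are fine, put them in this file) -/

/-- Free modules over a `PiRing` are injective (Baer criterion). -/
theorem PiRing.baer {B : Type u} [Ring B] {p : B} (h : PiRing B p) (ι : Type v) :
    Module.Baer B (ι →₀ B) := by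
  classical
  haveI := h.nontrivial
  obtain ⟨n, hn⟩ : ∃ n, ∀ i, p ^ i = 0 ↔ n ≤ i := by
    refine ⟨Nat.find h.nilp, fun i => ⟨fun hi => Nat.find_min' h.nilp hi,
      fun hi => pow_eq_zero_of_le hi (Nat.find_spec h.nilp)⟩⟩
  intro I g
  by_cases hI : I = ⊥
  · subst hI
    refine ⟨0, fun x mem => ?_⟩
    have hx : x = 0 := by simpa using mem
    subst hx
    have : (⟨0, mem⟩ : (⊥ : Ideal B)) = 0 := rfl
    rw [this, LinearMap.zero_apply]
    exact (map_zero g).symm
  · have hex : ∃ i, p ^ i ≠ 0 ∧ p ^ i ∈ I := by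
      obtain ⟨x, hxI, hx0⟩ := Submodule.exists_mem_ne_zero_of_ne_bot hI
      obtain ⟨i, w, hi, hxw⟩ := h.exists_unit_mul x hx0
      refine ⟨i, hi, ?_⟩
      have : p ^ i = ((w⁻¹ : Bˣ) : B) * x := by rw [hxw, Units.inv_mul_cancel_left]
      rw [this]; exact I.mul_mem_left _ hxI
    obtain ⟨i, ⟨hi0, hiI⟩, hmin⟩ : ∃ i, (p ^ i ≠ 0 ∧ p ^ i ∈ I) ∧
        ∀ j, p ^ j ≠ 0 ∧ p ^ j ∈ I → i ≤ j :=
      ⟨Nat.find hex, Nat.find_spec hex, fun j hj => Nat.find_min' hex hj⟩
    have hin : i ≤ n := by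
      by_contra hc
      exact hi0 ((hn i).2 (by omega))
    have hgen : ∀ y ∈ I, ∃ r, y = r * p ^ i := by
      intro y hy
      by_cases hy0 : y = 0
      · exact ⟨0, by simp [hy0]⟩
      · obtain ⟨j, w, hj, hyw⟩ := h.exists_unit_mul y hy0
        have hjI : p ^ j ∈ I := by
          have : p ^ j = ((w⁻¹ : Bˣ) : B) * y := by rw [hyw, Units.inv_mul_cancel_left]
          rw [this]; exact I.mul_mem_left _ hy
        have hij : i ≤ j := hmin j ⟨hj, hjI⟩
        refine ⟨w * p ^ (j - i), ?_⟩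
        rw [hyw, mul_assoc, ← pow_add, Nat.sub_add_cancel hij]
    obtain ⟨z, hzdef⟩ : ∃ z, z = g ⟨p ^ i, hiI⟩ := ⟨_, rfl⟩
    have hz : ∀ a, p ^ (n - i) * z a = 0 := by
      intro a
      have h1 : p ^ (n - i) • z = 0 := by
        rw [hzdef, ← map_smul]
        have : p ^ (n - i) • (⟨p ^ i, hiI⟩ : I) = 0 := by
          apply Subtype.ext
          show p ^ (n - i) * p ^ i = 0
          rw [← pow_add]; exact (hn _).2 (by omega)
        rw [this, map_zero]
      have h2 := DFunLike.congr_fun h1 a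
      simpa using h2
    have hch : ∀ b : B, ∃ w, (p ^ (n - i) * b = 0 → b = p ^ i * w) ∧ (b = 0 → w = 0) := by
      intro b
      by_cases hb : b = 0
      · exact ⟨0, fun _ => by simp [hb], fun _ => rfl⟩
      · by_cases hb2 : p ^ (n - i) * b = 0
        · obtain ⟨w, hw⟩ := h.mem_of_pow_mul_eq_zero hn i hin b hb2
          exact ⟨w, fun _ => hw, fun h => (hb h).elim⟩
        · exact ⟨0, fun h => (hb2 h).elim, fun _ => rfl⟩
    choose F hF1 hF2 using hch
    have hzw : z = p ^ i • (z.mapRange F (hF2 0 rfl)) := by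
      ext a
      rw [Finsupp.smul_apply, Finsupp.mapRange_apply, smul_eq_mul]
      exact hF1 _ (hz a)
    refine ⟨LinearMap.toSpanSingleton B _ (z.mapRange F (hF2 0 rfl)), fun y hy => ?_⟩
    obtain ⟨r, rfl⟩ := hgen y hy
    rw [LinearMap.toSpanSingleton_apply]
    have e : (⟨r * p ^ i, hy⟩ : I) = r • ⟨p ^ i, hiI⟩ := rfl
    rw [e, map_smul, mul_smul, ← hzw, hzdef]

end Pool.Agent.Dist14
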