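import Pool.Agent.Helper927.Dist.Defs
import Pool.Agent.Helper927.Dist.B1
import Pool.Agent.Helper927.Dist.B2
import Pool.Agent.Helper927.Dist.B3
set_option autoImplicit false
set_option maxHeartbeats 4000000
universe u v

namespace Pool.Agent.Dist14

/-! ### TARGET: replace the `sorry`s below by proofs (auxiliary lemmas are fine, put them in this file) -/


/-- elementwise form of being a direct sum of cyclic modules -/
def GoodDec (B : Type u) [Ring B] (M : Type u) [AddCommGroup M] [Module B M] : Prop :=
  ∃ (ι : Type u) (z : ι → M), (∀ x : M, x ∈ Submodule.span B (Set.range z)) ∧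
    (∀ c : ι →₀ B, Finsupp.linearCombination B z c = 0 → ∀ i, c i • z i = 0)

theorem GoodDec.decomp {B : Type u} [Ring B] {M : Type u} [AddCommGroup M] [Module B M]
    (h : GoodDec B M) :
    ∃ (ι : Type u) (N : ι → Submodule B M), iSupIndep N ∧ iSup N = ⊤ ∧
      ∀ i, ∃ z : M, N i = Submodule.span B {z} := by
  classical
  obtain ⟨ι, z, hs, hi⟩ := h
  refine ⟨ι, fun i => Submodule.span B {z i}, ?_, ?_, fun i => ⟨z i, rfl⟩⟩
  · intro i
    rw [Submodule.disjoint_def]
    intro x hx hx'
    obtain ⟨b, rfl⟩ := Submodule.mem_span_singleton.1 hx
    have hx2 : b • z i ∈ Submodule.span B (z '' {j | j ≠ i}) := by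
      refine (iSup₂_le (fun j hj => ?_) : (⨆ (j) (_ : j ≠ i), Submodule.span B {z j}) ≤ _) hx'
      exact Submodule.span_mono (Set.singleton_subset_iff.2 ⟨j, hj, rfl⟩)
    rw [Finsupp.mem_span_image_iff_linearCombination] at hx2
    obtain ⟨c, hc, hc2⟩ := hx2
    have h3 : Finsupp.linearCombination B z (Finsupp.single i b - c) = 0 := by
      rw [map_sub, hc2, Finsupp.linearCombination_single, sub_self]
    have h4 := hi _ h3 i
    have h5 : c i = 0 := by
      by_contra hne
      have : i ∈ {j | j ≠ i} := hc (Finset.mem_coe.2 (Finsupp.mem_support_iff.2 hne))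
      exact this rfl
    simpa [h5] using h4
  · rw [← Submodule.span_range_eq_iSup, eq_top_iff]
    exact fun x _ => hs x

/-- transfer along a quotient map acting compatibly -/
theorem GoodDec.transfer {B C : Type u} [Ring B] [Ring C] (π : B →+* C)
    (hπ : Function.Surjective π) {M : Type u} [AddCommGroup M] [Module B M] [Module C M]
    (hc : ∀ (b : B) (x : M), π b • x = b • x) (h : GoodDec C M) : GoodDec B M := by
  obtain ⟨ι, z, hs, hi⟩ := h
  refine ⟨ι, z, fun x => ?_, fun c hc0 i => ?_⟩
  · refine Submodule.span_induction (p := fun x _ => x ∈ Submodule.span B (Set.range z))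
      ?_ ?_ ?_ ?_ (hs x)
    · exact fun y hy => Submodule.subset_span hy
    · exact Submodule.zero_mem _
    · exact fun y w _ _ hy hw => Submodule.add_mem _ hy hw
    · intro a y _ hy
      obtain ⟨b, rfl⟩ := hπ a
      rw [hc]
      exact Submodule.smul_mem _ _ hy
  · have h1 : Finsupp.linearCombination C z (c.mapRange π (map_zero π)) = 0 := by
      rw [← hc0, Finsupp.linearCombination_apply, Finsupp.linearCombination_apply,
        Finsupp.sum_mapRange_index (by simp)]
      exact Finsupp.sum_congr fun j _ => hc _ _
    have := hi _ h1 i
    rwa [Finsupp.mapRange_apply, hc] at this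

section PiR
variable {B : Type u} [Ring B] {p : B}

theorem PiRing.left_not (h : PiRing B p) {y : B} (hy : y * p = 1) : False := by
  have := h.nontrivial
  have key : ∀ m, p ^ m = 0 → (1 : B) = 0 := by
    intro m
    induction m with
    | zero => intro h0; simpa using h0
    | succ m ih =>
      intro h0
      apply ih
      calc p ^ m = (y * p) * p ^ m := by rw [hy, one_mul]
        _ = y * p ^ (m + 1) := by rw [pow_succ', mul_assoc]
        _ = 0 := by rw [h0, mul_zero]
  obtain ⟨m, hm⟩ := h.nilp
  exact one_ne_zero (key m hm)

theorem PiRing.mul_not_unit (h : PiRing B p) (c : B) : ¬ IsUnit (p * c) := by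
  intro hu
  have := h.nontrivial
  have key : ∀ m, p ^ m = 0 → (1 : B) = 0 := by
    intro m
    induction m with
    | zero => intro h0; simpa using h0
    | succ m ih =>
      intro h0
      apply ih
      have : p ^ m * (p * c) = 0 := by rw [← mul_assoc, ← pow_succ, h0, zero_mul]
      exact (hu.mul_left_eq_zero).1 this
  obtain ⟨m, hm⟩ := h.nilp
  exact one_ne_zero (key m hm)

theorem PiRing.comm_right (h : PiRing B p) (c : B) : ∃ c', p * c = c' * p := by
  rcases h.left (p * c) with h1 | h1
  · exact absurd h1 (h.mul_not_unit c)
  · exact h1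

theorem PiRing.comm_pow (h : PiRing B p) (k : ℕ) (c : B) : ∃ c', p ^ k * c = c' * p ^ k := by
  induction k generalizing c with
  | zero => exact ⟨c, by simp⟩
  | succ k ih =>
    obtain ⟨d, hd⟩ := h.comm_right c
    obtain ⟨e, he⟩ := ih d
    refine ⟨e, ?_⟩
    rw [pow_succ, mul_assoc, hd, ← mul_assoc, he, mul_assoc]

end PiR

theorem PiRing.goodDec : ∀ (k : ℕ) (B : Type u) [Ring B] (p : B), PiRing B p → p ^ k = 0 →
    ∀ (M : Type u) [AddCommGroup M] [Module B M], GoodDec B M := by
  classical
  intro k
  induction k with
  | zero =>
    intro B _ p h hk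
    have := h.nontrivial
    exact absurd hk (by simp)
  | succ k ih =>
    intro B _ p h hk M _ _
    have hnt := h.nontrivial
    by_cases hpk : p ^ k = 0
    · exact ih B p h hpk M
    obtain ⟨S, hS, hmax⟩ := exists_maximal_linearIndepOn B (id : M → M)
    have hli : LinearIndependent B (fun x : S => (x : M)) := hS
    set lc : (S →₀ B) →ₗ[B] M := Finsupp.linearCombination B (fun x : S => (x : M)) with hlc
    have hinj : Function.Injective lc := hli
    obtain ⟨π, hπ⟩ := (h.baer S).extension_property lc hinj LinearMap.id
    have hπ' : ∀ c, π (lc c) = c := fun c => by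
      have := congrArg (fun f => f c) hπ
      simpa using this
    -- the complement is killed by p ^ k
    have hspan : ∀ x, x ∈ Submodule.span B S → ∃ c, lc c = x := by
      intro x hx
      have : x ∈ Submodule.span B (Set.range (fun x : S => (x : M))) := by
        simpa using hx
      rw [Finsupp.mem_span_range_iff_exists_finsupp] at this
      obtain ⟨c, hc⟩ := this
      exact ⟨c, by rw [hlc, Finsupp.linearCombination_apply, hc]⟩
    have hK : ∀ z : M, π z = 0 → p ^ k • z = 0 := by
      intro z hz
      by_contra hne
      have hzS : z ∉ S := by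
        intro hzS
        obtain ⟨c, hc⟩ := hspan z (Submodule.subset_span hzS)
        have : c = 0 := by rw [← hπ' c, hc, hz]
        apply hne
        rw [← hc, this, map_zero, smul_zero]
      obtain ⟨a, ha, haz⟩ := hmax z hzS
      obtain ⟨i, w, hi, rfl⟩ := h.exists_unit_mul a ha
      have hzero : ((w : B) * p ^ i) • z = 0 := by
        obtain ⟨c, hc⟩ := hspan _ (by simpa using haz)
        have : c = 0 := by
          rw [← hπ' c, hc]
          simp [hz]
        rw [← hc, this, map_zero]
      have h2 : p ^ i • z = 0 := by
        have h3 : ((w⁻¹ : Bˣ) : B) • (((w : B) * p ^ i) • z) = 0 := by rw [hzero, smul_zero]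
        rwa [smul_smul, ← mul_assoc, Units.inv_mul, one_mul] at h3
      have hik : i ≤ k := by
        by_contra hlt
        push Not at hlt
        apply hi
        obtain ⟨d, rfl⟩ := Nat.exists_eq_add_of_lt hlt
        rw [show k + d + 1 = d + (k + 1) by ring, pow_add, hk, mul_zero]
      apply hne
      obtain ⟨d, rfl⟩ := Nat.exists_eq_add_of_le hik
      rw [add_comm, pow_add, mul_smul, h2, smul_zero]
    -- gluing
    have glue : GoodDec B (LinearMap.ker π) → GoodDec B M := by
      rintro ⟨ι, z, hs, hi⟩
      refine ⟨S ⊕ ι, Sum.elim (fun x : S => (x : M)) (fun i => (z i : M)), fun x => ?_,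
        fun c hc => ?_⟩
      · have h1 : lc (π x) ∈ Submodule.span B
            (Set.range (Sum.elim (fun x : S => (x : M)) (fun i => (z i : M)))) := by
          have : lc (π x) ∈ Submodule.span B (Set.range (fun x : S => (x : M))) := by
            rw [hlc, Finsupp.linearCombination_apply]
            exact Submodule.sum_mem _ fun s _ =>
              Submodule.smul_mem _ _ (Submodule.subset_span ⟨s, rfl⟩)
          refine Submodule.span_mono ?_ this
          rintro _ ⟨s, rfl⟩
          exact ⟨Sum.inl s, rfl⟩
        have h2 : x - lc (π x) ∈ LinearMap.ker π := by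
          rw [LinearMap.mem_ker, map_sub, hπ', sub_self]
        have h3 : x - lc (π x) ∈ Submodule.span B
            (Set.range (Sum.elim (fun x : S => (x : M)) (fun i => (z i : M)))) := by
          have h4 := hs ⟨x - lc (π x), h2⟩
          have h5 := Submodule.mem_map_of_mem (f := (LinearMap.ker π).subtype) h4
          rw [Submodule.map_span] at h5
          refine Submodule.span_mono ?_ h5
          rintro _ ⟨_, ⟨i, rfl⟩, rfl⟩
          exact ⟨Sum.inr i, rfl⟩
        have := Submodule.add_mem _ h1 h3
        simpa using this
      · set c1 : S →₀ B := c.comapDomain Sum.inl Sum.inl_injective.injOn with hc1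
        set c2 : ι →₀ B := c.comapDomain Sum.inr Sum.inr_injective.injOn with hc2
        have hsum : lc c1 + (Finsupp.linearCombination B z c2 : LinearMap.ker π) = (0 : M) := by
          have hcc : c = c1.embDomain Function.Embedding.inl + c2.embDomain Function.Embedding.inr := by
            ext i
            rcases i with s | i
            · rw [Finsupp.add_apply]
              have e1 : (c1.embDomain Function.Embedding.inl) (Sum.inl s : S ⊕ ι) = c1 s :=
                Finsupp.embDomain_apply_self _ _ _
              have e2 : (c2.embDomain Function.Embedding.inr) (Sum.inl s : S ⊕ ι) = 0 :=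
                Finsupp.embDomain_of_notMem_range _ _ _ (by simp)
              rw [e1, e2, add_zero, hc1, Finsupp.comapDomain_apply]
            · rw [Finsupp.add_apply]
              have e1 : (c1.embDomain Function.Embedding.inl) (Sum.inr i : S ⊕ ι) = 0 :=
                Finsupp.embDomain_of_notMem_range _ _ _ (by simp)
              have e2 : (c2.embDomain Function.Embedding.inr) (Sum.inr i : S ⊕ ι) = c2 i :=
                Finsupp.embDomain_apply_self _ _ _
              rw [e1, e2, zero_add, hc2, Finsupp.comapDomain_apply]
          rw [hcc, map_add, Finsupp.linearCombination_embDomain,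
            Finsupp.linearCombination_embDomain] at hc
          have e3 : ((Finsupp.linearCombination B z c2 : LinearMap.ker π) : M) =
              Finsupp.linearCombination B
                ((Sum.elim (fun x : S => (x : M)) (fun i => (z i : M))) ∘
                  Function.Embedding.inr) c2 := by
            rw [Finsupp.linearCombination_apply, Finsupp.linearCombination_apply,
              Finsupp.sum, Finsupp.sum, Submodule.coe_sum]
            rfl
          rw [e3]
          exact hc
        have h0 : c1 = 0 := by
          have := congrArg π hsum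
          rw [map_add, hπ', LinearMap.mem_ker.1 (Subtype.property _), add_zero, map_zero] at this
          exact this
        have h1 : Finsupp.linearCombination B z c2 = 0 := by
          rw [h0, map_zero, zero_add] at hsum
          exact Subtype.ext hsum
        rintro (s | i)
        · have : c (Sum.inl s) = 0 := by
            have := DFunLike.congr_fun h0 s
            rwa [hc1, Finsupp.comapDomain_apply] at this
          rw [this, zero_smul]
        · have h6 := hi c2 h1 i
          rw [hc2, Finsupp.comapDomain_apply] at h6
          have h7 := congrArg Subtype.val h6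
          simpa using h7
    apply glue
    rcases Nat.eq_zero_or_pos k with hk0 | hkpos
    · subst hk0
      refine ⟨PEmpty, fun i => i.elim, fun x => ?_, fun c _ i => i.elim⟩
      have : x = 0 := by
        apply Subtype.ext
        have := hK x.1 (LinearMap.mem_ker.1 x.2)
        simpa using this
      rw [this]
      exact Submodule.zero_mem _
    · set I : Ideal B := Ideal.span {p ^ k} with hI
      have hmem : ∀ x, x ∈ I ↔ ∃ b, b * p ^ k = x := by
        intro x
        rw [hI, Ideal.mem_span_singleton']
      haveI htwo : I.IsTwoSided := by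
        refine ⟨fun {a} b ha => ?_⟩
        obtain ⟨d, rfl⟩ := (hmem a).1 ha
        obtain ⟨e, he⟩ := h.comm_pow k b
        exact (hmem _).2 ⟨d * e, by rw [mul_assoc, ← he, mul_assoc]⟩
      have hP : PiRing (B ⧸ I) (Ideal.Quotient.mk I p) := by
        refine ⟨?_, ?_, ?_, ?_⟩
        · refine Ideal.Quotient.nontrivial_iff.2 ?_
          intro htop
          obtain ⟨b, hb⟩ := (hmem 1).1 (htop ▸ Submodule.mem_top)
          obtain ⟨k', rfl⟩ := Nat.exists_eq_succ_of_ne_zero hkpos.ne'
          apply h.left_not (y := b * p ^ k')
          rw [mul_assoc, ← pow_succ]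
          exact hb
        · exact ⟨k, by rw [← map_pow, Ideal.Quotient.eq_zero_iff_mem]; exact (hmem _).2 ⟨1, one_mul _⟩⟩
        · intro x
          obtain ⟨x, rfl⟩ := Ideal.Quotient.mk_surjective x
          rcases h.left x with hx | ⟨y, rfl⟩
          · exact Or.inl (hx.map _)
          · exact Or.inr ⟨Ideal.Quotient.mk I y, by rw [map_mul]⟩
        · intro x
          obtain ⟨x, rfl⟩ := Ideal.Quotient.mk_surjective x
          rcases h.right x with hx | ⟨y, rfl⟩
          · exact Or.inl (hx.map _)
          · exact Or.inr ⟨Ideal.Quotient.mk I y, by rw [map_mul]⟩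
      have hT : Module.IsTorsionBySet B (LinearMap.ker π) (I : Set B) := by
        rintro x ⟨a, ha⟩
        obtain ⟨b, rfl⟩ := (hmem a).1 ha
        apply Subtype.ext
        have := hK x.1 (LinearMap.mem_ker.1 x.2)
        simp only [Submodule.coe_smul, Submodule.coe_zero]
        rw [mul_smul, this, smul_zero]
      letI : Module (B ⧸ I) (LinearMap.ker π) := hT.module
      have hIH := ih (B ⧸ I) (Ideal.Quotient.mk I p) hP
        (by rw [← map_pow, Ideal.Quotient.eq_zero_iff_mem]; exact (hmem _).2 ⟨1, one_mul _⟩)
        (LinearMap.ker π)
      exact GoodDec.transfer (Ideal.Quotient.mk I) Ideal.Quotient.mk_surjective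
        (fun b x => Module.IsTorsionBySet.mk_smul hT b x) hIH

/-- Every module over a `PiRing` is a direct sum of cyclic modules. -/
theorem PiRing.exists_decomp {B : Type u} [Ring B] {p : B} (h : PiRing B p)
    (M : Type u) [AddCommGroup M] [Module B M] :
    ∃ (ι : Type u) (N : ι → Submodule B M), iSupIndep N ∧ iSup N = ⊤ ∧
      ∀ i, ∃ z : M, N i = Submodule.span B {z} := by
  obtain ⟨m, hm⟩ := h.nilp
  exact (PiRing.goodDec m B p h hm M).decomp

end Pool.Agent.Dist14
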