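import Pool.Agent.Helper927.Dist.Defs
import Pool.Agent.Helper927.Dist.B1
set_option autoImplicit false
set_option maxHeartbeats 4000000
universe u v

namespace Pool.Agent.Dist14

/-! ### TARGET: replace the `sorry`s below by proofs (auxiliary lemmas are fine, put them in this file) -/

theorem PiRing.comm_left {B : Type u} [Ring B] {p : B} (h : PiRing B p) (c : B) :
    ∃ c', p * c = c' * p := by
  rcases h.left (p * c) with hu | ⟨y, hy⟩
  · exfalso
    obtain ⟨u, hu⟩ := hu
    have hr : p * (c * ↑u⁻¹) = 1 := by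
      rw [← mul_assoc, ← hu, Units.mul_inv]
    obtain ⟨n, hn⟩ := h.nilp
    haveI := h.nontrivial
    have : ∀ k : ℕ, p ^ k ≠ 0 := by
      intro k
      induction k with
      | zero => simp
      | succ k ih =>
        intro h0
        apply ih
        calc p ^ k = p ^ k * (p * (c * ↑u⁻¹)) := by rw [hr, mul_one]
          _ = p ^ (k + 1) * (c * ↑u⁻¹) := by rw [pow_succ, mul_assoc]
          _ = 0 := by rw [h0, zero_mul]
    exact this n hn
  · exact ⟨y, hy⟩

theorem PiRing.comm_left_pow {B : Type u} [Ring B] {p : B} (h : PiRing B p) (k : ℕ) :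
    ∀ c : B, ∃ c', p ^ k * c = c' * p ^ k := by
  induction k with
  | zero => intro c; exact ⟨c, by simp⟩
  | succ k ih =>
    intro c
    obtain ⟨c1, h1⟩ := h.comm_left c
    obtain ⟨c2, h2⟩ := ih c1
    exact ⟨c2, by rw [pow_succ, mul_assoc, h1, ← mul_assoc, h2, mul_assoc]⟩

theorem PiRing.ann {B : Type u} [Ring B] {p : B} (h : PiRing B p)
    {M : Type v} [AddCommGroup M] [Module B M] (z : M) (r c : B) (hr : r • z = 0) :
    (r * c) • z = 0 := by
  rcases eq_or_ne r 0 with rfl | hr0
  · simp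
  obtain ⟨k, v, _, hv⟩ := h.exists_unit_mul r hr0
  have h1 : p ^ k • z = 0 := by
    have : p ^ k • z = (↑v⁻¹ : B) • (r • z) := by
      rw [hv, smul_smul, ← mul_assoc, Units.inv_mul, one_mul]
    rw [this, hr, smul_zero]
  obtain ⟨c', hc'⟩ := h.comm_left_pow k c
  rw [hv, mul_assoc, hc', ← mul_assoc, mul_smul, h1, smul_zero]

theorem PiRing.exists_end {B : Type u} [Ring B] {p : B} (h : PiRing B p)
    (M : Type u) [AddCommGroup M] [Module B M] (z : M) (c : B) :
    ∃ φ : Module.End B (Submodule.span B ({z} : Set M)), ∀ r : B,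
      φ (r • ⟨z, Submodule.mem_span_singleton_self z⟩) =
        (r * c) • ⟨z, Submodule.mem_span_singleton_self z⟩ := by
  set z' : Submodule.span B ({z} : Set M) := ⟨z, Submodule.mem_span_singleton_self z⟩ with hz'
  let f : B →ₗ[B] Submodule.span B ({z} : Set M) := LinearMap.toSpanSingleton B _ z'
  have hf : Function.Surjective f := by
    rintro ⟨y, hy⟩
    obtain ⟨b, rfl⟩ := Submodule.mem_span_singleton.1 hy
    exact ⟨b, rfl⟩
  let g : B →ₗ[B] Submodule.span B ({z} : Set M) := f.comp (LinearMap.toSpanSingleton B B c)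
  have hker : LinearMap.ker f ≤ LinearMap.ker g := by
    intro r hr
    rw [LinearMap.mem_ker] at hr ⊢
    have h1 : r • z = 0 := congrArg Subtype.val hr
    have h2 := h.ann z r c h1
    apply Subtype.ext
    exact h2
  refine ⟨((LinearMap.ker f).liftQ g hker).comp (f.quotKerEquivOfSurjective hf).symm.toLinearMap,
    fun r => ?_⟩
  have h3 : (f.quotKerEquivOfSurjective hf).symm (r • z') = Submodule.Quotient.mk r := by
    rw [LinearEquiv.symm_apply_eq]
    rfl
  rw [LinearMap.comp_apply, LinearEquiv.coe_coe, h3]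
  rfl

/-- Cyclic modules over a `PiRing` are endo-chain. -/
theorem PiRing.cyclic_chain {B : Type u} [Ring B] {p : B} (h : PiRing B p)
    (M : Type u) [AddCommGroup M] [Module B M] (z : M)
    (x y : Submodule.span B ({z} : Set M)) :
    (∃ φ : Module.End B (Submodule.span B ({z} : Set M)), φ x = y) ∨
    (∃ φ : Module.End B (Submodule.span B ({z} : Set M)), φ y = x) := by
  obtain ⟨x, hx⟩ := x
  obtain ⟨y, hy⟩ := y
  obtain ⟨a, rfl⟩ := Submodule.mem_span_singleton.1 hx
  obtain ⟨b, rfl⟩ := Submodule.mem_span_singleton.1 hy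
  rcases eq_or_ne a 0 with rfl | ha
  · right
    refine ⟨0, ?_⟩
    apply Subtype.ext
    simp
  rcases eq_or_ne b 0 with rfl | hb
  · left
    refine ⟨0, ?_⟩
    apply Subtype.ext
    simp
  obtain ⟨i, u, _, hu⟩ := h.exists_mul_unit a ha
  obtain ⟨j, w, _, hw⟩ := h.exists_mul_unit b hb
  rcases le_total i j with hij | hij
  · left
    obtain ⟨φ, hφ⟩ := h.exists_end M z (↑u⁻¹ * p ^ (j - i) * w)
    refine ⟨φ, ?_⟩
    have h1 := hφ a
    have h2 : a * (↑u⁻¹ * p ^ (j - i) * w) = b := by
      rw [hu, hw]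
      calc p ^ i * ↑u * (↑u⁻¹ * p ^ (j - i) * ↑w) =
          p ^ i * (↑u * ↑u⁻¹) * p ^ (j - i) * ↑w := by simp only [mul_assoc]
        _ = p ^ j * ↑w := by
          rw [Units.mul_inv, mul_one, ← pow_add, Nat.add_sub_cancel' hij]
    rw [h2] at h1
    exact h1
  · right
    obtain ⟨φ, hφ⟩ := h.exists_end M z (↑w⁻¹ * p ^ (i - j) * u)
    refine ⟨φ, ?_⟩
    have h1 := hφ b
    have h2 : b * (↑w⁻¹ * p ^ (i - j) * u) = a := by
      rw [hu, hw]
      calc p ^ j * ↑w * (↑w⁻¹ * p ^ (i - j) * ↑u) =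
          p ^ j * (↑w * ↑w⁻¹) * p ^ (i - j) * ↑u := by simp only [mul_assoc]
        _ = p ^ i * ↑u := by
          rw [Units.mul_inv, mul_one, ← pow_add, Nat.add_sub_cancel' hij]
    rw [h2] at h1
    exact h1

end Pool.Agent.Dist14
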