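import Pool.Agent.Helper927.Dist.Defs
set_option autoImplicit false
set_option maxHeartbeats 4000000
universe u v

namespace Pool.Agent.Dist14

/-! ### AVAILABLE: statements you may use; leave these `sorry`s in place (they are proved in other jobs) -/



/-! ### TARGET: replace the `sorry`s below by proofs (auxiliary lemmas are fine, put them in this file) -/

theorem steph_of_decomp {B : Type u} [Ring B] (M : Type u) [AddCommGroup M] [Module B M]
    (ι : Type u) (N : ι → Submodule B M) (hind : iSupIndep N) (htop : iSup N = ⊤)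
    (hN : ∀ i (x y : N i), (∃ φ : Module.End B (N i), φ x = y) ∨
      (∃ φ : Module.End B (N i), φ y = x)) : Steph B M := by
  classical
  intro x y
  have hint : DirectSum.IsInternal N :=
    DirectSum.isInternal_submodule_of_iSupIndep_of_iSup_eq_top hind htop
  let E : (DirectSum ι (fun i => N i)) ≃ₗ[B] M := LinearEquiv.ofBijective (DirectSum.coeLinearMap N) hint
  have hch : ∀ i, ∃ (b : Bool) (φ : Module.End B (N i)),
      (b = true → φ ((E.symm y) i) = (E.symm x) i) ∧
      (b = false → φ ((E.symm x) i) = (E.symm y) i) := by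
    intro i
    rcases hN i ((E.symm x) i) ((E.symm y) i) with ⟨φ, hφ⟩ | ⟨φ, hφ⟩
    · exact ⟨false, φ, by simp, fun _ => hφ⟩
    · exact ⟨true, φ, fun _ => hφ, by simp⟩
  choose b φ h1 h2 using hch
  let e' : (DirectSum ι (fun i => N i)) →ₗ[B] (DirectSum ι (fun i => N i)) :=
    DFinsupp.mapRange.linearMap (fun i => if b i = true then LinearMap.id else 0)
  let f' : (DirectSum ι (fun i => N i)) →ₗ[B] (DirectSum ι (fun i => N i)) :=
    DFinsupp.mapRange.linearMap (fun i => if b i = true then φ i else 0)
  let g' : (DirectSum ι (fun i => N i)) →ₗ[B] (DirectSum ι (fun i => N i)) :=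
    DFinsupp.mapRange.linearMap (fun i => if b i = true then 0 else φ i)
  have k1 : e' (E.symm x) = f' (E.symm y) := by
    refine DFinsupp.ext (fun i => ?_)
    show (if b i = true then (LinearMap.id : N i →ₗ[B] N i) else 0) ((E.symm x) i)
      = (if b i = true then φ i else 0) ((E.symm y) i)
    by_cases hb : b i = true
    · rw [if_pos hb, if_pos hb, h1 i hb]; rfl
    · rw [if_neg hb, if_neg hb]; rfl
  have k2 : E.symm y - e' (E.symm y) = g' (E.symm x) := by
    refine DFinsupp.ext (fun i => ?_)
    show (E.symm y) i - (if b i = true then (LinearMap.id : N i →ₗ[B] N i) else 0) ((E.symm y) i)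
      = (if b i = true then (0 : Module.End B (N i)) else φ i) ((E.symm x) i)
    by_cases hb : b i = true
    · rw [if_pos hb, if_pos hb]; simp
    · rw [if_neg hb, if_neg hb, h2 i (by simpa using hb)]; simp
  refine ⟨E.toLinearMap ∘ₗ e' ∘ₗ E.symm.toLinearMap, E.toLinearMap ∘ₗ f' ∘ₗ E.symm.toLinearMap,
    E.toLinearMap ∘ₗ g' ∘ₗ E.symm.toLinearMap, ?_, ?_⟩
  · show E (e' (E.symm x)) = E (f' (E.symm y))
    rw [k1]
  · show y - E (e' (E.symm y)) = E (g' (E.symm x))
    rw [← k2, map_sub, LinearEquiv.apply_symm_apply]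

end Pool.Agent.Dist14
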