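import Pool.Agent.Helper927.Dist.Defs
import Pool.Agent.Helper927.Dist.A1
import Pool.Agent.Helper927.Dist.B4
import Pool.Agent.Helper927.Dist.B5
import Pool.Agent.Helper927.Dist.B6
set_option autoImplicit false
set_option maxHeartbeats 4000000
universe u v

namespace Pool.Agent.Dist14

/-! ### TARGET: replace the `sorry`s below by proofs (auxiliary lemmas are fine, put them in this file) -/

theorem PiRing.ladm {B : Type u} [Ring B] {p : B} (h : PiRing B p) : LAdm B := by
  intro M _ _
  rw [steph_iff]
  obtain ⟨ι, N, hind, htop, hcyc⟩ := h.exists_decomp M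
  apply steph_of_decomp M ι N hind htop
  intro i
  have key : ∀ P : Submodule B M, (∃ z : M, P = Submodule.span B {z}) → ∀ x y : P,
      (∃ φ : Module.End B P, φ x = y) ∨ (∃ φ : Module.End B P, φ y = x) := by
    rintro _ ⟨z, rfl⟩ x y
    exact h.cyclic_chain M z x y
  exact key (N i) (hcyc i)

end Pool.Agent.Dist14
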