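import Pool.Agent.Helper927.Dist.Defs
import Pool.Agent.Helper927.Dist.A1
set_option autoImplicit false
set_option maxHeartbeats 4000000
universe u v

namespace Pool.Agent.Dist14

/-! ### TARGET -/

section PiComp

variable {n : ℕ} {B : Fin n → Type u} [∀ i, Ring (B i)] (M : Type u) [AddCommGroup M]
  [Module (∀ i, B i) M]

/-- component -/
def piComp (i : Fin n) : AddSubgroup M where
  carrier := {z | (Pi.single i (1 : B i) : ∀ j, B j) • z = z}
  add_mem' := by
    intro a b ha hb
    have ha' : (Pi.single i (1 : B i) : ∀ j, B j) • a = a := ha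
    have hb' : (Pi.single i (1 : B i) : ∀ j, B j) • b = b := hb
    show (Pi.single i (1 : B i) : ∀ j, B j) • (a + b) = a + b
    rw [smul_add, ha', hb']
  zero_mem' := smul_zero _
  neg_mem' := by
    intro a ha
    have ha' : (Pi.single i (1 : B i) : ∀ j, B j) • a = a := ha
    show (Pi.single i (1 : B i) : ∀ j, B j) • (-a) = -a
    rw [smul_neg, ha']

theorem piSingle_mul_single (i : Fin n) (b c : B i) :
    (Pi.single i b : ∀ j, B j) * Pi.single i c = Pi.single i (b * c) := by
  exact (Pi.single_mul i b c).symm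

theorem piSingle_smul_mem (i : Fin n) (b : B i) (z : M) :
    (Pi.single i b : ∀ j, B j) • z ∈ piComp (B := B) M i := by
  show (Pi.single i (1 : B i) : ∀ j, B j) • ((Pi.single i b : ∀ j, B j) • z) = _
  rw [smul_smul, piSingle_mul_single, one_mul]

noncomputable instance piCompModule (i : Fin n) : Module (B i) (piComp (B := B) M i) where
  smul b z := ⟨(Pi.single i b : ∀ j, B j) • z.1, piSingle_smul_mem M i b z.1⟩
  one_smul z := Subtype.ext z.2
  mul_smul b c z := Subtype.ext (by
    show (Pi.single i (b * c) : ∀ j, B j) • z.1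
      = (Pi.single i b : ∀ j, B j) • ((Pi.single i c : ∀ j, B j) • z.1)
    rw [smul_smul, piSingle_mul_single])
  smul_zero b := Subtype.ext (smul_zero _)
  smul_add b x y := Subtype.ext (smul_add _ _ _)
  add_smul b c z := Subtype.ext (by
    show (Pi.single i (b + c) : ∀ j, B j) • z.1
      = (Pi.single i b : ∀ j, B j) • z.1 + (Pi.single i c : ∀ j, B j) • z.1
    rw [Pi.single_add, add_smul])
  zero_smul z := Subtype.ext (by
    show (Pi.single i (0 : B i) : ∀ j, B j) • z.1 = 0
    rw [Pi.single_zero, zero_smul])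

theorem piComp_coe_smul (i : Fin n) (b : B i) (z : piComp (B := B) M i) :
    ((b • z : piComp (B := B) M i) : M) = (Pi.single i b : ∀ j, B j) • (z : M) := rfl

/-- projection -/
def piPr (i : Fin n) (z : M) : piComp (B := B) M i :=
  ⟨(Pi.single i (1 : B i) : ∀ j, B j) • z, piSingle_smul_mem M i 1 z⟩

theorem piPr_add (i : Fin n) (x y : M) :
    piPr (B := B) M i (x + y) = piPr (B := B) M i x + piPr (B := B) M i y :=
  Subtype.ext (smul_add _ _ _)

theorem single_mul_any (i : Fin n) (b : B i) (r : ∀ j, B j) :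
    (Pi.single i b : ∀ j, B j) * r = Pi.single i (b * r i) := by
  funext j
  by_cases h : j = i
  · subst h; simp
  · simp [Pi.single_eq_of_ne h]

theorem any_mul_single (i : Fin n) (b : B i) (r : ∀ j, B j) :
    r * (Pi.single i b : ∀ j, B j) = Pi.single i (r i * b) := by
  funext j
  by_cases h : j = i
  · subst h; simp
  · simp [Pi.single_eq_of_ne h]

theorem piPr_smul (i : Fin n) (r : ∀ j, B j) (z : M) :
    piPr (B := B) M i (r • z) = (r i) • piPr (B := B) M i z := by
  apply Subtype.ext
  show (Pi.single i (1 : B i) : ∀ j, B j) • (r • z)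
    = (Pi.single i (r i) : ∀ j, B j) • ((Pi.single i (1 : B i) : ∀ j, B j) • z)
  rw [smul_smul, smul_smul, single_mul_any, piSingle_mul_single, one_mul, mul_one]

/-- extension of an endomorphism -/
noncomputable def piExt (i : Fin n) (φ : Module.End (B i) (piComp (B := B) M i)) :
    Module.End (∀ j, B j) M where
  toFun z := (φ (piPr (B := B) M i z)).1
  map_add' x y := by
    rw [piPr_add, map_add]; rfl
  map_smul' r z := by
    show ((φ (piPr (B := B) M i (r • z))).1 : M) = r • (φ (piPr (B := B) M i z)).1
    rw [piPr_smul, map_smul, piComp_coe_smul]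
    conv_rhs => rw [← (φ (piPr (B := B) M i z)).2]
    rw [smul_smul, any_mul_single, mul_one]

theorem sum_pr (z : M) :
    ∑ i, ((piPr (B := B) M i z : piComp (B := B) M i) : M) = z := by
  show ∑ i, (Pi.single i (1 : B i) : ∀ j, B j) • z = z
  rw [← Finset.sum_smul]
  have : ∑ i, (Pi.single i (1 : B i) : ∀ j, B j) = 1 := by
    have := Finset.univ_sum_single (1 : ∀ j, B j)
    simpa using this
  rw [this, one_smul]

end PiComp

theorem LAdm.pi {n : ℕ} (B : Fin n → Type u) [∀ i, Ring (B i)] (h : ∀ i, LAdm (B i)) :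
    LAdm (∀ i, B i) := by
  intro M _ _
  rw [steph_iff]
  intro x y
  have key : ∀ i, ∃ e f g : Module.End (B i) (piComp (B := B) M i),
      e (piPr M i x) = f (piPr M i y) ∧
        piPr (B := B) M i y - e (piPr M i y) = g (piPr M i x) := by
    intro i
    exact (steph_iff (B i) (piComp (B := B) M i)).1 (h i (piComp (B := B) M i)) _ _
  choose e f g h1 h2 using key
  refine ⟨∑ i, piExt M i (e i), ∑ i, piExt M i (f i), ∑ i, piExt M i (g i), ?_, ?_⟩
  · rw [LinearMap.sum_apply, LinearMap.sum_apply]
    refine Finset.sum_congr rfl fun i _ => ?_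
    exact congrArg Subtype.val (h1 i)
  · rw [LinearMap.sum_apply, LinearMap.sum_apply]
    conv_lhs => rw [← sum_pr (B := B) M y]
    rw [sum_pr (B := B) M y]
    conv_lhs => lhs; rw [← sum_pr (B := B) M y]
    rw [← Finset.sum_sub_distrib]
    refine Finset.sum_congr rfl fun i _ => ?_
    exact congrArg Subtype.val (h2 i)

end Pool.Agent.Dist14
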