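import Pool.Agent.Helper927.Dist.Defs
set_option autoImplicit false
set_option maxHeartbeats 4000000
universe u v

namespace Pool.Agent.Dist14

/-! ### AVAILABLE: statements you may use; leave these `sorry`s in place (they are proved in other jobs) -/



/-! ### TARGET: replace the `sorry`s below by proofs (auxiliary lemmas are fine, put them in this file) -/

theorem IsArtinianChainRing.exists_piRing {B : Type u} [Ring B] (h : IsArtinianChainRing B) :
    ∃ p : B, PiRing B p := by
  have := h.nontrivial
  have := h.left_artinian
  -- Dedekind finiteness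
  have hded : ∀ x y : B, y * x = 1 → x * y = 1 := by
    intro x y hyx
    let f : B →ₗ[B] B :=
      { toFun := fun b => b * y
        map_add' := fun a b => add_mul a b y
        map_smul' := fun a b => mul_assoc a b y }
    have hinj : Function.Injective f := by
      rw [injective_iff_map_eq_zero]
      intro b hb
      have hb' : b * y = 0 := hb
      calc b = b * (y * x) := by rw [hyx, mul_one]
        _ = (b * y) * x := by rw [mul_assoc]
        _ = 0 := by rw [hb', zero_mul]
    have hsurj : Function.Surjective f := IsArtinian.surjective_of_injective_endomorphism f hinj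
    obtain ⟨z, hz⟩ := hsurj 1
    have hz' : z * y = 1 := hz
    have : z = x := by
      calc z = z * (y * x) := by rw [hyx, mul_one]
        _ = (z * y) * x := by rw [mul_assoc]
        _ = x := by rw [hz', one_mul]
    rw [← this]; exact hz'
  have hunit_left : ∀ x y : B, y * x = 1 → IsUnit x := fun x y hyx =>
    ⟨⟨x, y, hded x y hyx, hyx⟩, rfl⟩
  have hunit_right : ∀ x y : B, x * y = 1 → IsUnit x := fun x y hxy =>
    ⟨⟨x, y, hxy, hded y x hxy⟩, rfl⟩
  obtain ⟨m, hm⟩ := Ideal.exists_maximal B
  have hnot : ∀ x : B, x ∉ m → IsUnit x := by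
    intro x hx
    have hlt : m < Ideal.span {x} := by
      rcases h.left_chain (Ideal.span {x}) m with h1 | h1
      · exact absurd (h1 (Ideal.subset_span rfl)) hx
      · refine lt_of_le_of_ne h1 ?_
        intro heq
        exact hx (heq ▸ Ideal.subset_span rfl)
    have htop : Ideal.span {x} = (⊤ : Ideal B) := hm.out.2 _ hlt
    have h1 : (1 : B) ∈ Ideal.span {x} := by rw [htop]; trivial
    rw [Ideal.mem_span_singleton'] at h1
    obtain ⟨y, hy⟩ := h1
    exact hunit_left x y hy
  have hmem : ∀ x : B, x ∈ m → ¬ IsUnit x := by
    intro x hx hu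
    obtain ⟨u, rfl⟩ := hu
    apply hm.ne_top
    rw [Ideal.eq_top_iff_one]
    have := m.mul_mem_left (↑u⁻¹ : B) hx
    simpa using this
  have hright : ∀ x r : B, x ∈ m → x * r ∈ m := by
    intro x r hx
    by_contra hxr
    obtain ⟨u, hu⟩ := hnot _ hxr
    apply hmem x hx
    apply hunit_right x (r * (↑u⁻¹ : B))
    rw [← mul_assoc, ← hu]
    simp
  have hmjac : m ≤ Ring.jacobson B := by
    rw [Ring.jacobson, Module.jacobson]
    refine le_sInf ?_
    intro m' hm'
    have hm'' : Ideal.IsMaximal m' := ⟨hm'⟩
    rcases h.left_chain m m' with h1 | h1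
    · exact h1
    · exact (hm''.eq_of_le hm.ne_top h1).ge
  obtain ⟨N, hN⟩ := (IsSemiprimaryRing.isNilpotent : IsNilpotent (Ring.jacobson B))
  have hmN : m ^ N = ⊥ := by
    rw [eq_bot_iff]
    calc m ^ N ≤ (Ring.jacobson B) ^ N := Ideal.pow_right_mono hmjac N
      _ ≤ ⊥ := hN.le
  have hpownil : ∀ p ∈ m, IsNilpotent p := by
    intro p hp
    refine ⟨N, ?_⟩
    have : p ^ N ∈ m ^ N := Ideal.pow_mem_pow hp N
    rw [hmN] at this
    simpa using this
  by_cases hbot : m = ⊥
  · refine ⟨0, h.nontrivial, IsNilpotent.zero, ?_, ?_⟩
    · intro x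
      by_cases hx : x ∈ m
      · right; rw [hbot] at hx; exact ⟨0, by simpa using hx⟩
      · left; exact hnot x hx
    · intro x
      by_cases hx : x ∈ m
      · right; rw [hbot] at hx; exact ⟨0, by simpa using hx⟩
      · left; exact hnot x hx
  · have hsq : ¬ m ≤ m * m := by
      intro hle
      have hall : ∀ n : ℕ, m ≤ m ^ (n + 1) := by
        intro n
        induction n with
        | zero => exact (Submodule.pow_one m).ge
        | succ n ih =>
          calc m ≤ m * m := hle
            _ ≤ m ^ (n + 1) * m := Ideal.mul_mono_left ih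
            _ = m ^ (n + 1 + 1) := (Submodule.pow_succ m).symm
      apply hbot
      rw [eq_bot_iff]
      calc m ≤ m ^ (N + 1) := hall N
        _ = m ^ N * m := Submodule.pow_succ m
        _ = ⊥ * m := by rw [hmN]
        _ ≤ ⊥ := by simp
    obtain ⟨p, hpm, hp2⟩ := Set.not_subset.1 hsq
    have hpm' : p ∈ m := hpm
    have hp2' : p ∉ m * m := hp2
    refine ⟨p, h.nontrivial, hpownil p hpm', ?_, ?_⟩
    · intro x
      by_cases hx : x ∈ m
      · right
        rcases h.left_chain (Ideal.span {x}) (Ideal.span {p}) with h1 | h1
        · have : x ∈ Ideal.span {p} := h1 (Ideal.subset_span rfl)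
          rw [Ideal.mem_span_singleton'] at this
          obtain ⟨y, hy⟩ := this
          exact ⟨y, hy.symm⟩
        · have : p ∈ Ideal.span {x} := h1 (Ideal.subset_span rfl)
          rw [Ideal.mem_span_singleton'] at this
          obtain ⟨r, hr⟩ := this
          have hrm : r ∉ m := by
            intro hrm
            apply hp2'
            rw [← hr]
            exact Ideal.mul_mem_mul hrm hx
          obtain ⟨u, hu⟩ := hnot r hrm
          refine ⟨(↑u⁻¹ : B), ?_⟩
          rw [← hr, ← hu, ← mul_assoc]
          simp
      · left; exact hnot x hx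
    · intro x
      by_cases hx : x ∈ m
      · right
        rcases h.right_chain (Ideal.span {MulOpposite.op x}) (Ideal.span {MulOpposite.op p})
          with h1 | h1
        · have : MulOpposite.op x ∈ Ideal.span {MulOpposite.op p} := h1 (Ideal.subset_span rfl)
          rw [Ideal.mem_span_singleton'] at this
          obtain ⟨y, hy⟩ := this
          refine ⟨y.unop, ?_⟩
          have := congrArg MulOpposite.unop hy
          simpa using this.symm
        · have : MulOpposite.op p ∈ Ideal.span {MulOpposite.op x} := h1 (Ideal.subset_span rfl)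
          rw [Ideal.mem_span_singleton'] at this
          obtain ⟨r', hr'⟩ := this
          obtain ⟨r, hr⟩ : ∃ r : B, x * r = p := by
            refine ⟨r'.unop, ?_⟩
            have := congrArg MulOpposite.unop hr'
            simpa using this
          have hrm : r ∉ m := by
            intro hrm
            apply hp2'
            rw [← hr]
            exact Ideal.mul_mem_mul hx hrm
          obtain ⟨u, hu⟩ := hnot r hrm
          refine ⟨(↑u⁻¹ : B), ?_⟩
          rw [← hr, ← hu, mul_assoc]
          simp
      · left; exact hnot x hx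

end Pool.Agent.Dist14
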