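import Pool.Agent.Helper927.Dist.Defs
import Pool.Agent.Helper927.Dist.A2
import Pool.Agent.Helper927.Dist.B7
import Pool.Agent.Helper927.Dist.B8
import Pool.Agent.Helper927.Dist.B9
set_option autoImplicit false
set_option maxHeartbeats 4000000
universe u v

namespace Pool.Agent.Dist14

/-! ### TARGET: replace the `sorry`s below by proofs (auxiliary lemmas are fine, put them in this file) -/

theorem good_ladm {A : Type u} [Ring A] (h : IsFiniteProductOfArtinianChainRings A) :
    LAdm A := by
  obtain ⟨n, B, _, hB, ⟨e⟩⟩ := h
  have h1 : LAdm (∀ i, B i) := LAdm.pi B fun i => by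
    obtain ⟨p, hp⟩ := (hB i).exists_piRing
    exact hp.ladm
  exact LAdm.of_surjective e.symm.toRingHom e.symm.surjective h1

end Pool.Agent.Dist14
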