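import Pool.Agent.Helper927.Dist.Defs
set_option autoImplicit false
set_option maxHeartbeats 4000000
universe u v

namespace Pool.Agent.Dist14

/-! ### AVAILABLE: statements you may use; leave these `sorry`s in place (they are proved in other jobs) -/



/-! ### TARGET: replace the `sorry`s below by proofs (auxiliary lemmas are fine, put them in this file) -/

/-- If all maximal left ideals are two-sided, an element outside all of them is a unit. -/
theorem isUnit_of_forall_notMem {R : Type u} [Ring R]
    (h2 : ∀ m : Ideal R, m.IsMaximal → m.IsTwoSided) (x : R)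
    (hx : ∀ m : Ideal R, m.IsMaximal → x ∉ m) : IsUnit x := by
  have key : ∀ w : R, (∀ m : Ideal R, m.IsMaximal → w ∉ m) → ∃ y, y * w = 1 := by
    intro w hw
    have h1 : Ideal.span {w} = ⊤ := by
      by_contra hne
      obtain ⟨m, hm, hle⟩ := Ideal.exists_le_maximal _ hne
      exact hw m hm (hle (Ideal.subset_span rfl))
    have h3 : (1 : R) ∈ Ideal.span {w} := by rw [h1]; trivial
    obtain ⟨y, hy⟩ := Submodule.mem_span_singleton.1 h3
    exact ⟨y, hy⟩
  obtain ⟨y, hy⟩ := key x hx
  have hy' : ∀ m : Ideal R, m.IsMaximal → y ∉ m := by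
    intro m hm hym
    haveI := h2 m hm
    have h3 : y * x ∈ m := m.mul_mem_right x hym
    rw [hy] at h3
    exact hm.ne_top ((Ideal.eq_top_iff_one m).2 h3)
  obtain ⟨z, hz⟩ := key y hy'
  have h4 : z = x := by
    calc z = z * (y * x) := by rw [hy, mul_one]
      _ = (z * y) * x := by rw [mul_assoc]
      _ = x := by rw [hz, one_mul]
  rw [h4] at hz
  exact ⟨⟨x, y, hz, hy⟩, rfl⟩

end Pool.Agent.Dist14
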