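import Pool.Agent.Helper927.Dist.Defs
import Pool.Agent.Helper927.Dist.A4
import Pool.Agent.Helper927.Dist.A5
import Pool.Agent.Helper927.Dist.A6
import Pool.Agent.Helper927.Dist.A7
import Pool.Agent.Helper927.Dist.C1
set_option autoImplicit false
set_option maxHeartbeats 4000000
universe u v

namespace Pool.Agent.Dist14

/-! ### TARGET: replace the `sorry`s below by proofs (auxiliary lemmas are fine, put them in this file) -/


/-- Existence of an element outside `m i` and in all other `m j`. -/
theorem LDist.exists_decomp_aux {R : Type u} [Ring R] {n : ℕ} (m : Fin n → Ideal R)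
    (hinj : Function.Injective m) (hmax : ∀ i, (m i).IsMaximal) (h2 : ∀ i, (m i).IsTwoSided)
    (i : Fin n) : ∃ t : R, t - 1 ∈ m i ∧ ∀ j, j ≠ i → t ∈ m j := by
  classical
  have key : ∀ S : Finset (Fin n), i ∉ S → ∃ s : R, s ∉ m i ∧ ∀ j ∈ S, s ∈ m j := by
    intro S
    induction S using Finset.induction_on with
    | empty =>
      intro _
      refine ⟨1, ?_, by simp⟩
      exact (Ideal.ne_top_iff_one _).mp (hmax i).ne_top
    | insert a S ha ih =>
      intro hi
      rw [Finset.mem_insert, not_or] at hi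
      obtain ⟨s, hs, hS⟩ := ih hi.2
      have hne : m a ≠ m i := fun h => hi.1 (hinj h).symm
      have : ¬ m a ≤ m i := fun hle => hne ((hmax a).eq_of_le (hmax i).ne_top hle)
      obtain ⟨b, hb1, hb2⟩ := SetLike.not_le_iff_exists.mp this
      refine ⟨s * b, ?_, ?_⟩
      · intro hmem
        rcases mem_or_mem_of_maximal (m i) (hmax i) (h2 i) s b hmem with h | h
        · exact hs h
        · exact hb2 h
      · intro j hj
        rw [Finset.mem_insert] at hj
        rcases hj with rfl | hj
        · exact (m j).mul_mem_left s hb1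
        · haveI := h2 j
          exact (m j).mul_mem_right b (hS j hj)
  obtain ⟨s, hs, hS⟩ := key (Finset.univ.erase i) (Finset.notMem_erase _ _)
  obtain ⟨b, hb, _⟩ := inv_mod (m i) (hmax i) (h2 i) s hs
  refine ⟨b * s, hb, fun j hj => (m j).mul_mem_left b (hS j ?_)⟩
  exact Finset.mem_erase.mpr ⟨hj, Finset.mem_univ _⟩

/-- A left distributive ring with finitely many maximal left ideals whose intersection is nil
is a finite product of nil-local rings. -/
theorem LDist.exists_decomp {R : Type u} [Ring R] (h : LDist R)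
    (hfin : {m : Ideal R | m.IsMaximal}.Finite)
    (hnil : ∀ x : R, (∀ m : Ideal R, m.IsMaximal → x ∈ m) → IsNilpotent x) :
    ∃ (n : ℕ) (B : Fin n → Type u) (_ : ∀ i, Ring (B i)),
      (∀ i, NilLocal (B i)) ∧ Nonempty (R ≃+* (∀ i, B i)) := by
  classical
  haveI : Finite {m : Ideal R | m.IsMaximal} := hfin.to_subtype
  obtain ⟨n, ⟨ε⟩⟩ := Finite.exists_equiv_fin {m : Ideal R | m.IsMaximal}
  let m : Fin n → Ideal R := fun i => (ε.symm i).1
  have hmax : ∀ i, (m i).IsMaximal := fun i => (ε.symm i).2
  have hinj : Function.Injective m := fun i j hij => ε.symm.injective (Subtype.ext hij)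
  have h2' : ∀ I : Ideal R, I.IsMaximal → I.IsTwoSided := fun I hI => h.maximal_twoSided I hI
  have h2 : ∀ i, (m i).IsTwoSided := fun i => h2' _ (hmax i)
  have hsurj : ∀ I : Ideal R, I.IsMaximal → ∃ i, m i = I := fun I hI =>
    ⟨ε ⟨I, hI⟩, by simp [m]⟩
  choose t ht1 ht2 using LDist.exists_decomp_aux m hinj hmax h2
  let φ : R →+* (∀ i, R ⧸ m i) := RingHom.pi (fun i => Ideal.Quotient.mk (m i))
  have hφ : ∀ x i, φ x i = Ideal.Quotient.mk (m i) x := fun x i => rfl
  have hker : ∀ x ∈ RingHom.ker φ, IsNilpotent x := by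
    intro x hx
    apply hnil
    intro I hI
    obtain ⟨i, rfl⟩ := hsurj I hI
    have h0 : φ x i = 0 := by rw [RingHom.mem_ker.mp hx]; rfl
    rw [hφ] at h0
    exact Ideal.Quotient.eq_zero_iff_mem.mp h0
  have hco : CompleteOrthogonalIdempotents (fun i : Fin n => (Pi.single i 1 : ∀ i, R ⧸ m i)) :=
    CompleteOrthogonalIdempotents.single _
  have hrange : ∀ i, (Pi.single i 1 : ∀ i, R ⧸ m i) ∈ φ.range := by
    intro i
    refine ⟨t i, ?_⟩
    funext j
    rw [hφ]
    by_cases hj : j = i
    · subst hj
      rw [Pi.single_eq_same, ← sub_eq_zero, ← map_one (Ideal.Quotient.mk (m j)), ← map_sub]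
      exact Ideal.Quotient.eq_zero_iff_mem.mpr (ht1 j)
    · rw [Pi.single_eq_of_ne hj]
      exact Ideal.Quotient.eq_zero_iff_mem.mpr (ht2 i j hj)
  obtain ⟨e, he, hφe⟩ := CompleteOrthogonalIdempotents.lift_of_isNilpotent_ker φ hker hco hrange
  have he1 : ∀ i, 1 - e i ∈ m i := by
    intro i
    have h1 : φ (e i) i = 1 := by
      have := congrFun (congrFun hφe i) i
      simpa using this
    rw [hφ] at h1
    apply Ideal.Quotient.eq_zero_iff_mem.mp
    rw [map_sub, h1, map_one, sub_self]
  have he2 : ∀ i j, j ≠ i → e i ∈ m j := by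
    intro i j hj
    have h1 : φ (e i) j = 0 := by
      have := congrFun (congrFun hφe i) j
      simpa [Pi.single_eq_of_ne hj] using this
    rw [hφ] at h1
    exact Ideal.Quotient.eq_zero_iff_mem.mp h1
  have hcomm : ∀ i r, e i * r = r * e i := fun i r => h.idem_central (e i) (he.idem i).eq r
  have hcent : ∀ i, IsMulCentral (e i) := fun i =>
    Semigroup.mem_center_iff.mpr (fun r => (hcomm i r).symm)
  refine ⟨n, fun i => (he.idem i).Corner, fun i => inferInstance, ?_,
    ⟨he.ringEquivOfIsMulCentral hcent⟩⟩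
  intro i
  have hei : e i ∉ m i := by
    intro hmem
    apply (Ideal.ne_top_iff_one _).mp (hmax i).ne_top
    have := (m i).add_mem (he1 i) hmem
    simpa using this
  refine ⟨⟨⟨0, 1, ?_⟩⟩, ?_⟩
  · intro h01
    have h3 : (0 : R) = e i := congrArg Subtype.val h01
    exact hei (h3 ▸ (m i).zero_mem)
  · intro x
    obtain ⟨hx1, hx2⟩ := (Subsemigroup.mem_corner_iff (he.idem i)).mp x.2
    have hxj : ∀ j, j ≠ i → x.1 ∈ m j := by
      intro j hj
      rw [← hx2]
      exact (m j).mul_mem_left _ (he2 i j hj)
    by_cases hxi : x.1 ∈ m i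
    · right
      have hn : IsNilpotent x.1 := by
        apply hnil
        intro I hI
        obtain ⟨j, rfl⟩ := hsurj I hI
        by_cases hj : j = i
        · subst hj; exact hxi
        · exact hxj j hj
      obtain ⟨k, hk⟩ := hn
      refine ⟨k + 1, Subtype.ext ?_⟩
      have hpow : ∀ l : ℕ, (x ^ (l + 1)).1 = x.1 ^ (l + 1) := by
        intro l
        induction l with
        | zero => simp
        | succ l ih =>
          rw [pow_succ, pow_succ x.1, ← ih]
          rfl
      rw [hpow, pow_succ, hk, zero_mul]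
      rfl
    · left
      have hu : IsUnit (x.1 + (1 - e i)) := by
        apply isUnit_of_forall_notMem h2'
        intro I hI
        obtain ⟨j, rfl⟩ := hsurj I hI
        by_cases hj : j = i
        · subst hj
          intro hmem
          apply hxi
          have := (m j).sub_mem hmem (he1 j)
          simpa using this
        · intro hmem
          apply (Ideal.ne_top_iff_one _).mp (hmax j).ne_top
          have h5 := (m j).sub_mem hmem (hxj j hj)
          have h6 := (m j).add_mem h5 (he2 i j hj)
          simpa using h6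
      obtain ⟨u, hu⟩ := hu
      have hxe : x.1 = (u : R) * e i := by
        rw [hu, add_mul, sub_mul, one_mul, (he.idem i).eq, sub_self, add_zero, hx2]
      have hz : e i * (↑u⁻¹ : R) * e i = e i * ↑u⁻¹ := by
        rw [mul_assoc, ← hcomm i (↑u⁻¹ : R), ← mul_assoc, (he.idem i).eq]
      let z : (he.idem i).Corner := ⟨e i * (↑u⁻¹ : R) * e i, (↑u⁻¹ : R), rfl⟩
      have h8 : x * z = 1 := by
        apply Subtype.ext
        change x.1 * (e i * (↑u⁻¹ : R) * e i) = e i
        rw [hz, ← mul_assoc, hx2, hxe, mul_assoc, hcomm i (↑u⁻¹ : R), ← mul_assoc,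
          Units.mul_inv, one_mul]
      have h9 : z * x = 1 := by
        apply Subtype.ext
        change (e i * (↑u⁻¹ : R) * e i) * x.1 = e i
        rw [hz, mul_assoc, hxe, ← mul_assoc (↑u⁻¹ : R), Units.inv_mul, one_mul, (he.idem i).eq]
      exact ⟨⟨x, z, h8, h9⟩, rfl⟩

end Pool.Agent.Dist14
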