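import Pool.Agent.Helper927.Dist.Defs
set_option autoImplicit false
set_option maxHeartbeats 4000000
universe u v

namespace Pool.Agent.Dist14

/-! ### AVAILABLE: statements you may use; leave these `sorry`s in place (they are proved in other jobs) -/



/-! ### TARGET: replace the `sorry`s below by proofs (auxiliary lemmas are fine, put them in this file) -/

theorem NilLocal.left_chain {B : Type u} [Ring B] (h : NilLocal B) (hl : LDist B) (p q : B) :
    (∃ a, p = a * q) ∨ (∃ b, q = b * p) := by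
  obtain ⟨c, a, b, h1, h2⟩ := hl p q
  rcases h.2 c with hc | hc
  · left
    obtain ⟨u, rfl⟩ := hc
    refine ⟨(↑u⁻¹ : B) * a, ?_⟩
    rw [mul_assoc, ← h1, ← mul_assoc, Units.inv_mul, one_mul]
  · right
    obtain ⟨u, hu⟩ := hc.isUnit_one_sub
    refine ⟨(↑u⁻¹ : B) * b, ?_⟩
    rw [mul_assoc, ← h2, ← hu, ← mul_assoc, Units.inv_mul, one_mul]

theorem NilLocal.right_chain {B : Type u} [Ring B] (h : NilLocal B) (hr : RDist B) (p q : B) :
    (∃ a, p = q * a) ∨ (∃ b, q = p * b) := by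
  obtain ⟨c, a, b, h1, h2⟩ := hr p q
  rcases h.2 c with hc | hc
  · left
    obtain ⟨u, rfl⟩ := hc
    refine ⟨a * (↑u⁻¹ : B), ?_⟩
    rw [← mul_assoc, ← h1, mul_assoc, Units.mul_inv, mul_one]
  · right
    obtain ⟨u, hu⟩ := hc.isUnit_one_sub
    refine ⟨b * (↑u⁻¹ : B), ?_⟩
    rw [← mul_assoc, ← h2, ← hu, mul_assoc, Units.mul_inv, mul_one]

end Pool.Agent.Dist14
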