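import Pool.Agent.Helper927.Dist.Defs
import Pool.Agent.Helper927.Dist.C3
set_option autoImplicit false
set_option maxHeartbeats 4000000
universe u v

namespace Pool.Agent.Dist14

/-! ### TARGET: replace the `sorry`s below by proofs (auxiliary lemmas are fine, put them in this file) -/

theorem NilLocal.exists_piRing {B : Type u} [Ring B] (h : NilLocal B) (hl : LDist B)
    (hr : RDist B)
    (hJ : (∀ x : B, ¬ IsUnit x → x = 0) ∨
      ∃ x : B, ¬ IsUnit x ∧ ∀ a b : B, ¬ IsUnit a → ¬ IsUnit b → x ≠ a * b) :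
    ∃ p : B, PiRing B p := by
  haveI := h.1
  rcases hJ with h0 | ⟨x, hx, hx2⟩
  · refine ⟨0, h.1, IsNilpotent.zero, fun x => ?_, fun x => ?_⟩
    · by_cases hx : IsUnit x
      · exact Or.inl hx
      · exact Or.inr ⟨0, by rw [h0 x hx, mul_zero]⟩
    · by_cases hx : IsUnit x
      · exact Or.inl hx
      · exact Or.inr ⟨0, by rw [h0 x hx, mul_zero]⟩
  · refine ⟨x, h.1, (h.2 x).resolve_left hx, fun y => ?_, fun y => ?_⟩
    · by_cases hy : IsUnit y
      · exact Or.inl hy
      · right
        rcases h.left_chain hl y x with ⟨a, ha⟩ | ⟨b, hb⟩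
        · exact ⟨a, ha⟩
        · have hbu : IsUnit b := by
            by_contra hbu
            exact hx2 b y hbu hy hb
          obtain ⟨u, rfl⟩ := hbu
          exact ⟨↑u⁻¹, by rw [hb, ← mul_assoc, Units.inv_mul, one_mul]⟩
    · by_cases hy : IsUnit y
      · exact Or.inl hy
      · right
        rcases h.right_chain hr y x with ⟨a, ha⟩ | ⟨b, hb⟩
        · exact ⟨a, ha⟩
        · have hbu : IsUnit b := by
            by_contra hbu
            exact hx2 y b hy hbu hb
          obtain ⟨u, rfl⟩ := hbu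
          exact ⟨↑u⁻¹, by rw [hb, mul_assoc, Units.mul_inv, mul_one]⟩

end Pool.Agent.Dist14
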