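import Pool.Agent.Helper927.Dist.Defs
set_option autoImplicit false
set_option maxHeartbeats 4000000
universe u v

namespace Pool.Agent.Dist14

/-! ### AVAILABLE: statements you may use; leave these `sorry`s in place (they are proved in other jobs) -/



/-! ### TARGET: replace the `sorry`s below by proofs (auxiliary lemmas are fine, put them in this file) -/

/-- If some power of the set of nonunits vanishes then the alternative of
`NilLocal.exists_piRing` holds. -/
theorem NilLocal.alternative_of_nilpotent {B : Type u} [Ring B] (h : NilLocal B) (N : ℕ)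
    (hN : ∀ f : Fin N → B, (∀ i, ¬ IsUnit (f i)) → (List.ofFn f).prod = 0) :
    (∀ x : B, ¬ IsUnit x → x = 0) ∨
      ∃ x : B, ¬ IsUnit x ∧ ∀ a b : B, ¬ IsUnit a → ¬ IsUnit b → x ≠ a * b := by
  by_contra hcon
  push Not at hcon
  obtain ⟨⟨x, hx, hx0⟩, hdec⟩ := hcon
  haveI := h.1
  have key : ∀ k : ℕ, ∀ y : B, ¬ IsUnit y → ∃ f : Fin (k + 1) → B, (∀ i, ¬ IsUnit (f i)) ∧
      (List.ofFn f).prod = y := by
    intro k
    induction k with
    | zero =>
      intro y hy
      exact ⟨fun _ => y, fun _ => hy, by simp⟩
    | succ k ih =>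
      intro y hy
      obtain ⟨a, b, ha, hb, hab⟩ := hdec y hy
      obtain ⟨f, hf1, hf2⟩ := ih b hb
      refine ⟨Fin.cons a f, ?_, ?_⟩
      · intro i
        refine Fin.cases ?_ (fun i => ?_) i
        · simpa using ha
        · simpa using hf1 i
      · rw [List.ofFn_succ, List.prod_cons]
        simp only [Fin.cons_zero, Fin.cons_succ]
        rw [hf2, hab]
  rcases N with _ | N
  · have h1 := hN (fun i => i.elim0) (fun i => i.elim0)
    simp at h1
  · obtain ⟨f, hf1, hf2⟩ := key N x hx
    exact hx0 (by rw [← hf2]; exact hN f hf1)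

end Pool.Agent.Dist14
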