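import Pool.Agent.Helper927.Dist.Defs
import Pool.Agent.Helper927.Dist.A4
import Pool.Agent.Helper927.Dist.B10
import Pool.Agent.Helper927.Dist.C2
import Pool.Agent.Helper927.Dist.C4
import Pool.Agent.Helper927.Dist.C5
set_option autoImplicit false
set_option maxHeartbeats 4000000
universe u v

namespace Pool.Agent.Dist14

/-! ### TARGET: replace the `sorry`s below by proofs (auxiliary lemmas are fine, put them in this file) -/

theorem prod_ofFn_mem_pow {R : Type u} [Ring R] (J : Ideal R) :
    ∀ (N : ℕ) (f : Fin N → R), (∀ i, f i ∈ J) → (List.ofFn f).prod ∈ J ^ N := by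
  intro N
  induction N with
  | zero =>
    intro f _
    have h0 : J ^ 0 = ⊤ := by simp [Submodule.pow_zero]
    rw [h0]
    trivial
  | succ n ih =>
    intro f hf
    rw [List.ofFn_succ', List.prod_concat, Submodule.pow_succ J]
    exact Ideal.mul_mem_mul (ih _ (fun i => hf _)) (hf _)

theorem mem_jac_of {R : Type u} [Ring R] (r : R) (h : ∀ s : R, IsNilpotent (s * r)) :
    r ∈ Ring.jacobson R := by
  rw [Ring.jacobson_eq_sInf_isMaximal, Submodule.mem_sInf]
  intro m hm
  have hm' : Ideal.IsMaximal m := hm
  by_contra hr
  obtain ⟨y, i, hi, hy⟩ := Ideal.IsMaximal.exists_inv hm' hr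
  have hu : IsUnit i := by
    have : i = 1 - y * r := by rw [← hy]; abel
    rw [this]
    exact (h y).isUnit_one_sub
  exact hm'.ne_top (Ideal.eq_top_of_isUnit_mem m hi hu)

/-- Two-sided distributive ring with finitely many maximal left ideals and nilpotent Jacobson
radical is a finite product of artinian chain rings. -/
theorem good_of_nilpotent_jacobson {R : Type u} [Ring R] (hl : LDist R) (hr : RDist R)
    (hfin : {m : Ideal R | m.IsMaximal}.Finite) (N : ℕ) (hN : (Ring.jacobson R) ^ N = ⊥) :
    IsFiniteProductOfArtinianChainRings R := by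
  have hnil : ∀ x : R, (∀ m : Ideal R, m.IsMaximal → x ∈ m) → IsNilpotent x := by
    intro x hx
    have hxJ : x ∈ Ring.jacobson R := by
      rw [Ring.jacobson_eq_sInf_isMaximal, Submodule.mem_sInf]
      exact fun m hm => hx m hm
    refine ⟨N, ?_⟩
    have := Ideal.pow_mem_pow hxJ N
    rw [hN] at this
    simpa using this
  obtain ⟨n, B, _, hB, ⟨e⟩⟩ := hl.exists_decomp hfin hnil
  refine ⟨n, B, inferInstance, ?_, ⟨e⟩⟩
  intro i
  have hsurj : Function.Surjective ((Pi.evalRingHom B i).comp e.toRingHom) := by
    intro b
    refine ⟨e.symm (Pi.single i b), ?_⟩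
    simp
  have hli : LDist (B i) := LDist.of_surjective _ hsurj hl
  have hri : RDist (B i) := RDist.of_surjective _ hsurj hr
  have : Nontrivial (B i) := (hB i).1
  -- lifts of nonunits lie in the radical
  have hlift : ∀ b : B i, ¬ IsUnit b → e.symm (Pi.single i b) ∈ Ring.jacobson R := by
    intro b hb
    apply mem_jac_of
    intro s
    have hnb : IsNilpotent b := ((hB i).2 b).resolve_left hb
    have hsb : IsNilpotent (e s i * b) := by
      refine ((hB i).2 (e s i * b)).resolve_left ?_
      intro hu
      obtain ⟨c, hc⟩ := hu.exists_left_inv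
      obtain ⟨k, hk⟩ := hnb
      have key : ∀ k : ℕ, b ^ k = 0 → False := by
        intro k
        induction k with
        | zero => intro h; simp at h
        | succ j ihj =>
          intro h
          apply ihj
          have : c * e s i * b ^ (j + 1) = b ^ j := by
            rw [pow_succ', ← mul_assoc, mul_assoc c, hc, one_mul]
          rw [h, mul_zero] at this
          exact this.symm
      exact key k hk
    obtain ⟨k, hk⟩ := hsb
    refine ⟨k + 1, ?_⟩
    apply e.injective
    rw [map_pow, map_mul, map_zero, RingEquiv.apply_symm_apply]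
    funext j
    rw [Pi.pow_apply, Pi.mul_apply, Pi.zero_apply]
    by_cases hj : j = i
    · subst hj
      rw [Pi.single_eq_same, pow_succ, hk, zero_mul]
    · rw [Pi.single_eq_of_ne hj, mul_zero]
      simp
  have hJ := (hB i).alternative_of_nilpotent N (by
    intro f hf
    have h1 := prod_ofFn_mem_pow (Ring.jacobson R) N (fun k => e.symm (Pi.single i (f k)))
      (fun k => hlift _ (hf k))
    rw [hN] at h1
    have h2 : (List.ofFn (fun k => e.symm (Pi.single i (f k)))).prod = 0 := by simpa using h1
    have h3 := congrArg ((Pi.evalRingHom B i).comp e.toRingHom) h2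
    rw [map_list_prod, map_zero, List.map_ofFn] at h3
    rw [← h3]
    congr 2
    funext k
    simp)
  obtain ⟨p, hp⟩ := (hB i).exists_piRing hli hri hJ
  exact hp.isArtinianChainRing

end Pool.Agent.Dist14
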