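import Pool.Agent.Helper927.Dist.Defs
import Pool.Agent.Helper927.Dist.A1
import Pool.Agent.Helper927.Dist.A9
set_option autoImplicit false
set_option maxHeartbeats 4000000
universe u v

namespace Pool.Agent.Dist14

/-! ### TARGET: replace the `sorry`s below by proofs (auxiliary lemmas are fine, put them in this file) -/

/-- the module used in `LAdm.idem_lemma` -/
def idemMod {R : Type u} [Ring R] (S : Type) (e : S → R) (g : S → Fin 3) :
    Submodule R (S → R) where
  carrier := {z | (∀ s, z s * e s = z s) ∧ ∃ u v : R, {s | z s ≠ (if g s = 1 then 0 else u * e s) +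
    (if g s = 0 then 0 else v * e s)}.Finite}
  zero_mem' := by
    refine ⟨fun s => by simp, 0, 0, ?_⟩
    convert Set.finite_empty
    ext s
    simp
  add_mem' := by
    rintro z z' ⟨h1, u, v, h2⟩ ⟨h1', u', v', h2'⟩
    refine ⟨fun s => by rw [Pi.add_apply, add_mul, h1, h1'], u + u', v + v', ?_⟩
    refine (h2.union h2').subset fun s hs => ?_
    by_contra hc
    rw [Set.mem_union, not_or] at hc
    obtain ⟨hc1, hc2⟩ := hc
    have e1 : z s = (if g s = 1 then 0 else u * e s) + (if g s = 0 then 0 else v * e s) := by
      by_contra h
      exact hc1 h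
    have e2 : z' s = (if g s = 1 then 0 else u' * e s) + (if g s = 0 then 0 else v' * e s) := by
      by_contra h
      exact hc2 h
    apply hs
    rw [Pi.add_apply, e1, e2]
    split_ifs <;> simp [add_mul] <;> abel
  smul_mem' := by
    rintro r z ⟨h1, u, v, h2⟩
    refine ⟨fun s => by rw [Pi.smul_apply, smul_eq_mul, mul_assoc, h1], r * u, r * v, ?_⟩
    refine h2.subset fun s hs => ?_
    by_contra hc
    have e1 : z s = (if g s = 1 then 0 else u * e s) + (if g s = 0 then 0 else v * e s) := by
      by_contra h
      exact hc h
    apply hs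
    rw [Pi.smul_apply, e1, smul_eq_mul]
    split_ifs <;> simp [mul_add, mul_assoc]

/-- Three-direction lemma for orthogonal central idempotents. -/
theorem LAdm.idem_lemma {R : Type u} [Ring R] (h : LAdm R) (S : Type) (e : S → R)
    (hidem : ∀ s, e s * e s = e s) (hcen : ∀ s r, e s * r = r * e s)
    (horth : ∀ s t, s ≠ t → e s * e t = 0) (g : S → Fin 3) :
    ∃ α : Fin 3 → R, α 0 + α 1 + α 2 = 1 ∧
      ∀ i : Fin 3, {s | g s = i ∧ α i * e s ≠ 0}.Finite := by
  classical
  set M := idemMod S e g with hMdef
  have hM : Steph R M := (steph_iff R M).1 (h M)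
  let ξ : M := ⟨fun s => if g s = 1 then 0 else e s, by
    refine ⟨fun s => ?_, 1, 0, ?_⟩
    · dsimp only
      split_ifs
      · simp
      · exact hidem s
    · convert Set.finite_empty
      ext s
      simp⟩
  let η : M := ⟨fun s => if g s = 0 then 0 else e s, by
    refine ⟨fun s => ?_, 0, 1, ?_⟩
    · dsimp only
      split_ifs
      · simp
      · exact hidem s
    · convert Set.finite_empty
      ext s
      simp⟩
  let δ : S → M := fun s => ⟨Pi.single s (e s), by
    refine ⟨fun t => ?_, 0, 0, ?_⟩
    · by_cases hts : t = s
      · subst hts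
        simp [hidem]
      · simp [Pi.single_eq_of_ne hts]
    · refine (Set.finite_singleton s).subset fun t ht => ?_
      by_contra hc
      apply ht
      have hts : t ≠ s := hc
      simp [Pi.single_eq_of_ne hts]⟩
  let ρ : ∀ _ : S, M →+ R := fun s =>
    { toFun := fun z => z.1 s
      map_zero' := rfl
      map_add' := fun _ _ => rfl }
  have key : ∀ (φ : Module.End R M) (z : M) (s : S), (φ (e s • z)).1 s = (φ z).1 s := by
    intro φ z s
    rw [map_smul]
    show e s * (φ z).1 s = (φ z).1 s
    rw [hcen]
    exact (φ z).2.1 s
  have kξ : ∀ s, e s • ξ = if g s = 1 then 0 else δ s := by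
    intro s
    apply Subtype.ext
    funext t
    by_cases hts : t = s
    · subst hts
      split_ifs with hg
      · show e t * (if g t = 1 then 0 else e t) = 0
        rw [if_pos hg, mul_zero]
      · show e t * (if g t = 1 then 0 else e t) = (Pi.single t (e t) : S → R) t
        rw [if_neg hg, Pi.single_eq_same, hidem]
    · split_ifs with hg
      · show e s * (if g t = 1 then 0 else e t) = 0
        split_ifs
        · rw [mul_zero]
        · exact horth s t (Ne.symm hts)
      · show e s * (if g t = 1 then 0 else e t) = (Pi.single s (e s) : S → R) t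
        rw [Pi.single_eq_of_ne hts]
        split_ifs
        · rw [mul_zero]
        · exact horth s t (Ne.symm hts)
  have kη : ∀ s, e s • η = if g s = 0 then 0 else δ s := by
    intro s
    apply Subtype.ext
    funext t
    by_cases hts : t = s
    · subst hts
      split_ifs with hg
      · show e t * (if g t = 0 then 0 else e t) = 0
        rw [if_pos hg, mul_zero]
      · show e t * (if g t = 0 then 0 else e t) = (Pi.single t (e t) : S → R) t
        rw [if_neg hg, Pi.single_eq_same, hidem]
    · split_ifs with hg
      · show e s * (if g t = 0 then 0 else e t) = 0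
        split_ifs
        · rw [mul_zero]
        · exact horth s t (Ne.symm hts)
      · show e s * (if g t = 0 then 0 else e t) = (Pi.single s (e s) : S → R) t
        rw [Pi.single_eq_of_ne hts]
        split_ifs
        · rw [mul_zero]
        · exact horth s t (Ne.symm hts)
  obtain ⟨ζ, hζ⟩ := three_dir hM (fun _ : S => R) ρ e g ξ η (fun s φ => (φ (δ s)).1 s)
    (by
      intro s
      show (Pi.single s (e s) : S → R) s = e s
      simp)
    (by
      intro s φ ψ
      rfl)
    (by
      intro φ s
      show (φ ξ).1 s = _
      rw [← key φ ξ s, kξ s]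
      split_ifs
      · rw [map_zero]
        rfl
      · rfl)
    (by
      intro φ s
      show (φ η).1 s = _
      rw [← key φ η s, kη s]
      split_ifs
      · rw [map_zero]
        rfl
      · rfl)
  obtain ⟨-, u, v, hfin⟩ := ζ.2
  have hout : ∀ s, s ∉ {s | ζ.1 s ≠ (if g s = 1 then 0 else u * e s) +
      (if g s = 0 then 0 else v * e s)} →
      (if g s = 1 then - e s else 0) = (if g s = 1 then 0 else u * e s) +
      (if g s = 0 then 0 else v * e s) := by
    intro s hs
    have h1 : ζ.1 s = (if g s = 1 then 0 else u * e s) + (if g s = 0 then 0 else v * e s) := by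
      by_contra h
      exact hs h
    rw [← h1]
    exact (hζ s).symm
  refine ⟨![u, 1 + v, -(u + v)], ?_, ?_⟩
  · simp only [Matrix.cons_val_zero, Matrix.cons_val_one, Matrix.cons_val]
    abel
  · intro i
    refine hfin.subset fun s hs => ?_
    obtain ⟨hgs, hne⟩ := hs
    by_contra hc
    have h1 := hout s hc
    apply hne
    fin_cases i
    · have hg : g s = 0 := hgs
      rw [hg] at h1
      simp at h1
      show u * e s = 0
      exact h1.symm
    · have hg : g s = 1 := hgs
      rw [hg] at h1
      simp at h1
      show (1 + v) * e s = 0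
      rw [add_mul, one_mul, ← h1]
      abel
    · have hg : g s = 2 := hgs
      rw [hg] at h1
      simp at h1
      show -(u + v) * e s = 0
      rw [neg_mul, add_mul, ← h1, neg_zero]

end Pool.Agent.Dist14
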