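import Pool.Agent.Helper927.Dist.Defs
import Pool.Agent.Helper927.Dist.A4
import Pool.Agent.Helper927.Dist.A7
import Pool.Agent.Helper927.Dist.A8
set_option autoImplicit false
set_option maxHeartbeats 4000000
universe u v

namespace Pool.Agent.Dist14

/-! ### TARGET: replace the `sorry`s below by proofs (auxiliary lemmas are fine, put them in this file) -/

theorem sup_mul_top {R : Type u} [Ring R] (A B C : Ideal R) [A.IsTwoSided]
    (h1 : A ⊔ B = ⊤) (h2 : A ⊔ C = ⊤) : A ⊔ B * C = ⊤ := by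
  rw [Ideal.eq_top_iff_one] at h1 h2 ⊢
  obtain ⟨a, ha, b, hb, hab⟩ := Submodule.mem_sup.1 h1
  obtain ⟨a', ha', c, hc, hac⟩ := Submodule.mem_sup.1 h2
  refine Submodule.mem_sup.2 ⟨a * (a' + c) + b * a', ?_, b * c, Ideal.mul_mem_mul hb hc, ?_⟩
  · exact A.add_mem (A.mul_mem_right _ ha) (A.mul_mem_left _ ha')
  · have : (a + b) * (a' + c) = 1 := by rw [hab, hac, one_mul]
    rw [← this]
    noncomm_ring

theorem sup_pow_top' {R : Type u} [Ring R] (A B : Ideal R) [A.IsTwoSided] [B.IsTwoSided]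
    (h1 : A ⊔ B = ⊤) (n : ℕ) : A ⊔ B ^ n = ⊤ := by
  induction n with
  | zero => rw [Submodule.pow_zero, Ideal.one_eq_top, sup_top_eq]
  | succ n ih =>
    rw [Ideal.IsTwoSided.pow_succ]
    exact sup_mul_top A B (B ^ n) h1 ih

theorem LDist.inf_pow {R : Type u} [Ring R] (h : LDist R) (X Y : Ideal R)
    (hX : X.IsTwoSided) (hY : Y.IsTwoSided) (hXY : X ⊔ Y = ⊤) (n : ℕ) :
    (X ⊓ Y) ^ n = X ^ n ⊓ Y ^ n := by
  have hcomm : X * Y = Y * X := by
    rw [← h.inf_eq_mul X Y hX hY hXY, ← h.inf_eq_mul Y X hY hX (by rw [sup_comm]; exact hXY),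
      inf_comm]
  have h1 : ∀ n : ℕ, Y * X ^ n = X ^ n * Y := by
    intro n
    induction n with
    | zero => rw [Submodule.pow_zero, Ideal.one_eq_top]; simp
    | succ n ih =>
      rw [Ideal.IsTwoSided.pow_succ, ← Ideal.mul_assoc, ← hcomm, Ideal.mul_assoc, ih,
        Ideal.mul_assoc]
  have h2 : ∀ n : ℕ, (X * Y) ^ n = X ^ n * Y ^ n := by
    intro n
    induction n with
    | zero => rw [Submodule.pow_zero, Submodule.pow_zero, Submodule.pow_zero, Ideal.one_eq_top]; simp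
    | succ n ih =>
      rw [Ideal.IsTwoSided.pow_succ, ih, Ideal.IsTwoSided.pow_succ (I := X),
        Ideal.IsTwoSided.pow_succ (I := Y), Ideal.mul_assoc, Ideal.mul_assoc,
        ← Ideal.mul_assoc (I := Y), h1, Ideal.mul_assoc]
  have h3 : X ^ n ⊔ Y ^ n = ⊤ := by
    have h4 := sup_pow_top' X Y hXY n
    rw [sup_comm] at h4
    have h5 := sup_pow_top' (Y ^ n) X h4 n
    rw [sup_comm]; exact h5
  rw [h.inf_eq_mul X Y hX hY hXY, h2, h.inf_eq_mul (X ^ n) (Y ^ n) inferInstance inferInstance h3]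

end Pool.Agent.Dist14
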