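import Pool.Agent.Helper927.Dist.Defs
import Pool.Agent.Helper927.Dist.A5
import Pool.Agent.Helper927.Dist.A6
import Pool.Agent.Helper927.Dist.A8
import Pool.Agent.Helper927.Dist.D8
set_option autoImplicit false
set_option maxHeartbeats 4000000
universe u v

namespace Pool.Agent.Dist14

/-! ### TARGET: replace the `sorry`s below by proofs (auxiliary lemmas are fine, put them in this file) -/

theorem exists_le_of_sInf_le_aux {R : Type u} [Ring R] (M : Ideal R) (hM : M.IsMaximal)
    (h2 : M.IsTwoSided) (T : Set (Ideal R)) (hT : T.Finite) :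
    (∀ m ∈ T, m.IsTwoSided) → sInf T ≤ M → ∃ m ∈ T, m ≤ M := by
  induction T, hT using Set.Finite.induction_on with
  | empty =>
    intro _ h
    rw [sInf_empty] at h
    exact absurd (top_le_iff.mp h) hM.ne_top
  | @insert a S haS hS ih =>
    intro h2S hle
    by_cases haM : a ≤ M
    · exact ⟨a, Set.mem_insert _ _, haM⟩
    · obtain ⟨x, hxa, hxM⟩ := SetLike.not_le_iff_exists.mp haM
      have ha2 : a.IsTwoSided := h2S a (Set.mem_insert _ _)
      have hSM : sInf S ≤ M := by
        intro y hy
        have h1 : x * y ∈ sInf (insert a S) := by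
          rw [sInf_insert]
          refine ⟨?_, ?_⟩
          · have := ha2
            exact a.mul_mem_right y hxa
          · exact (sInf S).mul_mem_left x hy
        rcases mem_or_mem_of_maximal M hM h2 x y (hle h1) with h3 | h3
        · exact absurd h3 hxM
        · exact h3
      obtain ⟨m, hm, hmM⟩ := ih (fun m hm => h2S m (Set.mem_insert_of_mem _ hm)) hSM
      exact ⟨m, Set.mem_insert_of_mem _ hm, hmM⟩

theorem sInf_isTwoSided_aux {R : Type u} [Ring R] (T : Set (Ideal R))
    (h2 : ∀ m ∈ T, m.IsTwoSided) : (sInf T).IsTwoSided := by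
  refine ⟨?_⟩
  intro a b ha
  rw [Submodule.mem_sInf] at ha ⊢
  intro m hm
  have := h2 m hm
  exact Ideal.mul_mem_right b m (ha m hm)

theorem LDist.sInf_pow_aux {R : Type u} [Ring R] (h : LDist R) (n : ℕ) (T : Set (Ideal R))
    (hT : T.Finite) : (∀ m ∈ T, m.IsMaximal) →
    (sInf T) ^ n = sInf ((fun m : Ideal R => m ^ n) '' T) := by
  induction T, hT using Set.Finite.induction_on with
  | empty =>
    intro _
    rw [Set.image_empty, sInf_empty]
    exact Ideal.top_pow R n
  | @insert a S haS hS ih =>
    intro hmax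
    have ham : a.IsMaximal := hmax a (Set.mem_insert _ _)
    have hSm : ∀ m ∈ S, m.IsMaximal := fun m hm => hmax m (Set.mem_insert_of_mem _ hm)
    have ha2 : a.IsTwoSided := h.maximal_twoSided a ham
    have hS2 : ∀ m ∈ S, m.IsTwoSided := fun m hm => h.maximal_twoSided m (hSm m hm)
    have hsup : a ⊔ sInf S = ⊤ := by
      by_contra hne
      have hle : sInf S ≤ a := by
        have h1 : a = a ⊔ sInf S := ham.eq_of_le hne le_sup_left
        rw [h1]
        exact le_sup_right
      obtain ⟨m, hm, hma⟩ := exists_le_of_sInf_le_aux a ham ha2 S hS hS2 hle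
      have : m = a := (hSm m hm).eq_of_le ham.ne_top hma
      exact haS (this ▸ hm)
    rw [Set.image_insert_eq, sInf_insert, sInf_insert,
      h.inf_pow a (sInf S) ha2 (sInf_isTwoSided_aux S hS2) hsup n, ih hSm]

theorem LDist.jacobson_pow {R : Type u} [Ring R] (h : LDist R)
    (hfin : {m : Ideal R | m.IsMaximal}.Finite) (n : ℕ) :
    (Ring.jacobson R) ^ n = sInf ((fun m : Ideal R => m ^ n) '' {m : Ideal R | m.IsMaximal}) := by
  rw [Ring.jacobson_eq_sInf_isMaximal]
  exact h.sInf_pow_aux n _ hfin (fun m hm => hm)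

end Pool.Agent.Dist14
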