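import Pool.Agent.Helper927.Dist.Defs
import Pool.Agent.Helper927.Dist.D9
set_option autoImplicit false
set_option maxHeartbeats 4000000
universe u v

namespace Pool.Agent.Dist14

/-! ### TARGET: replace the `sorry`s below by proofs (auxiliary lemmas are fine, put them in this file) -/

/-- Stationarity of the powers of the Jacobson radical. -/
theorem jacobson_stable {R : Type u} [Ring R] (h : LDist R)
    (hfin : {m : Ideal R | m.IsMaximal}.Finite)
    (hst : ∀ m : Ideal R, m.IsMaximal → ∃ k : ℕ, m ^ k = m ^ (k + 1)) :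
    ∃ n : ℕ, (Ring.jacobson R) ^ n = (Ring.jacobson R) ^ (n + 1) := by
  classical
  have hch : ∀ m : Ideal R, ∃ k : ℕ, m.IsMaximal → m ^ k = m ^ (k + 1) := by
    intro m
    by_cases hm : m.IsMaximal
    · obtain ⟨k, hk⟩ := hst m hm
      exact ⟨k, fun _ => hk⟩
    · exact ⟨0, fun h => absurd h hm⟩
  choose k hk using hch
  refine ⟨hfin.toFinset.sup k, ?_⟩
  have hall : ∀ m : Ideal R, m.IsMaximal → ∀ j, k m ≤ j → m ^ j = m ^ (j + 1) := by
    intro m hm j hj
    induction j, hj using Nat.le_induction with
    | base => exact hk m hm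
    | succ j hj ih =>
      rw [Submodule.pow_succ m (n := j), Submodule.pow_succ m (n := j + 1), ← ih]
  rw [h.jacobson_pow hfin, h.jacobson_pow hfin]
  congr 1
  apply Set.image_congr
  intro m hm
  apply hall m hm
  apply Finset.le_sup (f := k)
  rw [Set.Finite.mem_toFinset]
  exact hm

end Pool.Agent.Dist14
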