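import Pool.Agent.Helper927.Dist.Defs
import Pool.Agent.Helper927.Dist.A4
import Pool.Agent.Helper927.Dist.C6
set_option autoImplicit false
set_option maxHeartbeats 4000000
universe u v

namespace Pool.Agent.Dist14

/-! ### TARGET: replace the `sorry`s below by proofs (auxiliary lemmas are fine, put them in this file) -/

theorem quot_good {R : Type u} [Ring R] (hl : LDist R) (hr : RDist R)
    (hfin : {m : Ideal R | m.IsMaximal}.Finite) (n : ℕ) :
    IsFiniteProductOfArtinianChainRings (R ⧸ ((Ring.jacobson R) ^ n : Ideal R)) := by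
  set J : Ideal R := Ring.jacobson R with hJ
  have hsurj : Function.Surjective (Ideal.Quotient.mk (J ^ n)) := Ideal.Quotient.mk_surjective
  have hfin' : {m : Ideal (R ⧸ J ^ n) | m.IsMaximal}.Finite := by
    refine Set.Finite.of_injOn (f := fun m => Ideal.comap (Ideal.Quotient.mk (J ^ n)) m) ?_ ?_ hfin
    · intro m hm
      haveI : m.IsMaximal := hm
      exact Ideal.comap_isMaximal_of_surjective (Ideal.Quotient.mk (J ^ n)) hsurj
    · intro m _ m' _ h
      exact Ideal.comap_injective_of_surjective (Ideal.Quotient.mk (J ^ n)) hsurj h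
  refine good_of_nilpotent_jacobson (hl.of_surjective _ hsurj) (hr.of_surjective _ hsurj) hfin' n ?_
  rcases Nat.eq_zero_or_pos n with h0 | h0
  · have h1 : (J ^ n : Ideal R) = ⊤ := by rw [h0, Submodule.pow_zero, Ideal.one_eq_top]
    haveI : Subsingleton (R ⧸ J ^ n) := by
      refine ⟨fun a b => ?_⟩
      obtain ⟨x, rfl⟩ := hsurj a
      obtain ⟨y, rfl⟩ := hsurj b
      rw [Ideal.Quotient.eq, h1]
      trivial
    exact Subsingleton.elim _ _
  · have hle : J ^ n ≤ J := by
      have h1 := Ideal.pow_le_pow_right (I := J) h0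
      have h2 : J ^ (0 + 1) = J := by
        rw [Submodule.pow_succ, Submodule.pow_zero, Submodule.one_mul]
      exact h1.trans h2.le
    have hjac := Ring.jacobson_quotient_of_le (I := J ^ n) hle
    have claim : ∀ k, (Ring.jacobson (R ⧸ J ^ n)) ^ k ≤ Ideal.map (Ideal.Quotient.mk (J ^ n)) (J ^ k) := by
      intro k
      induction k with
      | zero =>
        intro y _
        obtain ⟨x, rfl⟩ := hsurj y
        apply Ideal.mem_map_of_mem
        rw [Submodule.pow_zero, Ideal.one_eq_top]
        trivial
      | succ k ih =>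
        rw [Submodule.pow_succ]
        rw [Ideal.mul_le]
        intro r hr s hs
        obtain ⟨r', hr', rfl⟩ := (Ideal.mem_map_iff_of_surjective _ hsurj).mp (ih hr)
        rw [hjac] at hs
        obtain ⟨s', hs', rfl⟩ := hs
        have h2 : Ideal.Quotient.mk (J ^ n) (r' * s') ∈ Ideal.map (Ideal.Quotient.mk (J ^ n)) (J ^ (k + 1)) := by
          apply Ideal.mem_map_of_mem
          rw [Submodule.pow_succ]
          exact Ideal.mul_mem_mul hr' hs'
        rw [map_mul] at h2
        exact h2
    rw [eq_bot_iff]
    refine (claim n).trans ?_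
    intro y hy
    obtain ⟨x, hx, rfl⟩ := (Ideal.mem_map_iff_of_surjective _ hsurj).mp hy
    rw [Ideal.mem_bot]
    exact Ideal.Quotient.eq_zero_iff_mem.mpr hx

end Pool.Agent.Dist14
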