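import Pool.Agent.Helper927.Dist.Defs
import Pool.Agent.Helper927.Dist.A5
import Pool.Agent.Helper927.Dist.A6
set_option autoImplicit false
set_option maxHeartbeats 4000000
universe u v

namespace Pool.Agent.Dist14

/-! ### TARGET: replace the `sorry`s below by proofs (auxiliary lemmas are fine, put them in this file) -/

open MulOpposite in
/-- The set `op m` as a left ideal of the opposite ring, when `m` is two-sided. -/
def opIdeal {R : Type u} [Ring R] (m : Ideal R) (h2 : m.IsTwoSided) : Ideal Rᵐᵒᵖ where
  carrier := {x | unop x ∈ m}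
  add_mem' := by
    intro a b ha hb
    simp only [Set.mem_setOf_eq, unop_add] at *
    exact m.add_mem ha hb
  zero_mem' := by
    simp only [Set.mem_setOf_eq, unop_zero]
    exact m.zero_mem
  smul_mem' := by
    intro c x hx
    simp only [Set.mem_setOf_eq, smul_eq_mul, unop_mul] at *
    exact h2.mul_mem_of_left _ hx

theorem mem_opIdeal {R : Type u} [Ring R] (m : Ideal R) (h2 : m.IsTwoSided) (x : Rᵐᵒᵖ) :
    x ∈ opIdeal m h2 ↔ MulOpposite.unop x ∈ m := Iff.rfl

theorem opIdeal_isMaximal {R : Type u} [Ring R] (m : Ideal R) (h2 : m.IsTwoSided)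
    (hm : m.IsMaximal) : (opIdeal m h2).IsMaximal := by
  rw [Ideal.isMaximal_iff]
  refine ⟨?_, ?_⟩
  · rw [mem_opIdeal]
    simpa using (Ideal.ne_top_iff_one m).1 hm.ne_top
  · intro J x hJ hx hxJ
    rw [mem_opIdeal] at hx
    obtain ⟨b, -, hb⟩ := inv_mod m hm h2 (MulOpposite.unop x) hx
    have h1 : MulOpposite.op b * x - 1 ∈ J := by
      apply hJ
      rw [mem_opIdeal]
      simpa using hb
    have h3 : MulOpposite.op b * x ∈ J := J.mul_mem_left _ hxJ
    have h4 := J.sub_mem h3 h1
    simpa using h4

theorem finite_maximal_of_op {R : Type u} [Ring R] (hl : LDist R) (hr : RDist R)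
    (hfin : {m : Ideal Rᵐᵒᵖ | m.IsMaximal}.Finite) : {m : Ideal R | m.IsMaximal}.Finite := by
  classical
  refine Set.Finite.of_finite_image (f := fun m : Ideal R =>
    if h : m.IsTwoSided then opIdeal m h else ⊤) (hfin.subset ?_) ?_
  · rintro _ ⟨m, hm, rfl⟩
    have h2 := hl.maximal_twoSided m hm
    simp only [dif_pos h2]
    exact opIdeal_isMaximal m h2 hm
  · intro m hm n hn hmn
    have h2 := hl.maximal_twoSided m hm
    have h3 := hl.maximal_twoSided n hn
    simp only [dif_pos h2, dif_pos h3] at hmn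
    ext x
    have := SetLike.ext_iff.1 hmn (MulOpposite.op x)
    simpa [mem_opIdeal] using this

end Pool.Agent.Dist14
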