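import Pool.Agent.Helper927.Dist.Defs
set_option autoImplicit false
set_option maxHeartbeats 4000000
universe u v

namespace Pool.Agent.Dist14

/-! ### TARGET: replace the `sorry`s below by proofs (auxiliary lemmas are fine, put them in this file) -/

theorem Suppt.sub_subset {R : Type u} [Ring R] {Ω : Type} {supp : R → Set Ω}
    (h : Suppt R Ω supp) (x y : R) : supp (x - y) ⊆ supp x ∪ supp y := by
  rw [sub_eq_add_neg]
  have := h.add x (-y)
  rwa [h.neg] at this

theorem Suppt.compl_idem {R : Type u} [Ring R] {Ω : Type} {supp : R → Set Ω}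
    (h : Suppt R Ω supp) (e : R) (he : e * e = e) : supp (1 - e) = (supp e)ᶜ := by
  have h1 : supp e ∩ supp (1 - e) = ∅ := by
    rw [← h.mul, mul_sub, mul_one, he, sub_self, h.zero]
  have h2 : Set.univ ⊆ supp e ∪ supp (1 - e) := by
    rw [← h.one]
    have := h.add e (1 - e)
    rwa [add_sub_cancel] at this
  ext ω
  constructor
  · intro hω hω2
    have : ω ∈ supp e ∩ supp (1 - e) := ⟨hω2, hω⟩
    rw [h1] at this
    exact this
  · intro hω
    rcases h2 (Set.mem_univ ω) with h3 | h3
    · exact absurd h3 hω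
    · exact h3

theorem Suppt.exists_inter {R : Type u} [Ring R] {Ω : Type} {supp : R → Set Ω}
    (h : Suppt R Ω supp) (x y : R) : ∃ z, supp z = supp x ∩ supp y :=
  ⟨x * y, h.mul x y⟩

theorem Suppt.exists_union {R : Type u} [Ring R] {Ω : Type} {supp : R → Set Ω}
    (h : Suppt R Ω supp) (x y : R) : ∃ z, supp z = supp x ∪ supp y := by
  obtain ⟨e, he, hec, hex⟩ := h.idem x
  obtain ⟨f, hf, hfc, hfy⟩ := h.idem y
  refine ⟨1 - (1 - e) * (1 - f), ?_⟩
  have hcomm : (1 - f) * (1 - e) = (1 - e) * (1 - f) := by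
    have := hec f
    simp only [sub_mul, mul_sub, one_mul, mul_one, this]
    abel
  have h1 : (1 - e) * (1 - e) = 1 - e := by
    simp only [sub_mul, mul_sub, one_mul, mul_one, he]
    abel
  have h2 : (1 - f) * (1 - f) = 1 - f := by
    simp only [sub_mul, mul_sub, one_mul, mul_one, hf]
    abel
  have h3 : ((1 - e) * (1 - f)) * ((1 - e) * (1 - f)) = (1 - e) * (1 - f) := by
    calc ((1 - e) * (1 - f)) * ((1 - e) * (1 - f)) =
          (1 - e) * ((1 - f) * (1 - e)) * (1 - f) := by simp only [mul_assoc]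
      _ = (1 - e) * ((1 - e) * (1 - f)) * (1 - f) := by rw [hcomm]
      _ = ((1 - e) * (1 - e)) * ((1 - f) * (1 - f)) := by simp only [mul_assoc]
      _ = (1 - e) * (1 - f) := by rw [h1, h2]
  rw [h.compl_idem _ h3, h.mul, h.compl_idem e he, h.compl_idem f hf, hex, hfy, Set.compl_inter,
    compl_compl, compl_compl]

theorem Suppt.exists_diff {R : Type u} [Ring R] {Ω : Type} {supp : R → Set Ω}
    (h : Suppt R Ω supp) (x y : R) : ∃ z, supp z = supp x \ supp y := by
  obtain ⟨f, hf, hfc, hfy⟩ := h.idem y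
  refine ⟨x * (1 - f), ?_⟩
  rw [h.mul, h.compl_idem f hf, hfy]
  rfl

/-- restriction of supports along an injective map of index sets -/
theorem Suppt.comap {R : Type u} [Ring R] {Ω Ω' : Type} {supp : R → Set Ω}
    (h : Suppt R Ω supp) (f : Ω' → Ω) : Suppt R Ω' (fun x => f ⁻¹' supp x) where
  zero := by simp only [h.zero, Set.preimage_empty]
  one := by simp only [h.one, Set.preimage_univ]
  neg := fun x => by simp only [h.neg]
  mul := fun x y => by simp only [h.mul, Set.preimage_inter]
  add := fun x y => by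
    rw [← Set.preimage_union]
    exact Set.preimage_mono (h.add x y)
  idem := fun x => by
    obtain ⟨e, he, hec, hex⟩ := h.idem x
    exact ⟨e, he, hec, by rw [hex]⟩

end Pool.Agent.Dist14
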