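import Pool.Agent.Helper927.Dist.Defs
import Pool.Agent.Helper927.Dist.A2
import Pool.Agent.Helper927.Dist.D1
import Pool.Agent.Helper927.Dist.D2
set_option autoImplicit false
set_option maxHeartbeats 4000000
universe u v

namespace Pool.Agent.Dist14

/-! ### TARGET: replace the `sorry`s below by proofs (auxiliary lemmas are fine, put them in this file) -/

/-- If every infinite subset of the countable set `ℕ` contains an infinite support, then `R`
is not admissible. -/
theorem Suppt.not_ladm_of_dense {R : Type u} [Ring R] {supp : R → Set ℕ}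
    (h : Suppt R ℕ supp) (hd : ∀ C : Set ℕ, C.Infinite → ∃ x : R, (supp x).Infinite ∧ supp x ⊆ C) :
    ¬ LAdm R := by
  classical
  intro hL
  obtain ⟨cd, hcd⟩ : ∃ cd : (ℕ → (Fin 3 → Bool)) × ℕ → ℕ → ℕ, ∀ s t n n', cd s n = cd t n' →
      n = n' ∧ s.2 = t.2 ∧ ∀ k < n, s.1 k = t.1 k := by
    refine ⟨fun s n => Encodable.encode ((List.range n).map s.1, s.2), ?_⟩
    intro s t n n' hh
    have h1 := Encodable.encode_injective hh
    rw [Prod.mk.injEq] at h1
    obtain ⟨h1, h2⟩ := h1
    have h3 : n = n' := by simpa using congrArg List.length h1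
    subst h3
    refine ⟨rfl, h2, fun k hk => ?_⟩
    exact List.map_inj_left.1 h1 k (List.mem_range.2 hk)
  have hCinf : ∀ s, (Set.range (cd s)).Infinite := fun s =>
    Set.infinite_range_of_injective (fun n n' hh => (hcd s s n n' hh).1)
  have hCfin : ∀ s t, s ≠ t → (Set.range (cd s) ∩ Set.range (cd t)).Finite := by
    intro s t hst
    by_cases h2 : s.2 = t.2
    · have h1 : s.1 ≠ t.1 := fun h1 => hst (Prod.ext h1 h2)
      obtain ⟨k, hk⟩ := Function.ne_iff.1 h1
      refine ((Set.finite_Iic k).image (cd s)).subset ?_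
      rintro _ ⟨⟨n, rfl⟩, ⟨n', hn'⟩⟩
      refine ⟨n, ?_, rfl⟩
      rw [Set.mem_Iic]
      by_contra hn
      have h3 := hcd t s n' n hn'
      exact hk (h3.2.2 k (by omega)).symm
    · convert Set.finite_empty (α := ℕ)
      rw [Set.eq_empty_iff_forall_notMem]
      rintro _ ⟨⟨n, rfl⟩, ⟨n', hn'⟩⟩
      exact h2 (hcd t s n' n hn').2.1.symm
  choose x hx1 hx2 using fun s => hd (Set.range (cd s)) (hCinf s)
  choose ε hε1 hε2 hε3 using fun s => h.idem (x s)
  let F : Ideal R :=
    { carrier := {x | (supp x).Finite}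
      zero_mem' := by
        show (supp 0).Finite
        rw [h.zero]; exact Set.finite_empty
      add_mem' := by
        intro a b ha hb
        exact (Set.Finite.union ha hb).subset (h.add a b)
      smul_mem' := by
        intro r a ha
        show (supp (r * a)).Finite
        rw [h.mul]
        exact Set.Finite.subset ha Set.inter_subset_right }
  have hF : ∀ a, a ∈ F ↔ (supp a).Finite := fun a => Iff.rfl
  haveI : F.IsTwoSided := ⟨by
    intro a b ha
    rw [hF, h.mul]
    exact Set.Finite.subset ha Set.inter_subset_left⟩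
  have hQ : LAdm (R ⧸ F) := LAdm.of_surjective (Ideal.Quotient.mk F) Ideal.Quotient.mk_surjective hL
  obtain ⟨T, hT⟩ : ∃ T : (ℕ → (Fin 3 → Bool)) → Fin 3 → Set ℕ, ∀ f i n, n ∈ T f i ↔ f n i = true :=
    ⟨fun f i => {n | f n i = true}, fun f i n => Iff.rfl⟩
  obtain ⟨g, hg⟩ : ∃ g : (ℕ → (Fin 3 → Bool)) × ℕ → Fin 3, ∀ s,
      (∃ i, (T s.1 i ∩ supp (x s)).Infinite) → (T s.1 (g s) ∩ supp (x s)).Infinite := by
    refine ⟨fun s => if hs : ∃ i, (T s.1 i ∩ supp (x s)).Infinite then hs.choose else 0, ?_⟩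
    intro s hs
    simp only [dif_pos hs]
    exact hs.choose_spec
  obtain ⟨α, hα1, hα2⟩ := LAdm.idem_lemma hQ ((ℕ → (Fin 3 → Bool)) × ℕ)
    (fun s => Ideal.Quotient.mk F (ε s))
    (fun s => by rw [← map_mul, hε1])
    (fun s r => by
      obtain ⟨r, rfl⟩ := Ideal.Quotient.mk_surjective r
      rw [← map_mul, ← map_mul, hε2])
    (fun s t hst => by
      rw [← map_mul, Ideal.Quotient.eq_zero_iff_mem, hF, h.mul, hε3, hε3]
      exact (hCfin s t hst).subset (Set.inter_subset_inter (hx2 s) (hx2 t))) g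
  choose a ha using fun i => Ideal.Quotient.mk_surjective (I := F) (α i)
  have h1 : (supp (a 0 + a 1 + a 2 - 1)).Finite := by
    rw [← hF, ← Ideal.Quotient.eq_zero_iff_mem, map_sub, map_add, map_add, ha, ha, ha, hα1, map_one,
      sub_self]
  have h2 : (Set.univ : Set ℕ) ⊆ (supp (a 0) ∪ supp (a 1) ∪ supp (a 2))
      ∪ supp (a 0 + a 1 + a 2 - 1) := by
    rw [← h.one]
    have e1 : (1 : R) = (a 0 + a 1 + a 2) - (a 0 + a 1 + a 2 - 1) := by
      rw [sub_sub_cancel]
    conv_lhs => rw [e1]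
    refine (h.sub_subset _ _).trans (Set.union_subset_union_left _ ?_)
    exact (h.add _ _).trans (Set.union_subset_union_left _ (h.add _ _))
  obtain ⟨f, hf⟩ : ∃ f : ℕ → (Fin 3 → Bool), ∀ n i, f n i = true ↔ n ∈ supp (a i) :=
    ⟨fun n i => decide (n ∈ supp (a i)), fun n i => by simp⟩
  have hTf : ∀ i, T f i = supp (a i) := by
    intro i
    ext n
    rw [hT, hf]
  have hj : ∀ j, (T f (g (f, j)) ∩ supp (x (f, j))).Infinite := by
    intro j
    refine hg (f, j) ?_
    by_contra hcon
    push Not at hcon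
    have h3 : ∀ i, (supp (a i) ∩ supp (x (f, j))).Finite := by
      intro i
      have := hcon i
      simp only [hTf] at this
      exact this
    refine hx1 (f, j) ?_
    refine ((((h3 0).union (h3 1)).union (h3 2)).union h1).subset ?_
    intro n hn
    have h4 := h2 (Set.mem_univ n)
    rcases h4 with ((h4 | h4) | h4) | h4
    · exact Or.inl (Or.inl (Or.inl ⟨h4, hn⟩))
    · exact Or.inl (Or.inl (Or.inr ⟨h4, hn⟩))
    · exact Or.inl (Or.inr ⟨h4, hn⟩)
    · exact Or.inr h4
  have h5 : ∀ j, α (g (f, j)) * Ideal.Quotient.mk F (ε (f, j)) ≠ 0 := by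
    intro j h0
    rw [← ha, ← map_mul, Ideal.Quotient.eq_zero_iff_mem, hF, h.mul, hε3] at h0
    have := hj j
    rw [hTf] at this
    exact this h0
  have h6 : (Set.range fun j : ℕ => (f, j)) ⊆ ⋃ i : Fin 3, {s | g s = i ∧
      α i * Ideal.Quotient.mk F (ε s) ≠ 0} := by
    rintro _ ⟨j, rfl⟩
    rw [Set.mem_iUnion]
    exact ⟨g (f, j), rfl, h5 j⟩
  have h7 : (Set.range fun j : ℕ => (f, j)).Finite := (Set.finite_iUnion hα2).subset h6
  exact Set.infinite_range_of_injective (fun j j' hjj => (Prod.mk.injEq _ _ _ _ ▸ hjj).2) h7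

end Pool.Agent.Dist14
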