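import Pool.Agent.Helper927.Dist.Defs
import Pool.Agent.Helper927.Dist.A2
import Pool.Agent.Helper927.Dist.D1
import Pool.Agent.Helper927.Dist.D2
import Pool.Agent.Helper927.Dist.D3
set_option autoImplicit false
set_option maxHeartbeats 4000000
universe u v

namespace Pool.Agent.Dist14

/-! ### TARGET: replace the `sorry`s below by proofs (auxiliary lemmas are fine, put them in this file) -/

/-- Supports containing all singletons. -/
theorem Suppt.not_ladm {R : Type u} [Ring R] {supp : R → Set ℕ}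
    (h : Suppt R ℕ supp) (e : ℕ → R) (hidem : ∀ n, e n * e n = e n)
    (hcen : ∀ n r, e n * r = r * e n) (horth : ∀ s t, s ≠ t → e s * e t = 0)
    (hsupp : ∀ n, supp (e n) = {n}) : ¬ LAdm R := by
  classical
  intro hL
  have hfin : ∀ F : Set ℕ, F.Finite → ∃ x : R, supp x = F := by
    intro F hF
    induction F, hF using Set.Finite.induction_on with
    | empty => exact ⟨0, h.zero⟩
    | insert _ _ ih =>
      rename_i n F _ _
      obtain ⟨x, hx⟩ := ih
      obtain ⟨z, hz⟩ := h.exists_union (e n) x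
      exact ⟨z, by rw [hz, hsupp, hx, Set.insert_eq]⟩
  by_cases hd : ∀ C : Set ℕ, C.Infinite → ∃ x : R, (supp x).Infinite ∧ supp x ⊆ C
  · exact h.not_ladm_of_dense hd hL
  push Not at hd
  obtain ⟨C, hC, hCx⟩ := hd
  have hCfin : ∀ x : R, supp x ⊆ C → (supp x).Finite := by
    intro x hx
    by_contra hinf
    exact hCx x hinf hx
  have hclaim : ∀ X : Set ℕ, X ⊆ C → ∃ y : R, supp y ∩ C = X := by
    intro X hX
    obtain ⟨α, hsum, hα⟩ := hL.idem_lemma ℕ e hidem hcen horth
      (fun n => if n ∈ X then 0 else if n ∈ C then 1 else 2)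
    have hne : ∀ i n, n ∈ supp (α i) → α i * e n ≠ 0 := by
      intro i n hn h0
      have h1 : n ∈ supp (α i * e n) := by
        rw [h.mul, hsupp]
        exact ⟨hn, rfl⟩
      rw [h0, h.zero] at h1
      exact h1
    have hS0 : (supp (α 0) ∩ X).Finite := by
      refine (hα 0).subset ?_
      rintro n ⟨hn, hnX⟩
      exact ⟨by simp [hnX], hne 0 n hn⟩
    have hS1 : (supp (α 1) ∩ (C \ X)).Finite := by
      refine (hα 1).subset ?_
      rintro n ⟨hn, hnC, hnX⟩
      exact ⟨by simp [hnX, hnC], hne 1 n hn⟩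
    have hS2 : (supp (α 2) ∩ Cᶜ).Finite := by
      refine (hα 2).subset ?_
      rintro n ⟨hn, hnC⟩
      have hnC' : n ∉ C := hnC
      have hnX : n ∉ X := fun hx => hnC (hX hx)
      exact ⟨by simp [hnX, hnC'], hne 2 n hn⟩
    obtain ⟨z2, hz2⟩ := hfin _ hS2
    obtain ⟨z, hz⟩ := h.exists_diff (α 2) z2
    have hzC : supp z ⊆ C := by
      rw [hz, hz2]
      rintro n ⟨hn, hn'⟩
      by_contra hnC
      exact hn' ⟨hn, hnC⟩
    have hS3 : (supp (α 2) ∩ C).Finite := by
      refine (hCfin z hzC).subset ?_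
      rw [hz, hz2]
      rintro n ⟨hn, hnC⟩
      exact ⟨hn, fun h' => h'.2 hnC⟩
    have hA : (X \ supp (α 1)).Finite := by
      refine (hS0.union hS3).subset ?_
      rintro n ⟨hnX, hn1⟩
      have hu : n ∈ supp (1 : R) := by rw [h.one]; trivial
      rw [← hsum] at hu
      rcases h.add _ _ hu with hu | hu
      · rcases h.add _ _ hu with hu | hu
        · exact Or.inl ⟨hu, hnX⟩
        · exact absurd hu hn1
      · exact Or.inr ⟨hu, hX hnX⟩
    obtain ⟨xA, hxA⟩ := hfin _ hA
    obtain ⟨xB, hxB⟩ := hfin _ hS1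
    obtain ⟨u, hu⟩ := h.exists_union (α 1) xA
    obtain ⟨y, hy⟩ := h.exists_diff u xB
    refine ⟨y, ?_⟩
    rw [hy, hu, hxA, hxB]
    ext n
    have hXC : n ∈ X → n ∈ C := fun h' => hX h'
    simp only [Set.mem_inter_iff, Set.mem_diff, Set.mem_union]
    tauto
  let f := hC.natEmbedding C
  have hf := h.comap (fun n => ((f n : C) : ℕ))
  refine hf.not_ladm_of_dense ?_ hL
  intro C' hC'
  obtain ⟨y, hy⟩ := hclaim ((fun n => ((f n : C) : ℕ)) '' C') (by
    rintro _ ⟨n, _, rfl⟩
    exact (f n).2)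
  have hyC : (fun n => ((f n : C) : ℕ)) ⁻¹' supp y = C' := by
    ext n
    constructor
    · intro hn
      have h1 : ((f n : C) : ℕ) ∈ supp y ∩ C := ⟨hn, (f n).2⟩
      rw [hy] at h1
      obtain ⟨m, hm, hmn⟩ := h1
      have h2 : m = n := f.injective (Subtype.ext hmn)
      rwa [← h2]
    · intro hn
      have h1 : ((f n : C) : ℕ) ∈ supp y ∩ C := by
        rw [hy]
        exact ⟨n, hn, rfl⟩
      exact h1.1
  refine ⟨y, ?_, ?_⟩
  · show ((fun n => ((f n : C) : ℕ)) ⁻¹' supp y).Infinite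
    rw [hyC]; exact hC'
  · show ((fun n => ((f n : C) : ℕ)) ⁻¹' supp y) ⊆ C'
    rw [hyC]

end Pool.Agent.Dist14
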