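import Pool.Agent.Helper927.Dist.Defs
import Pool.Agent.Helper927.Dist.A2
set_option autoImplicit false
set_option maxHeartbeats 4000000
universe u v

namespace Pool.Agent.Dist14

/-! ### TARGET: replace the `sorry`s below by proofs (auxiliary lemmas are fine, put them in this file) -/

theorem qClosed_smul_aux {P : Type u} [Ring P] (X : Set P) {M : Type u} [AddCommGroup M]
    [Module (qSubring X) M] (φ : M →+ M)
    (h : ∀ x ∈ X, ∀ (hx : x ∈ qSubring X) (z : M),
      φ ((⟨x, hx⟩ : qSubring X) • z) = (⟨x, hx⟩ : qSubring X) • φ z) :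
    ∀ x, QClosed X x → ∀ (hx : x ∈ qSubring X) (z : M),
      φ ((⟨x, hx⟩ : qSubring X) • z) = (⟨x, hx⟩ : qSubring X) • φ z := by
  intro x hx
  induction hx with
  | of x hx' => exact h x hx'
  | zero =>
    intro hx z
    have : (⟨0, hx⟩ : qSubring X) = 0 := rfl
    rw [this, zero_smul, zero_smul, map_zero]
  | one =>
    intro hx z
    have : (⟨1, hx⟩ : qSubring X) = 1 := rfl
    rw [this, one_smul, one_smul]
  | add x y hx hy ihx ihy =>
    intro hxy z
    have hx : x ∈ qSubring X := hx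
    have hy : y ∈ qSubring X := hy
    have : (⟨x + y, hxy⟩ : qSubring X) = ⟨x, hx⟩ + ⟨y, hy⟩ := rfl
    rw [this, add_smul, add_smul, map_add, ihx, ihy]
  | neg x hx ih =>
    intro hx' z
    have hx : x ∈ qSubring X := hx
    have : (⟨-x, hx'⟩ : qSubring X) = -⟨x, hx⟩ := rfl
    rw [this, neg_smul, neg_smul, map_neg, ih]
  | mul x y hx hy ihx ihy =>
    intro hxy z
    have hx : x ∈ qSubring X := hx
    have hy : y ∈ qSubring X := hy
    have : (⟨x * y, hxy⟩ : qSubring X) = ⟨x, hx⟩ * ⟨y, hy⟩ := rfl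
    rw [this, mul_smul, mul_smul, ihx, ihy]
  | qinv x y hx hxy ih =>
    intro hy z
    have hx : x ∈ qSubring X := hx
    obtain ⟨h1, h2, h3⟩ := hxy
    have ha : ∀ z : M, φ ((⟨x, hx⟩ : qSubring X) • z) = (⟨x, hx⟩ : qSubring X) • φ z := ih hx
    have hab : (⟨x, hx⟩ : qSubring X) * ⟨y, hy⟩ * ⟨x, hx⟩ = ⟨x, hx⟩ := Subtype.ext h1
    have hba : (⟨y, hy⟩ : qSubring X) * ⟨x, hx⟩ * ⟨y, hy⟩ = ⟨y, hy⟩ := Subtype.ext h2
    have hc : (⟨x, hx⟩ : qSubring X) * ⟨y, hy⟩ = ⟨y, hy⟩ * ⟨x, hx⟩ := Subtype.ext h3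
    generalize (⟨x, hx⟩ : qSubring X) = a at *
    generalize (⟨y, hy⟩ : qSubring X) = b at *
    have e1 : ∀ z : M, φ ((a * b) • z) = a • φ (b • z) := fun z => by rw [mul_smul, ha]
    have e2 : ∀ z : M, (a * b) • φ ((a * b) • z) = φ ((a * b) • z) := fun z => by
      rw [e1, ← mul_smul, hab]
    have e3 : ∀ z : M, a • φ ((a * b) • z) = a • φ z := fun z => by
      rw [← ha, ← mul_smul, ← ha]
      congr 2
      rw [hc, ← mul_assoc, hab]
    have e4 : ∀ z : M, φ ((a * b) • z) = (a * b) • φ z := fun z => by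
      rw [← e2 z, hc, mul_smul b a (φ _), ← hc, e3, ← mul_smul, hc]
    have e5 : (a * b) * b = b := by rw [hc, hba]
    calc φ (b • z) = φ ((a * b) • (b • z)) := by rw [← mul_smul, e5]
      _ = (b * a) • φ (b • z) := by rw [e4, hc]
      _ = b • φ ((a * b) • z) := by rw [mul_smul, e1]
      _ = b • φ z := by rw [e4, ← mul_smul, ← mul_assoc, hba]

theorem LAdm.qSubring {R P : Type u} [Ring R] [Ring P] (f : R →+* P) (h : LAdm R) :
    LAdm (qSubring (Set.range f)) := by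
  refine LAdm.of_epi
    (f.codRestrict (Pool.Agent.Dist14.qSubring (Set.range f)) (fun r => QClosed.of _ ⟨r, rfl⟩)) ?_ h
  intro M _ _ φ hφ s z
  refine qClosed_smul_aux (Set.range f) φ ?_ s.1 s.2 s.2 z
  rintro _ ⟨r, rfl⟩ hx z
  exact hφ r z

end Pool.Agent.Dist14
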