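import Pool.Agent.Helper927.Dist.Defs
import Pool.Agent.Helper927.Dist.D2
import Pool.Agent.Helper927.Dist.D4
set_option autoImplicit false
set_option maxHeartbeats 4000000
universe u v

namespace Pool.Agent.Dist14

/-! ### TARGET: replace the `sorry`s below by proofs (auxiliary lemmas are fine, put them in this file) -/

/-- central idempotent -/
def CI {R : Type u} [Ring R] (f : R) : Prop := f * f = f ∧ ∀ r, f * r = r * f

theorem CI.mul {R : Type u} [Ring R] {f g : R} (hf : CI f) (hg : CI g) : CI (f * g) := by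
  refine ⟨?_, fun r => ?_⟩
  · calc f * g * (f * g) = f * (g * f) * g := by simp only [mul_assoc]
      _ = f * (f * g) * g := by rw [hg.2 f]
      _ = (f * f) * (g * g) := by simp only [mul_assoc]
      _ = f * g := by rw [hf.1, hg.1]
  · rw [mul_assoc, hg.2 r, ← mul_assoc, hf.2 r, mul_assoc]

theorem CI.one_sub {R : Type u} [Ring R] {f : R} (hf : CI f) : CI (1 - f) := by
  refine ⟨?_, fun r => ?_⟩
  · rw [mul_sub, sub_mul, sub_mul, hf.1]; simp
  · rw [sub_mul, mul_sub, hf.2 r]; simp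

theorem Suppt.sep_step {R : Type u} [Ring R] {Ω : Type} {supp : R → Set Ω}
    (h : Suppt R Ω supp) (hsep : ∀ n k : Ω, n ≠ k → ∃ x, n ∈ supp x ∧ k ∉ supp x)
    (f : R) (hf : CI f) (hinf : (supp f).Infinite) :
    ∃ f' : R, CI f' ∧ (supp f').Infinite ∧ f' * f = f' ∧ (supp f \ supp f').Nonempty := by
  obtain ⟨n, hn, k, hk, hnk⟩ := hinf.nontrivial
  obtain ⟨x, hx1, hx2⟩ := hsep n k hnk
  obtain ⟨e, he1, he2, he3⟩ := h.idem x
  have hCe : CI e := ⟨he1, he2⟩
  have hc := h.compl_idem e he1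
  have hs1 : supp (f * e) = supp f ∩ supp e := h.mul f e
  have hs2 : supp (f * (1 - e)) = supp f ∩ (supp e)ᶜ := by rw [h.mul, hc]
  have hne : n ∈ supp e := by rw [he3]; exact hx1
  have hke : k ∉ supp e := by rw [he3]; exact hx2
  by_cases hi : (supp f ∩ supp e).Infinite
  · refine ⟨f * e, hf.mul hCe, by rw [hs1]; exact hi, ?_, k, hk, ?_⟩
    · rw [mul_assoc, he2 f, ← mul_assoc, hf.1]
    · rw [hs1]; exact fun h => hke h.2
  · have hi2 : (supp f ∩ (supp e)ᶜ).Infinite := by
      intro hfin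
      apply hinf
      rw [← Set.inter_union_compl (supp f) (supp e)]
      exact (Set.not_infinite.1 hi).union hfin
    refine ⟨f * (1 - e), hf.mul hCe.one_sub, by rw [hs2]; exact hi2, ?_, n, hn, ?_⟩
    · rw [mul_assoc, hCe.one_sub.2 f, ← mul_assoc, hf.1]
    · rw [hs2]; exact fun h => h.2 hne

/-- Infinite index set whose points are separated by supports. -/
theorem Suppt.not_ladm_of_sep {R : Type u} [Ring R] {Ω : Type} [Infinite Ω] {supp : R → Set Ω}
    (h : Suppt R Ω supp) (hsep : ∀ n k : Ω, n ≠ k → ∃ x, n ∈ supp x ∧ k ∉ supp x) :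
    ¬ LAdm R := by
  let P := {f : R // CI f ∧ (supp f).Infinite}
  have hstep : ∀ p : P, ∃ q : P, q.1 * p.1 = q.1 ∧ (supp p.1 \ supp q.1).Nonempty := by
    intro p
    obtain ⟨f', h1, h2, h3, h4⟩ := h.sep_step hsep p.1 p.2.1 p.2.2
    exact ⟨⟨f', h1, h2⟩, h3, h4⟩
  choose st hst1 hst2 using hstep
  have h1 : CI (1 : R) := ⟨mul_one 1, fun r => by rw [one_mul, mul_one]⟩
  let F : ℕ → P := fun n => Nat.rec ⟨1, h1, by rw [h.one]; exact Set.infinite_univ⟩
    (fun _ p => st p) n
  have hF : ∀ n, F (n + 1) = st (F n) := fun n => rfl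
  obtain ⟨f, hf⟩ : ∃ f : ℕ → R, f = fun n => (F n).1 := ⟨_, rfl⟩
  have hfC : ∀ n, CI (f n) := by rw [hf]; exact fun n => (F n).2.1
  have hfm : ∀ n, f (n + 1) * f n = f (n + 1) := by
    intro n
    rw [hf]
    change (F (n + 1)).1 * (F n).1 = (F (n + 1)).1
    rw [hF]
    exact hst1 (F n)
  have hfd : ∀ n, (supp (f n) \ supp (f (n + 1))).Nonempty := by
    intro n
    rw [hf]
    change (supp (F n).1 \ supp (F (n + 1)).1).Nonempty
    rw [hF]
    exact hst2 (F n)
  clear_value F
  have hmono : ∀ i j, i ≤ j → f j * f i = f j := by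
    intro i j hij
    induction j, hij using Nat.le_induction with
    | base => exact (hfC i).1
    | succ j hj ih => rw [← hfm j, mul_assoc, ih]
  obtain ⟨e, he⟩ : ∃ e : ℕ → R, e = fun n => f n * (1 - f (n + 1)) := ⟨_, rfl⟩
  have heC : ∀ n, CI (e n) := by
    rw [he]; exact fun n => (hfC n).mul (hfC (n + 1)).one_sub
  have hes : ∀ n, supp (e n) = supp (f n) \ supp (f (n + 1)) := by
    intro n
    rw [he]
    change supp (f n * (1 - f (n + 1))) = _
    rw [h.mul, h.compl_idem _ (hfC (n + 1)).1]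
    rfl
  have horth' : ∀ i j, i < j → e i * e j = 0 := by
    intro i j hij
    have h2 : (1 - f (i + 1)) * f j = 0 := by
      rw [sub_mul, one_mul, (hfC (i + 1)).2, hmono (i + 1) j hij, sub_self]
    rw [he]
    change f i * (1 - f (i + 1)) * (f j * (1 - f (j + 1))) = 0
    rw [← mul_assoc, mul_assoc (f i), h2, mul_zero, zero_mul]
  have horth : ∀ i j, i ≠ j → e i * e j = 0 := by
    intro i j hij
    rcases lt_or_gt_of_ne hij with h2 | h2
    · exact horth' i j h2
    · rw [(heC i).2, horth' j i h2]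
  have hκ : ∀ n, ∃ k, k ∈ supp (e n) := by
    intro n
    rw [hes]
    exact hfd n
  choose κ hκ using hκ
  refine (h.comap κ).not_ladm e (fun n => (heC n).1) (fun n => (heC n).2) horth ?_
  intro j
  ext i
  rw [Set.mem_preimage, Set.mem_singleton_iff]
  constructor
  · intro hi
    by_contra hne
    have h2 : κ i ∈ supp (e i * e j) := by
      rw [h.mul]; exact ⟨hκ i, hi⟩
    rw [horth i j hne, h.zero] at h2
    exact h2
  · rintro rfl
    exact hκ i

end Pool.Agent.Dist14
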