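import Pool.Agent.Helper927.Dist.Defs
import Pool.Agent.Helper927.Dist.A2
import Pool.Agent.Helper927.Dist.A3
import Pool.Agent.Helper927.Dist.A5
import Pool.Agent.Helper927.Dist.A6
import Pool.Agent.Helper927.Dist.D5
import Pool.Agent.Helper927.Dist.D6
set_option autoImplicit false
set_option maxHeartbeats 4000000
universe u v

namespace Pool.Agent.Dist14

/-! ### TARGET: replace the `sorry`s below by proofs (auxiliary lemmas are fine, put them in this file) -/

section finmax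

variable {R : Type u} [Ring R] (m : ℕ → Ideal R) [∀ n, (m n).IsTwoSided]

/-- the canonical map -/
def fmF : R →+* (∀ n, R ⧸ m n) := RingHom.pi fun n => Ideal.Quotient.mk (m n)

variable {m}

theorem fm_one_ne (hmax : ∀ n, (m n).IsMaximal) (n : ℕ) : (1 : R ⧸ m n) ≠ 0 := by
  intro h
  have h1 : Ideal.Quotient.mk (m n) 1 = 0 := by rw [map_one]; exact h
  rw [Ideal.Quotient.eq_zero_iff_mem] at h1
  exact (hmax n).ne_top ((Ideal.eq_top_iff_one _).2 h1)

theorem fm_mul (hmax : ∀ n, (m n).IsMaximal) (n : ℕ) (x y : R ⧸ m n) (h : x * y = 0) :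
    x = 0 ∨ y = 0 := by
  obtain ⟨a, rfl⟩ := Ideal.Quotient.mk_surjective x
  obtain ⟨b, rfl⟩ := Ideal.Quotient.mk_surjective y
  rw [← map_mul, Ideal.Quotient.eq_zero_iff_mem] at h
  rw [Ideal.Quotient.eq_zero_iff_mem, Ideal.Quotient.eq_zero_iff_mem]
  exact mem_or_mem_of_maximal (m n) (hmax n) inferInstance a b h

theorem fm_inv (hmax : ∀ n, (m n).IsMaximal) (n : ℕ) (x : R ⧸ m n) (h : x ≠ 0) :
    ∃ y : R ⧸ m n, y * x = 1 ∧ x * y = 1 := by
  obtain ⟨a, rfl⟩ := Ideal.Quotient.mk_surjective x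
  rw [Ne, Ideal.Quotient.eq_zero_iff_mem] at h
  obtain ⟨b, h1, h2⟩ := inv_mod (m n) (hmax n) inferInstance a h
  refine ⟨Ideal.Quotient.mk (m n) b, ?_, ?_⟩
  · have := Ideal.Quotient.eq_zero_iff_mem.2 h1
    rw [map_sub, map_mul, map_one, sub_eq_zero] at this
    exact this
  · have := Ideal.Quotient.eq_zero_iff_mem.2 h2
    rw [map_sub, map_mul, map_one, sub_eq_zero] at this
    exact this

theorem fm_false (h : LAdm R) (hmax : ∀ n, (m n).IsMaximal) (hinj : Function.Injective m) :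
    False := by
  classical
  let R' := qSubring (Set.range (fmF m))
  have hR' : LAdm R' := LAdm.qSubring (fmF m) h
  let supp : R' → Set ℕ := fun x => {n | (x : ∀ n, R ⧸ m n) n ≠ 0}
  have hs : Suppt R' ℕ supp := by
    refine ⟨?_, ?_, ?_, ?_, ?_, ?_⟩
    · ext n
      simp [supp]
    · ext n
      simp only [supp, Set.mem_ofPred_eq, Set.mem_univ, iff_true]
      exact fm_one_ne hmax n
    · intro x
      ext n
      simp [supp]
    · intro x y
      ext n
      simp only [supp, Set.mem_ofPred_eq, Set.mem_inter_iff]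
      show (x : ∀ n, R ⧸ m n) n * (y : ∀ n, R ⧸ m n) n ≠ 0 ↔ _
      constructor
      · intro hxy
        constructor
        · intro h0; exact hxy (by rw [h0, zero_mul])
        · intro h0; exact hxy (by rw [h0, mul_zero])
      · rintro ⟨h1, h2⟩ h0
        rcases fm_mul hmax n _ _ h0 with h3 | h3
        exacts [h1 h3, h2 h3]
    · intro x y n hn
      simp only [supp, Set.mem_ofPred_eq, Set.mem_union] at hn ⊢
      by_contra hcon
      push Not at hcon
      apply hn
      show (x : ∀ n, R ⧸ m n) n + (y : ∀ n, R ⧸ m n) n = 0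
      rw [hcon.1, hcon.2, add_zero]
    · intro x
      have hy : ∀ n, ∃ y : R ⧸ m n,
          ((x : ∀ n, R ⧸ m n) n ≠ 0 → y * (x : ∀ n, R ⧸ m n) n = 1 ∧
            (x : ∀ n, R ⧸ m n) n * y = 1) ∧ ((x : ∀ n, R ⧸ m n) n = 0 → y = 0) := by
        intro n
        by_cases h0 : (x : ∀ n, R ⧸ m n) n = 0
        · exact ⟨0, fun h1 => absurd h0 h1, fun _ => rfl⟩
        · obtain ⟨y, h1, h2⟩ := fm_inv hmax n _ h0
          exact ⟨y, fun _ => ⟨h1, h2⟩, fun h3 => absurd h3 h0⟩
      choose y hy1 hy2 using hy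
      have hq : IsQInv (x : ∀ n, R ⧸ m n) y := by
        refine ⟨?_, ?_, ?_⟩
        · funext n
          show (x : ∀ n, R ⧸ m n) n * y n * (x : ∀ n, R ⧸ m n) n = (x : ∀ n, R ⧸ m n) n
          by_cases h0 : (x : ∀ n, R ⧸ m n) n = 0
          · rw [h0, mul_zero]
          · rw [(hy1 n h0).2, one_mul]
        · funext n
          show y n * (x : ∀ n, R ⧸ m n) n * y n = y n
          by_cases h0 : (x : ∀ n, R ⧸ m n) n = 0
          · rw [hy2 n h0, mul_zero]
          · rw [(hy1 n h0).1, one_mul]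
        · funext n
          show (x : ∀ n, R ⧸ m n) n * y n = y n * (x : ∀ n, R ⧸ m n) n
          by_cases h0 : (x : ∀ n, R ⧸ m n) n = 0
          · rw [hy2 n h0, mul_zero, zero_mul]
          · rw [(hy1 n h0).1, (hy1 n h0).2]
      have hyR : y ∈ R' := QClosed.qinv _ _ x.2 hq
      have hcase : ∀ n, ((x : ∀ n, R ⧸ m n) n = 0 ∧ (x : ∀ n, R ⧸ m n) n * y n = 0) ∨
          ((x : ∀ n, R ⧸ m n) n ≠ 0 ∧ (x : ∀ n, R ⧸ m n) n * y n = 1) := by
        intro n
        by_cases h0 : (x : ∀ n, R ⧸ m n) n = 0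
        · exact Or.inl ⟨h0, by rw [h0, zero_mul]⟩
        · exact Or.inr ⟨h0, (hy1 n h0).2⟩
      refine ⟨x * ⟨y, hyR⟩, ?_, ?_, ?_⟩
      · apply Subtype.ext
        funext n
        show ((x : ∀ n, R ⧸ m n) n * y n) * ((x : ∀ n, R ⧸ m n) n * y n) =
          (x : ∀ n, R ⧸ m n) n * y n
        rcases hcase n with ⟨-, h0⟩ | ⟨-, h0⟩
        · rw [h0, mul_zero]
        · rw [h0, mul_one]
      · intro r
        apply Subtype.ext
        funext n
        show ((x : ∀ n, R ⧸ m n) n * y n) * (r : ∀ n, R ⧸ m n) n =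
          (r : ∀ n, R ⧸ m n) n * ((x : ∀ n, R ⧸ m n) n * y n)
        rcases hcase n with ⟨-, h0⟩ | ⟨-, h0⟩
        · rw [h0, mul_zero, zero_mul]
        · rw [h0, mul_one, one_mul]
      · ext n
        simp only [supp, Set.mem_ofPred_eq]
        show (x : ∀ n, R ⧸ m n) n * y n ≠ 0 ↔ (x : ∀ n, R ⧸ m n) n ≠ 0
        rcases hcase n with ⟨h1, h0⟩ | ⟨h1, h0⟩
        · rw [h0, h1]
        · rw [h0]
          exact ⟨fun _ => h1, fun _ => fm_one_ne hmax n⟩
  refine Suppt.not_ladm_of_sep hs ?_ hR'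
  intro n k hnk
  obtain ⟨r, hrk, hrn⟩ : ∃ r ∈ m k, r ∉ m n := by
    by_contra hcon
    push Not at hcon
    have hle : m k ≤ m n := fun r hr => hcon r hr
    have heq := (hmax k).eq_of_le (hmax n).ne_top hle
    exact hnk (hinj heq.symm)
  refine ⟨⟨fmF m r, QClosed.of _ ⟨r, rfl⟩⟩, ?_, ?_⟩
  · show Ideal.Quotient.mk (m n) r ≠ 0
    rw [Ne, Ideal.Quotient.eq_zero_iff_mem]
    exact hrn
  · show ¬ (Ideal.Quotient.mk (m k) r ≠ 0)
    rw [not_not, Ideal.Quotient.eq_zero_iff_mem]
    exact hrk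

end finmax

/-- An admissible ring has only finitely many maximal left ideals. -/
theorem LAdm.finite_maximal {R : Type u} [Ring R] (h : LAdm R) :
    {m : Ideal R | m.IsMaximal}.Finite := by
  by_contra hinf
  let e := Set.Infinite.natEmbedding _ hinf
  have hmax : ∀ n, ((e n : Ideal R)).IsMaximal := fun n => (e n).2
  have htw : ∀ n, ((e n : Ideal R)).IsTwoSided := fun n => h.ldist.maximal_twoSided _ (hmax n)
  exact fm_false (m := fun n => (e n : Ideal R)) h hmax
    (fun a b hab => e.injective (Subtype.ext hab))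

end Pool.Agent.Dist14
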