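import Mathlib

set_option autoImplicit false

universe u

namespace Pool.Agent.Dist14

/-- Every right `A`-module (= left `Aᵐᵒᵖ`-module) is distributive over its endomorphism ring. -/
def Admissible (A : Type u) [Ring A] : Prop :=
  ∀ (M : Type u) [AddCommGroup M] [Module Aᵐᵒᵖ M],
    ∀ U V W : Submodule (Module.End Aᵐᵒᵖ M) M, U ⊓ (V ⊔ W) = (U ⊓ V) ⊔ (U ⊓ W)

/-- An artinian chain ring: a nonzero ring which is left and right artinian and in which
the left ideals, and also the right ideals, are linearly ordered by inclusion. -/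
structure IsArtinianChainRing (B : Type u) [Ring B] : Prop where
  nontrivial : Nontrivial B
  left_artinian : IsArtinianRing B
  right_artinian : IsArtinianRing Bᵐᵒᵖ
  left_chain : ∀ I J : Ideal B, I ≤ J ∨ J ≤ I
  right_chain : ∀ I J : Ideal Bᵐᵒᵖ, I ≤ J ∨ J ≤ I

/-- A ring isomorphic to a finite (possibly empty) direct product of artinian chain rings. -/
def IsFiniteProductOfArtinianChainRings (A : Type u) [Ring A] : Prop :=
  ∃ (n : ℕ) (B : Fin n → Type u) (_ : ∀ i, Ring (B i)),
    (∀ i, IsArtinianChainRing (B i)) ∧ Nonempty (A ≃+* (∀ i, B i))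

end Pool.Agent.Dist14
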