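import Mathlib
import Pool.Agent.Helper927.Dist.Stmt

set_option autoImplicit false

universe u v

namespace Pool.Agent.Dist14

/-- `M` (a left `R`-module) is distributive as a module over its endomorphism ring:
the lattice of `End_R(M)`-submodules of `M` is distributive. -/
def EndoDistrib (R : Type u) [Ring R] (M : Type v) [AddCommGroup M] [Module R M] : Prop :=
  ∀ U V W : Submodule (Module.End R M) M, U ⊓ (V ⊔ W) = (U ⊓ V) ⊔ (U ⊓ W)

/-- Every left `R`-module is distributive over its endomorphism ring. -/
def LAdm (R : Type u) [Ring R] : Prop :=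
  ∀ (M : Type u) [AddCommGroup M] [Module R M], EndoDistrib R M

/-- Left distributive ring, elementwise form: `R p + R q` criterion of Stephenson. -/
def LDist (R : Type u) [Ring R] : Prop :=
  ∀ p q : R, ∃ c a b : R, c * p = a * q ∧ (1 - c) * q = b * p

/-- Right distributive ring, elementwise form. -/
def RDist (R : Type u) [Ring R] : Prop :=
  ∀ p q : R, ∃ c a b : R, p * c = q * a ∧ q * (1 - c) = p * b

/-- Stephenson's criterion for a module over its endomorphism ring. -/
def Steph (R : Type u) [Ring R] (M : Type v) [AddCommGroup M] [Module R M] : Prop :=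
  ∀ x y : M, ∃ e f g : Module.End R M, e x = f y ∧ y - e y = g x

/-- Two-sided filtration with an element `a` acting regularly of degree one. -/
structure FiltData (R : Type u) [Ring R] (I : ℕ → Set R) (a : R) : Prop where
  zero_mem : ∀ n, (0 : R) ∈ I n
  add_mem : ∀ n x y, x ∈ I n → y ∈ I n → x + y ∈ I n
  mul_left : ∀ n r x, x ∈ I n → r * x ∈ I n
  mul_right : ∀ n r x, x ∈ I n → x * r ∈ I n
  anti : ∀ n x, x ∈ I (n + 1) → x ∈ I n
  mem_zero : ∀ x, x ∈ I 0
  one_notMem : (1 : R) ∉ I 1
  left_mem : ∀ n x, x ∈ I n → a * x ∈ I (n + 1)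
  right_mem : ∀ n x, x ∈ I n → x * a ∈ I (n + 1)
  left_cancel : ∀ n x, a * x ∈ I (n + 2) → x ∈ I (n + 1)
  right_cancel : ∀ n x, x * a ∈ I (n + 2) → x ∈ I (n + 1)

/-- Local ring whose radical is generated (on both sides) by a nilpotent element `p`. -/
structure PiRing (B : Type u) [Ring B] (p : B) : Prop where
  nontrivial : Nontrivial B
  nilp : IsNilpotent p
  left : ∀ x : B, IsUnit x ∨ ∃ y, x = y * p
  right : ∀ x : B, IsUnit x ∨ ∃ y, x = p * y

/-- Nontrivial ring in which every element is a unit or nilpotent. -/
def NilLocal (B : Type u) [Ring B] : Prop :=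
  Nontrivial B ∧ ∀ x : B, IsUnit x ∨ IsNilpotent x


/-- Abstract supports: a ring with a multiplicative support map into subsets of `Ω`,
in which every support is the support of a central idempotent. -/
structure Suppt (R : Type u) [Ring R] (Ω : Type) (supp : R → Set Ω) : Prop where
  zero : supp 0 = ∅
  one : supp 1 = Set.univ
  neg : ∀ x, supp (-x) = supp x
  mul : ∀ x y, supp (x * y) = supp x ∩ supp y
  add : ∀ x y, supp (x + y) ⊆ supp x ∪ supp y
  idem : ∀ x, ∃ e : R, e * e = e ∧ (∀ r, e * r = r * e) ∧ supp e = supp x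

/-- `t` is the quasi-inverse of `s`. -/
def IsQInv {P : Type u} [Ring P] (s t : P) : Prop :=
  s * t * s = s ∧ t * s * t = t ∧ s * t = t * s

/-- Elements of a product of division rings generated from a subring by quasi-inverses. -/
inductive QClosed {P : Type u} [Ring P] (X : Set P) : P → Prop
  | of (x : P) (hx : x ∈ X) : QClosed X x
  | zero : QClosed X 0
  | one : QClosed X 1
  | add (x y : P) : QClosed X x → QClosed X y → QClosed X (x + y)
  | neg (x : P) : QClosed X x → QClosed X (-x)
  | mul (x y : P) : QClosed X x → QClosed X y → QClosed X (x * y)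
  | qinv (x y : P) : QClosed X x → IsQInv x y → QClosed X y

/-- The subring of `P` generated by `X` under quasi-inverses. -/
def qSubring {P : Type u} [Ring P] (X : Set P) : Subring P where
  carrier := {x | QClosed X x}
  mul_mem' := fun ha hb => QClosed.mul _ _ ha hb
  one_mem' := QClosed.one
  add_mem' := fun ha hb => QClosed.add _ _ ha hb
  zero_mem' := QClosed.zero
  neg_mem' := fun ha => QClosed.neg _ ha

theorem admissible_iff {A : Type u} [Ring A] : Admissible A ↔ LAdm Aᵐᵒᵖ := Iff.rfl

end Pool.Agent.Dist14
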