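import Pool.Agent.Helper927.Dist.Defs
import Pool.Agent.Helper927.Dist.A11
set_option autoImplicit false
set_option maxHeartbeats 4000000
universe u v

namespace Pool.Agent.Dist14

/-! ### TARGET: replace the `sorry`s below by proofs (auxiliary lemmas are fine, put them in this file) -/

theorem comm_isUnit_of_nonZeroDivisor {R : Type u} [CommRing R] (h : LAdm R) (x : R)
    (hx : ∀ y, x * y = 0 → y = 0) : IsUnit x := by
  by_contra hu
  have hcan : ∀ n z y, x * z = x ^ (n + 2) * y → z = x ^ (n + 1) * y := by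
    intro n z y e
    have h1 : x * (z - x ^ (n + 1) * y) = 0 := by
      rw [mul_sub, e]; ring
    exact sub_eq_zero.1 (hx _ h1)
  have hF : FiltData R (fun n => {z | ∃ y, z = x ^ n * y}) x := by
    refine ⟨?_, ?_, ?_, ?_, ?_, ?_, ?_, ?_, ?_, ?_, ?_⟩
    · intro n; exact ⟨0, by ring⟩
    · rintro n a b ⟨y, rfl⟩ ⟨z, rfl⟩; exact ⟨y + z, by ring⟩
    · rintro n r a ⟨y, rfl⟩; exact ⟨r * y, by ring⟩
    · rintro n r a ⟨y, rfl⟩; exact ⟨y * r, by ring⟩
    · rintro n a ⟨y, rfl⟩; exact ⟨x * y, by ring⟩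
    · intro a; exact ⟨a, by ring⟩
    · rintro ⟨y, hy⟩
      apply hu
      rw [pow_one] at hy
      exact IsUnit.of_mul_eq_one y hy.symm
    · rintro n a ⟨y, rfl⟩; exact ⟨y, by ring⟩
    · rintro n a ⟨y, rfl⟩; exact ⟨y, by ring⟩
    · rintro n a ⟨y, hy⟩; exact ⟨y, hcan n a y hy⟩
    · rintro n a ⟨y, hy⟩; exact ⟨y, hcan n a y (by rw [← hy]; ring)⟩
  exact hF.not_ladm h

end Pool.Agent.Dist14
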