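import Pool.Agent.Helper927.Dist.Defs
import Pool.Agent.Helper927.Dist.A2
import Pool.Agent.Helper927.Dist.E1
set_option autoImplicit false
set_option maxHeartbeats 4000000
universe u v

namespace Pool.Agent.Dist14

/-! ### TARGET: replace the `sorry`s below by proofs (auxiliary lemmas are fine, put them in this file) -/

theorem comm_pi_regular {R : Type u} [CommRing R] (h : LAdm R) (x : R) :
    ∃ (k : ℕ) (a : R), x ^ k = x ^ (k + 1) * a := by
  let Γ : Ideal R :=
    { carrier := {a | ∃ k : ℕ, x ^ k * a = 0}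
      zero_mem' := ⟨0, by simp⟩
      add_mem' := by
        rintro a b ⟨k, hk⟩ ⟨l, hl⟩
        refine ⟨k + l, ?_⟩
        calc x ^ (k + l) * (a + b) = x ^ l * (x ^ k * a) + x ^ k * (x ^ l * b) := by
              rw [pow_add]; ring
          _ = 0 := by rw [hk, hl]; simp
      smul_mem' := by
        rintro c a ⟨k, hk⟩
        refine ⟨k, ?_⟩
        rw [smul_eq_mul]
        calc x ^ k * (c * a) = c * (x ^ k * a) := by ring
          _ = 0 := by rw [hk, mul_zero] }
  have hΓ : ∀ a, a ∈ Γ ↔ ∃ k : ℕ, x ^ k * a = 0 := fun a => Iff.rfl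
  have hadm : LAdm (R ⧸ Γ) := LAdm.of_surjective (Ideal.Quotient.mk Γ)
    Ideal.Quotient.mk_surjective h
  have hu : IsUnit (Ideal.Quotient.mk Γ x) := by
    refine comm_isUnit_of_nonZeroDivisor hadm _ ?_
    intro y hy
    obtain ⟨a, rfl⟩ := Ideal.Quotient.mk_surjective y
    rw [← map_mul, Ideal.Quotient.eq_zero_iff_mem, hΓ] at hy
    rw [Ideal.Quotient.eq_zero_iff_mem, hΓ]
    obtain ⟨k, hk⟩ := hy
    exact ⟨k + 1, by rw [pow_succ, mul_assoc, hk]⟩
  obtain ⟨b, hb⟩ := hu.exists_right_inv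
  obtain ⟨a, rfl⟩ := Ideal.Quotient.mk_surjective b
  rw [← map_mul, ← map_one (Ideal.Quotient.mk Γ), Ideal.Quotient.eq, hΓ] at hb
  obtain ⟨k, hk⟩ := hb
  refine ⟨k, a, ?_⟩
  have : x ^ (k + 1) * a - x ^ k = 0 := by
    rw [← hk, pow_succ]; ring
  exact (sub_eq_zero.mp this).symm

end Pool.Agent.Dist14
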