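import Pool.Agent.Helper927.Dist.Defs
import Pool.Agent.Helper927.Dist.E2
set_option autoImplicit false
set_option maxHeartbeats 4000000
universe u v

namespace Pool.Agent.Dist14

/-! ### TARGET: replace the `sorry`s below by proofs (auxiliary lemmas are fine, put them in this file) -/

theorem comm_nil_of_mem_maximal {R : Type u} [CommRing R] (h : LAdm R) (x : R)
    (hx : ∀ m : Ideal R, m.IsMaximal → x ∈ m) : IsNilpotent x := by
  obtain ⟨k, a, hk⟩ := comm_pi_regular h x
  refine ⟨k, ?_⟩
  have hu : IsUnit (1 - x * a) := by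
    by_contra hnu
    obtain ⟨m, hm, hmem⟩ := exists_max_ideal_of_mem_nonunits (mem_nonunits_iff.2 hnu)
    have h1 : x * a ∈ m := m.mul_mem_right a (hx m hm)
    have h2 : (1 : R) ∈ m := by
      have := m.add_mem hmem h1
      rwa [sub_add_cancel] at this
    exact hm.ne_top ((Ideal.eq_top_iff_one m).2 h2)
  have h3 : x ^ k * (1 - x * a) = 0 := by
    have : x ^ k * (1 - x * a) = x ^ k - x ^ (k + 1) * a := by ring
    rw [this, ← hk, sub_self]
  exact (hu.mul_left_eq_zero).1 h3

end Pool.Agent.Dist14
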