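import Pool.Agent.Helper927.Dist.Defs
import Pool.Agent.Helper927.Dist.A1
import Pool.Agent.Helper927.Dist.A3
import Pool.Agent.Helper927.Dist.A9
import Pool.Agent.Helper927.Dist.C3
set_option autoImplicit false
set_option maxHeartbeats 4000000
universe u v

namespace Pool.Agent.Dist14

/-! ### TARGET: replace the `sorry`s below by proofs (auxiliary lemmas are fine, put them in this file) -/


section CommPart

variable {B : Type u} [CommRing B]

theorem nu_add (hB : NilLocal B) {a b : B} (ha : ¬ IsUnit a) (hb : ¬ IsUnit b) : ¬ IsUnit (a + b) := by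
  have := hB.1
  have h1 := (hB.2 a).resolve_left ha
  have h2 := (hB.2 b).resolve_left hb
  exact ((Commute.all a b).isNilpotent_add h1 h2).not_isUnit

theorem nu_mul {a b : B} (ha : ¬ IsUnit a) : ¬ IsUnit (b * a) := fun h => ha (isUnit_of_mul_isUnit_right h)

theorem nu_neg {a : B} (ha : ¬ IsUnit a) : ¬ IsUnit (-a) := fun h => ha ((IsUnit.neg_iff a).mp h)

theorem one_sub_unit (hB : NilLocal B) {a : B} (ha : ¬ IsUnit a) : IsUnit (1 - a) :=
  ((hB.2 a).resolve_left ha).isUnit_one_sub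

theorem exists_seq (hb : ∀ x : B, ¬ IsUnit x → ∃ a b : B, ¬ IsUnit a ∧ ¬ IsUnit b ∧ x = a * b)
    (t0 : B) (ht0 : ¬ IsUnit t0) :
    ∃ t s : ℕ → B, t 0 = t0 ∧ (∀ i, ¬ IsUnit (t i)) ∧ (∀ i, ¬ IsUnit (s i)) ∧ ∀ i, t i = t (i + 1) * s i := by
  choose! fa fb h1 h2 h3 using hb
  have ht : ∀ i : ℕ, ¬ IsUnit (fa^[i] t0) := by
    intro i
    induction i with
    | zero => exact ht0
    | succ n ih =>
      rw [Function.iterate_succ_apply']
      exact h1 _ ih
  refine ⟨fun n => fa^[n] t0, fun i => fb (fa^[i] t0), rfl, ht, fun i => h2 _ (ht i), fun i => ?_⟩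
  simp only
  rw [Function.iterate_succ_apply']
  exact h3 _ (ht i)

/-- the ideal of nonunit multiples of `t` -/
def LI (hB : NilLocal B) (t : B) : Submodule B B where
  carrier := {y | ∃ r, ¬ IsUnit r ∧ y = r * t}
  add_mem' := by
    rintro _ _ ⟨r, hr, rfl⟩ ⟨s, hs, rfl⟩
    exact ⟨r + s, nu_add hB hr hs, by ring⟩
  zero_mem' := by
    have := hB.1
    exact ⟨0, not_isUnit_zero, by simp⟩
  smul_mem' := by
    rintro c _ ⟨r, hr, rfl⟩
    exact ⟨c * r, nu_mul hr, by rw [smul_eq_mul]; ring⟩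

/-- the ideal of multiples of `t ^ 2` -/
def SI (t : B) : Submodule B B := Submodule.span B {t ^ 2}

theorem SI_le_LI (hB : NilLocal B) (t : B) (ht : ¬ IsUnit t) : SI t ≤ LI hB t := by
  unfold SI
  rw [Submodule.span_singleton_le_iff_mem]
  exact ⟨t, ht, by ring⟩

theorem mem_SI {t y : B} : y ∈ SI t ↔ ∃ b : B, b * t ^ 2 = y := by
  unfold SI
  rw [Submodule.mem_span_singleton]
  rfl

/-- direction -/
def dir (i : ℕ) : Fin 3 := ⟨i % 3, Nat.mod_lt _ (by norm_num)⟩

/-- coefficient -/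
def co (u v : B) (i : ℕ) : B := (if dir i = 1 then 0 else u) + (if dir i = 0 then 0 else v)

theorem co_add (u v u' v' : B) (i : ℕ) : co (u + u') (v + v') i = co u v i + co u' v' i := by
  unfold co; split_ifs <;> ring

theorem co_mul (c u v : B) (i : ℕ) : co (c * u) (c * v) i = c * co u v i := by
  unfold co; split_ifs <;> ring

theorem co_zero (i : ℕ) : co (0 : B) 0 i = 0 := by
  unfold co; split_ifs <;> ring

/-- the module -/
def MM (t : ℕ → B) : Submodule B (∀ i : ℕ, B ⧸ SI (t i)) where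
  carrier := {z | ∃ (u v : B) (N : ℕ), ∀ i, N ≤ i → z i = (SI (t i)).mkQ (co u v i * t i)}
  add_mem' := by
    rintro z z' ⟨u, v, N, h⟩ ⟨u', v', N', h'⟩
    refine ⟨u + u', v + v', max N N', fun i hi => ?_⟩
    rw [Pi.add_apply, h i (le_trans (le_max_left _ _) hi), h' i (le_trans (le_max_right _ _) hi), ← map_add,
      co_add, add_mul]
  zero_mem' := ⟨0, 0, 0, fun i _ => by rw [co_zero, zero_mul, map_zero]; rfl⟩
  smul_mem' := by
    rintro c z ⟨u, v, N, h⟩
    refine ⟨c * u, c * v, N, fun i hi => ?_⟩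
    rw [Pi.smul_apply, h i hi, ← map_smul, co_mul, smul_eq_mul, mul_assoc]

/-- evaluation -/
def rho (hB : NilLocal B) (t : ℕ → B) (ht : ∀ i, ¬ IsUnit (t i)) (i : ℕ) : MM t →ₗ[B] (B ⧸ LI hB (t i)) :=
  (Submodule.factor (SI_le_LI hB (t i) (ht i))).comp ((LinearMap.proj i).comp (MM t).subtype)

theorem rho_apply (hB : NilLocal B) (t : ℕ → B) (ht : ∀ i, ¬ IsUnit (t i)) (i : ℕ) (z : MM t) (y : B)
    (h : z.1 i = (SI (t i)).mkQ y) : rho hB t ht i z = (LI hB (t i)).mkQ y := by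
  show Submodule.factor (SI_le_LI hB (t i) (ht i)) (z.1 i) = _
  rw [h, Submodule.factor_mk]

/-- basis vectors -/
def dl (t : ℕ → B) (j : ℕ) : MM t :=
  ⟨Pi.single j ((SI (t j)).mkQ 1), ⟨0, 0, j + 1, fun i hi => by
    rw [co_zero, zero_mul, map_zero, Pi.single_eq_of_ne (by omega)]⟩⟩

/-- the key computation -/
theorem key_comp (hB : NilLocal B) (hl : LDist B) (t s : ℕ → B) (ht : ∀ i, ¬ IsUnit (t i)) (hs : ∀ i, ¬ IsUnit (s i))
    (hts : ∀ i, t i = t (i + 1) * s i) (h00 : t 0 * t 0 ≠ 0) (α : ℕ → B) (ζ : MM t)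
    (hζ : ∀ j, ζ.1 j = (SI (t j)).mkQ (α j * t j)) (φ : Module.End B (MM t)) (i : ℕ) :
    rho hB t ht i (φ ζ) = α i • (t i • rho hB t ht i (φ (dl t i))) := by
  -- divisibility
  have hdiv : ∀ d j, ∃ σ, t j = t (j + d) * σ := by
    intro d
    induction d with
    | zero => intro j; exact ⟨1, by simp⟩
    | succ d ih =>
      intro j
      obtain ⟨σ, hσ⟩ := ih j
      refine ⟨s (j + d) * σ, ?_⟩
      rw [hσ, hts (j + d), ← mul_assoc]
      rfl
  have hdivn : ∀ j k, j < k → ∃ σ, ¬ IsUnit σ ∧ t j = t k * σ := by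
    intro j k hjk
    obtain ⟨d, rfl⟩ : ∃ d, k = (j + 1) + d := ⟨k - (j + 1), by omega⟩
    obtain ⟨σ, hσ⟩ := hdiv d (j + 1)
    refine ⟨s j * σ, ?_, ?_⟩
    · rw [mul_comm]; exact nu_mul (hs j)
    · rw [hts j, hσ]; ring
  have htt : t (i + 1) * t i ≠ 0 := by
    intro h0
    obtain ⟨σ, hσ⟩ := hdiv i 0
    obtain ⟨σ', hσ'⟩ := hdiv (i + 1) 0
    rw [zero_add] at hσ hσ'
    apply h00
    calc t 0 * t 0 = (t (i + 1) * σ') * (t i * σ) := by rw [← hσ, ← hσ']
      _ = (t (i + 1) * t i) * (σ' * σ) := by ring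
      _ = 0 := by rw [h0, zero_mul]
  -- decomposition
  obtain ⟨τ, hτ⟩ : ∃ τ, τ = ζ - ∑ j ∈ Finset.range (i + 1), (α j * t j) • dl t j := ⟨_, rfl⟩
  have hζτ : ζ = (∑ j ∈ Finset.range (i + 1), (α j * t j) • dl t j) + τ := by rw [hτ]; abel
  have hsumc : ∀ k, (∑ j ∈ Finset.range (i + 1), (α j * t j) • dl t j).1 k =
      if k < i + 1 then (SI (t k)).mkQ (α k * t k) else 0 := by
    intro k
    have e1 : (∑ j ∈ Finset.range (i + 1), (α j * t j) • dl t j).1 k =
        ∑ j ∈ Finset.range (i + 1), ((α j * t j) • dl t j).1 k := by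
      rw [Submodule.coe_sum, Finset.sum_apply]
    rw [e1]
    by_cases hk : k < i + 1
    · rw [if_pos hk, Finset.sum_eq_single k]
      · show (α k * t k) • (Pi.single k ((SI (t k)).mkQ 1) : ∀ i : ℕ, B ⧸ SI (t i)) k = _
        rw [Pi.single_eq_same, ← map_smul, smul_eq_mul, mul_one]
      · intro j _ hjk
        show (α j * t j) • (Pi.single j ((SI (t j)).mkQ 1) : ∀ i : ℕ, B ⧸ SI (t i)) k = _
        rw [Pi.single_eq_of_ne (Ne.symm hjk), smul_zero]
      · intro hk'
        exact absurd (Finset.mem_range.mpr hk) hk'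
    · rw [if_neg hk]
      apply Finset.sum_eq_zero
      intro j hj
      show (α j * t j) • (Pi.single j ((SI (t j)).mkQ 1) : ∀ i : ℕ, B ⧸ SI (t i)) k = _
      rw [Pi.single_eq_of_ne (by have := Finset.mem_range.mp hj; omega), smul_zero]
  have hτc : ∀ k, τ.1 k = if k < i + 1 then 0 else (SI (t k)).mkQ (α k * t k) := by
    intro k
    have e1 : τ.1 k = ζ.1 k - (∑ j ∈ Finset.range (i + 1), (α j * t j) • dl t j).1 k := by
      rw [hτ]; rfl
    rw [e1, hsumc, hζ]
    split_ifs <;> simp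
  have hτ0 : t (i + 1) • τ = 0 := by
    apply Subtype.ext
    funext k
    show t (i + 1) • τ.1 k = 0
    rw [hτc]
    split_ifs with hk
    · exact smul_zero _
    · rw [← map_smul, Submodule.mkQ_apply, Submodule.Quotient.mk_eq_zero, mem_SI]
      obtain ⟨d, rfl⟩ : ∃ d, k = (i + 1) + d := ⟨k - (i + 1), by omega⟩
      obtain ⟨σ, hσ⟩ := hdiv d (i + 1)
      refine ⟨σ * α (i + 1 + d), ?_⟩
      rw [hσ, smul_eq_mul]
      ring
  -- the tail
  have htail : rho hB t ht i (φ τ) = 0 := by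
    obtain ⟨y, hy⟩ := Submodule.mkQ_surjective (SI (t i)) ((φ τ).1 i)
    rw [rho_apply hB t ht i (φ τ) y hy.symm, Submodule.mkQ_apply, Submodule.Quotient.mk_eq_zero]
    have h1 : t (i + 1) • (φ τ).1 i = 0 := by
      have : t (i + 1) • φ τ = 0 := by rw [← map_smul, hτ0, map_zero]
      have h2 := congrArg (fun z : MM t => z.1 i) this
      exact h2
    rw [← hy, ← map_smul, Submodule.mkQ_apply, Submodule.Quotient.mk_eq_zero, mem_SI] at h1
    obtain ⟨b, hb⟩ := h1
    rw [smul_eq_mul] at hb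
    have hcon : ∀ r', t i = r' * y → False := by
      intro r' hr'
      have h3 : t (i + 1) * t i * (1 - r' * b * s i) = 0 := by
        have h4 : t (i + 1) * t i = r' * (b * t i ^ 2) := by
          rw [hb]
          calc t (i + 1) * t i = t (i + 1) * (r' * y) := by rw [← hr']
            _ = r' * (t (i + 1) * y) := by ring
        have h5 : t i ^ 2 = t i * (t (i + 1) * s i) := by rw [← hts i]; ring
        rw [h5] at h4
        linear_combination h4
      have h6 : IsUnit (1 - r' * b * s i) := one_sub_unit hB (nu_mul (hs i))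
      exact htt ((h6.mul_left_eq_zero).mp h3)
    rcases NilLocal.left_chain hB hl y (t i) with ⟨r, hr⟩ | ⟨r', hr'⟩
    · by_cases hu : IsUnit r
      · exfalso
        obtain ⟨r, rfl⟩ := hu
        apply hcon (↑r⁻¹)
        rw [hr, ← mul_assoc, Units.inv_mul, one_mul]
      · exact ⟨r, hu, hr⟩
    · exact absurd hr' (fun h => hcon r' h)
  -- the head
  have hhead : ∀ j, j < i → rho hB t ht i (φ ((α j * t j) • dl t j)) = 0 := by
    intro j hj
    obtain ⟨y, hy⟩ := Submodule.mkQ_surjective (SI (t i)) ((φ (dl t j)).1 i)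
    rw [map_smul, map_smul, rho_apply hB t ht i (φ (dl t j)) y hy.symm, ← map_smul, Submodule.mkQ_apply,
      Submodule.Quotient.mk_eq_zero]
    obtain ⟨σ, hσ1, hσ2⟩ := hdivn j i hj
    refine ⟨(α j * y) * σ, nu_mul hσ1, ?_⟩
    rw [hσ2, smul_eq_mul]
    ring
  rw [hζτ, map_add, map_add, htail, add_zero, map_sum, map_sum, Finset.sum_range_succ,
    Finset.sum_eq_zero (fun j hj => hhead j (Finset.mem_range.mp hj)), zero_add, map_smul, map_smul, mul_smul]

theorem LI_nonunit (hB : NilLocal B) {t a : B} (ht0 : t ≠ 0) (h : a * t ∈ LI hB t) : ¬ IsUnit a := by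
  rintro ⟨a, rfl⟩
  obtain ⟨r, hr, h1⟩ := h
  have h2 : t * (1 - ↑a⁻¹ * r) = 0 := by
    have h3 : t = ↑a⁻¹ * (r * t) := by rw [← h1, ← mul_assoc, Units.inv_mul, one_mul]
    linear_combination h3
  exact ht0 (((one_sub_unit hB (nu_mul hr)).mul_left_eq_zero).mp h2)

theorem comm_alternative' (h : LAdm B) (hB : NilLocal B) :
    (∀ x : B, ¬ IsUnit x → x = 0) ∨
      ∃ x : B, ¬ IsUnit x ∧ ∀ a b : B, ¬ IsUnit a → ¬ IsUnit b → x ≠ a * b := by
  by_contra hcon
  rw [not_or] at hcon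
  obtain ⟨hc1, hc2⟩ := hcon
  push_neg at hc1 hc2
  obtain ⟨w, hw, hw0⟩ := hc1
  have hl := h.ldist
  have hb : ∀ x : B, ¬ IsUnit x → ∃ a b : B, ¬ IsUnit a ∧ ¬ IsUnit b ∧ x = a * b := by
    intro x hx
    obtain ⟨a, b, h1, h2, h3⟩ := hc2 x hx
    exact ⟨a, b, h1, h2, h3⟩
  -- step 1
  have hstep1 : ∃ t0 : B, ¬ IsUnit t0 ∧ t0 * t0 ≠ 0 := by
    by_contra hno
    push_neg at hno
    obtain ⟨a, b, ha, hb', hab⟩ := hb w hw
    apply hw0
    rw [hab]
    rcases NilLocal.left_chain hB hl a b with ⟨r, hr⟩ | ⟨r, hr⟩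
    · rw [hr, mul_assoc, hno b hb', mul_zero]
    · rw [hr, mul_left_comm, hno a ha, mul_zero]
  obtain ⟨t0, ht0, ht00⟩ := hstep1
  obtain ⟨t, s, h0, ht, hs, hts⟩ := exists_seq hb t0 ht0
  have h00 : t 0 * t 0 ≠ 0 := by rw [h0]; exact ht00
  have htne : ∀ i, t i ≠ 0 := by
    intro i
    induction i with
    | zero => intro hz; rw [hz, mul_zero] at h00; exact h00 rfl
    | succ n ih => intro hz; rw [hts n, hz, zero_mul] at ih; exact ih rfl
  have hst : Steph B (MM t) := (steph_iff B (MM t)).mp (h (MM t))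
  let ξ : MM t := ⟨fun i => (SI (t i)).mkQ (co 1 0 i * t i), ⟨1, 0, 0, fun i _ => rfl⟩⟩
  let η : MM t := ⟨fun i => (SI (t i)).mkQ (co 0 1 i * t i), ⟨0, 1, 0, fun i _ => rfl⟩⟩
  obtain ⟨ζ, hζ⟩ := three_dir hst (S := ℕ) (fun i => B ⧸ LI hB (t i)) (fun i => (rho hB t ht i).toAddMonoidHom)
    (fun i => (LI hB (t i)).mkQ (t i)) dir ξ η
    (fun i φ => t i • rho hB t ht i (φ (dl t i)))
    (by
      intro i
      have : rho hB t ht i (dl t i) = (LI hB (t i)).mkQ 1 := by
        apply rho_apply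
        show (Pi.single i ((SI (t i)).mkQ 1) : ∀ i : ℕ, B ⧸ SI (t i)) i = _
        rw [Pi.single_eq_same]
      show t i • rho hB t ht i (dl t i) = _
      rw [this, ← map_smul, smul_eq_mul, mul_one])
    (by
      intro i φ ψ
      show t i • rho hB t ht i (φ (dl t i) - ψ (dl t i)) = _
      rw [map_sub, smul_sub])
    (by
      intro φ i
      have := key_comp hB hl t s ht hs hts h00 (fun j => co 1 0 j) ξ (fun j => rfl) φ i
      show rho hB t ht i (φ ξ) = _
      rw [this]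
      unfold co
      split_ifs <;> simp)
    (by
      intro φ i
      have := key_comp hB hl t s ht hs hts h00 (fun j => co 0 1 j) η (fun j => rfl) φ i
      show rho hB t ht i (φ η) = _
      rw [this]
      unfold co
      split_ifs <;> simp)
  obtain ⟨u, v, N, hN⟩ := ζ.2
  have hval : ∀ i, N ≤ i → (LI hB (t i)).mkQ (co u v i * t i) = if dir i = 1 then - (LI hB (t i)).mkQ (t i) else 0 := by
    intro i hi
    rw [← hζ i]
    exact (rho_apply hB t ht i ζ _ (hN i hi)).symm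
  have hu : ¬ IsUnit u := by
    have h1 := hval (3 * N) (by omega)
    have hd : dir (3 * N) = 0 := by apply Fin.ext; show (3 * N) % 3 = 0; omega
    have hd1 : ¬ ((0 : Fin 3) = 1) := by decide
    unfold co at h1
    rw [hd, if_neg hd1, if_pos rfl, if_neg hd1, add_zero, Submodule.mkQ_apply, Submodule.Quotient.mk_eq_zero] at h1
    exact LI_nonunit hB (htne _) h1
  have huv : ¬ IsUnit (u + v) := by
    have h1 := hval (3 * N + 2) (by omega)
    have hd : dir (3 * N + 2) = 2 := by apply Fin.ext; show (3 * N + 2) % 3 = 2; omega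
    have hd1 : ¬ ((2 : Fin 3) = 1) := by decide
    have hd2 : ¬ ((2 : Fin 3) = 0) := by decide
    unfold co at h1
    rw [hd, if_neg hd1, if_neg hd2, if_neg hd1, Submodule.mkQ_apply, Submodule.Quotient.mk_eq_zero] at h1
    exact LI_nonunit hB (htne _) h1
  have hv : ¬ IsUnit (v + 1) := by
    have h1 := hval (3 * N + 1) (by omega)
    have hd : dir (3 * N + 1) = 1 := by apply Fin.ext; show (3 * N + 1) % 3 = 1; omega
    have hd1 : ¬ ((1 : Fin 3) = 0) := by decide
    unfold co at h1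
    rw [hd, if_pos rfl, if_neg hd1, if_pos rfl, zero_add, eq_neg_iff_add_eq_zero, ← map_add, Submodule.mkQ_apply,
      Submodule.Quotient.mk_eq_zero] at h1
    apply LI_nonunit hB (htne (3 * N + 1))
    rw [add_mul, one_mul]
    exact h1
  have h1 : ¬ IsUnit ((v + 1) + (-(u + v)) + u) := nu_add hB (nu_add hB hv (nu_neg huv)) hu
  apply h1
  have : (v + 1) + (-(u + v)) + u = 1 := by ring
  rw [this]
  exact isUnit_one

end CommPart

/-- A commutative nil-local admissible ring whose radical is idempotent is a field. -/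
theorem comm_alternative {B : Type u} [Ring B] (hc : ∀ x y : B, x * y = y * x) (h : LAdm B)
    (hB : NilLocal B) :
    (∀ x : B, ¬ IsUnit x → x = 0) ∨
      ∃ x : B, ¬ IsUnit x ∧ ∀ a b : B, ¬ IsUnit a → ¬ IsUnit b → x ≠ a * b := by
  letI : CommRing B := { ‹Ring B› with mul_comm := hc }
  exact comm_alternative' h hB

end Pool.Agent.Dist14
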