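import Pool.Agent.Helper927.Dist.Defs
import Pool.Agent.Helper927.Dist.A2
import Pool.Agent.Helper927.Dist.A3
import Pool.Agent.Helper927.Dist.B10
import Pool.Agent.Helper927.Dist.C2
import Pool.Agent.Helper927.Dist.C4
import Pool.Agent.Helper927.Dist.D7
import Pool.Agent.Helper927.Dist.E3
import Pool.Agent.Helper927.Dist.E4
set_option autoImplicit false
set_option maxHeartbeats 4000000
universe u v

namespace Pool.Agent.Dist14

/-! ### TARGET: replace the `sorry`s below by proofs (auxiliary lemmas are fine, put them in this file) -/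

theorem comm_good {R : Type u} [CommRing R] (h : LAdm R) :
    IsFiniteProductOfArtinianChainRings R := by
  obtain ⟨n, B, inst, hB, ⟨e⟩⟩ := h.ldist.exists_decomp h.finite_maximal (comm_nil_of_mem_maximal h)
  refine ⟨n, B, inst, fun i => ?_, ⟨e⟩⟩
  let π : R →+* B i := (Pi.evalRingHom B i).comp e.toRingHom
  have hπ : Function.Surjective π := by
    have h1 : Function.Surjective (Pi.evalRingHom B i) := Function.surjective_eval i
    exact h1.comp e.surjective
  have hL : LAdm (B i) := LAdm.of_surjective π hπ h
  have hc : ∀ x y : B i, x * y = y * x := by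
    intro x y
    obtain ⟨a, rfl⟩ := hπ x
    obtain ⟨b, rfl⟩ := hπ y
    rw [← map_mul, ← map_mul, mul_comm]
  obtain ⟨p, hp⟩ := NilLocal.exists_piRing (hB i) hL.ldist hL.rdist (comm_alternative hc hL (hB i))
  exact hp.isArtinianChainRing

end Pool.Agent.Dist14
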