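import Pool.Agent.Helper927.Dist.Defs
import Pool.Agent.Helper927.Dist.A4
import Pool.Agent.Helper927.Dist.B1
import Pool.Agent.Helper927.Dist.B9
import Pool.Agent.Helper927.Dist.C6
set_option autoImplicit false
set_option maxHeartbeats 4000000
universe u v

namespace Pool.Agent.Dist14

/-! ### TARGET: replace the `sorry`s below by proofs (auxiliary lemmas are fine, put them in this file) -/

theorem cgi_ldist {R : Type u} [CommRing R] [IsPrincipalIdealRing R] : LDist R := by
  intro p q
  obtain ⟨d, hd⟩ := (IsPrincipalIdealRing.principal (Ideal.span ({p, q} : Set R))).principal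
  have hd' : Ideal.span ({p, q} : Set R) = Ideal.span {d} := hd
  have hp : p ∈ Ideal.span ({d} : Set R) := by
    rw [← hd']; exact Ideal.subset_span (by simp)
  have hq : q ∈ Ideal.span ({d} : Set R) := by
    rw [← hd']; exact Ideal.subset_span (by simp)
  have hdm : d ∈ Ideal.span ({p, q} : Set R) := by
    rw [hd']; exact Ideal.mem_span_singleton_self d
  rw [Ideal.mem_span_singleton'] at hp hq
  rw [Ideal.mem_span_pair] at hdm
  obtain ⟨p', hp'⟩ := hp
  obtain ⟨q', hq'⟩ := hq
  obtain ⟨α, β, h⟩ := hdm
  have key : d * (1 - p' * α - q' * β) = 0 := by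
    have e : d * (1 - p' * α - q' * β) = d - (α * (p' * d) + β * (q' * d)) := by ring
    rw [e, hp', hq', h, sub_self]
  refine ⟨q' * β, β * p', α * q', ?_, ?_⟩
  · rw [← hp', ← hq']; ring
  · rw [← hp', ← hq']
    linear_combination q' * key

theorem cgi_rdist {R : Type u} [CommRing R] (h : LDist R) : RDist R := by
  intro p q
  obtain ⟨c, a, b, h1, h2⟩ := h p q
  exact ⟨c, a, b, by rw [mul_comm p, mul_comm q]; exact h1, by
    rw [mul_comm q, mul_comm p]; exact h2⟩

theorem cgi_pi_principal {B : Type u} [Ring B] {p : B} (h : PiRing B p) (J : Ideal B) :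
    ∃ g ∈ J, ∀ x ∈ J, ∃ b, x = b * g := by
  classical
  by_cases hJ : ∃ x ∈ J, x ≠ 0
  · have hex : ∃ k : ℕ, p ^ k ∈ J ∧ p ^ k ≠ 0 := by
      obtain ⟨x, hx, hx0⟩ := hJ
      obtain ⟨i, w, hpi, hxw⟩ := h.exists_unit_mul x hx0
      refine ⟨i, ?_, hpi⟩
      have : p ^ i = (↑w⁻¹ : B) * x := by rw [hxw, Units.inv_mul_cancel_left]
      rw [this]
      exact J.mul_mem_left _ hx
    refine ⟨p ^ Nat.find hex, (Nat.find_spec hex).1, ?_⟩
    intro x hx
    by_cases hx0 : x = 0
    · exact ⟨0, by rw [hx0, zero_mul]⟩
    · obtain ⟨i, w, hpi, hxw⟩ := h.exists_unit_mul x hx0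
      have hi : p ^ i ∈ J := by
        have : p ^ i = (↑w⁻¹ : B) * x := by rw [hxw, Units.inv_mul_cancel_left]
        rw [this]
        exact J.mul_mem_left _ hx
      have hk : Nat.find hex ≤ i := Nat.find_min' hex ⟨hi, hpi⟩
      refine ⟨w * p ^ (i - Nat.find hex), ?_⟩
      rw [mul_assoc, ← pow_add, Nat.sub_add_cancel hk, hxw]
  · push Not at hJ
    exact ⟨0, J.zero_mem, fun x hx => ⟨0, by rw [hJ x hx, zero_mul]⟩⟩

theorem comm_good_iff {R : Type u} [CommRing R] :
    IsFiniteProductOfArtinianChainRings R ↔ IsArtinianRing R ∧ IsPrincipalIdealRing R := by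
  constructor
  · rintro ⟨n, B, inst, hB, ⟨e⟩⟩
    constructor
    · haveI : ∀ i, IsArtinianRing (B i) := fun i => (hB i).left_artinian
      exact e.symm.isArtinianRing
    · constructor
      intro I
      classical
      let f : ∀ i, R →+* B i := fun i => (Pi.evalRingHom B i).comp e.toRingHom
      have hf : ∀ i x, f i x = e x i := fun i x => rfl
      have hfs : ∀ i, Function.Surjective (f i) := by
        intro i b
        refine ⟨e.symm (Pi.single i b), ?_⟩
        rw [hf, RingEquiv.apply_symm_apply, Pi.single_eq_same]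
      have hg : ∀ i, ∃ g : B i, (∃ x ∈ I, f i x = g) ∧ ∀ x ∈ I, ∃ b, f i x = b * g := by
        intro i
        obtain ⟨p, hp⟩ := (hB i).exists_piRing
        obtain ⟨g, hg, hg2⟩ := cgi_pi_principal hp (Ideal.map (f i) I)
        rw [Ideal.mem_map_iff_of_surjective (f i) (hfs i)] at hg
        exact ⟨g, hg, fun x hx => hg2 _ (Ideal.mem_map_of_mem (f i) hx)⟩
      choose g hg1 hg2 using hg
      choose y hyI hy using hg1
      refine ⟨⟨e.symm g, ?_⟩⟩
      apply le_antisymm
      · intro x hx
        have hb : ∀ i, ∃ b, f i x = b * g i := fun i => hg2 i x hx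
        choose b hb using hb
        have : x = e.symm b * e.symm g := by
          rw [← map_mul, RingEquiv.eq_symm_apply]
          funext i
          exact hb i
        rw [this]
        exact Ideal.mul_mem_left _ _ (Submodule.mem_span_singleton_self _)
      · rw [Submodule.span_singleton_le_iff_mem]
        have : e.symm g = ∑ i, e.symm (Pi.single i 1) * y i := by
          rw [RingEquiv.symm_apply_eq, map_sum]
          funext j
          rw [Finset.sum_apply]
          rw [Finset.sum_eq_single j]
          · rw [map_mul, RingEquiv.apply_symm_apply, Pi.mul_apply, Pi.single_eq_same, one_mul]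
            exact (hy j).symm
          · intro i _ hij
            rw [map_mul, RingEquiv.apply_symm_apply, Pi.mul_apply, Pi.single_eq_of_ne hij.symm, zero_mul]
          · intro h; exact absurd (Finset.mem_univ j) h
        rw [this]
        exact I.sum_mem fun i _ => I.mul_mem_left _ (hyI i)
  · rintro ⟨h1, h2⟩
    have hl : LDist R := cgi_ldist
    obtain ⟨N, hN⟩ := IsArtinianRing.isNilpotent_jacobson_bot (R := R)
    rw [Ideal.jacobson_bot] at hN
    exact good_of_nilpotent_jacobson hl (cgi_rdist hl) (IsArtinianRing.setOfPred_isMaximal_finite R) N hN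

end Pool.Agent.Dist14
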