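import Pool.Agent.Helper927.Dist.Defs
import Pool.Agent.Helper927.Dist.A10
import Pool.Agent.Helper927.Dist.A11
import Pool.Agent.Helper927.Dist.A12
import Pool.Agent.Helper927.Dist.A3
set_option autoImplicit false
set_option maxHeartbeats 4000000
universe u v

namespace Pool.Agent.Dist14

/-! ### TARGET: replace the `sorry`s below by proofs (auxiliary lemmas are fine, put them in this file) -/

theorem LDist.of_op {R : Type u} [Ring R] (h : RDist Rᵐᵒᵖ) : LDist R := by
  intro p q
  obtain ⟨c, a, b, h1, h2⟩ := h (MulOpposite.op p) (MulOpposite.op q)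
  refine ⟨MulOpposite.unop c, MulOpposite.unop a, MulOpposite.unop b, ?_, ?_⟩
  · have := congrArg MulOpposite.unop h1
    simpa using this
  · have := congrArg MulOpposite.unop h2
    simpa using this

theorem RDist.of_op {R : Type u} [Ring R] (h : LDist Rᵐᵒᵖ) : RDist R := by
  intro p q
  obtain ⟨c, a, b, h1, h2⟩ := h (MulOpposite.op p) (MulOpposite.op q)
  refine ⟨MulOpposite.unop c, MulOpposite.unop a, MulOpposite.unop b, ?_, ?_⟩
  · have := congrArg MulOpposite.unop h1
    simpa using this
  · have := congrArg MulOpposite.unop h2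
    simpa using this

theorem pow_stable_of_op {A : Type u} [Ring A] (h : LAdm Aᵐᵒᵖ) (m : Ideal A)
    (hm : m.IsMaximal) : ∃ k : ℕ, m ^ k = m ^ (k + 1) := by
  by_contra hcon
  push Not at hcon
  obtain ⟨I, a, hF⟩ := filtData_of_pow_ne (LDist.of_op h.rdist) (RDist.of_op h.ldist) m hm hcon
  exact FiltData.not_ladm hF.op h

end Pool.Agent.Dist14
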