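import Pool.Agent.Helper927.Dist.Defs
set_option autoImplicit false
set_option maxHeartbeats 4000000
universe u v

namespace Pool.Agent.Dist14

/-! ### AVAILABLE: statements you may use; leave these `sorry`s in place (they are proved in other jobs) -/



/-! ### TARGET: replace the `sorry`s below by proofs (auxiliary lemmas are fine, put them in this file) -/

theorem ldist_iff_lattice {R : Type u} [Ring R] :
    LDist R ↔ ∀ U V W : Ideal R, U ⊓ (V ⊔ W) = (U ⊓ V) ⊔ (U ⊓ W) := by
  constructor
  · intro h U V W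
    apply le_antisymm
    · rintro x ⟨hxU, hxVW⟩
      obtain ⟨v, hv, w, hw, rfl⟩ := Submodule.mem_sup.1 hxVW
      obtain ⟨c, a, b, h1, h2⟩ := h v w
      refine Submodule.mem_sup.2 ⟨(1 - c) * (v + w), ⟨U.mul_mem_left _ hxU, ?_⟩,
        c * (v + w), ⟨U.mul_mem_left _ hxU, ?_⟩, by noncomm_ring⟩
      · have : (1 - c) * (v + w) = (1 - c) * v + b * v := by rw [mul_add, h2]
        rw [this]
        exact V.add_mem (V.mul_mem_left _ hv) (V.mul_mem_left _ hv)
      · have : c * (v + w) = a * w + c * w := by rw [mul_add, h1]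
        rw [this]
        exact W.add_mem (W.mul_mem_left _ hw) (W.mul_mem_left _ hw)
    · exact sup_le (inf_le_inf_left U le_sup_left) (inf_le_inf_left U le_sup_right)
  · intro h p q
    have h1 : p + q ∈ (Ideal.span {p + q} ⊓ (Ideal.span {p} ⊔ Ideal.span {q}) : Ideal R) := by
      refine ⟨Ideal.subset_span rfl, ?_⟩
      exact Submodule.add_mem_sup (Ideal.subset_span rfl) (Ideal.subset_span rfl)
    rw [h] at h1
    obtain ⟨s, ⟨hs1, hs2⟩, t, ⟨ht1, ht2⟩, hst⟩ := Submodule.mem_sup.1 h1
    obtain ⟨f, hf⟩ := Submodule.mem_span_singleton.1 hs1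
    obtain ⟨v, hv⟩ := Submodule.mem_span_singleton.1 hs2
    obtain ⟨w, hw⟩ := Submodule.mem_span_singleton.1 ht2
    simp only [smul_eq_mul] at hf hv hw
    refine ⟨1 - f, w - (1 - f), v - f, ?_, ?_⟩
    · have e1 : (1 - f) * p + (1 - f) * q = w * q := by
        rw [← mul_add, sub_mul, one_mul, hf, hw, ← hst]
        abel
      rw [sub_mul w, ← e1]; abel
    · have e2 : f * p + f * q = v * p := by
        rw [← mul_add, hf, hv]
      rw [sub_sub_cancel, sub_mul v, ← e2]; abel

end Pool.Agent.Dist14
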