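import Pool.Agent.Helper927.Dist.Defs
import Pool.Agent.Helper927.Dist.A3
import Pool.Agent.Helper927.Dist.D10
import Pool.Agent.Helper927.Dist.D12
import Pool.Agent.Helper927.Dist.D7
import Pool.Agent.Helper927.Dist.F1
set_option autoImplicit false
set_option maxHeartbeats 4000000
universe u v

namespace Pool.Agent.Dist14

/-! ### TARGET: replace the `sorry`s below by proofs (auxiliary lemmas are fine, put them in this file) -/

/-- Everything we know about a ring whose opposite is `LAdm`. -/
theorem Admissible.data {A : Type u} [Ring A] (h : Admissible A) :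
    LDist A ∧ RDist A ∧ {m : Ideal A | m.IsMaximal}.Finite ∧
      (∀ m : Ideal A, m.IsMaximal → ∃ k : ℕ, m ^ k = m ^ (k + 1)) ∧
      ∃ n : ℕ, (Ring.jacobson A) ^ n = (Ring.jacobson A) ^ (n + 1) := by
  have h' : LAdm Aᵐᵒᵖ := admissible_iff.mp h
  have hl : LDist A := LDist.of_op h'.rdist
  have hr : RDist A := RDist.of_op h'.ldist
  have hfin := finite_maximal_of_op hl hr h'.finite_maximal
  have hst : ∀ m : Ideal A, m.IsMaximal → ∃ k : ℕ, m ^ k = m ^ (k + 1) :=
    fun m hm => pow_stable_of_op h' m hm
  exact ⟨hl, hr, hfin, hst, jacobson_stable hl hfin hst⟩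

end Pool.Agent.Dist14
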