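import Pool.Agent.Helper927.Dist.Defs
import Pool.Agent.Helper927.Dist.A13
import Pool.Agent.Helper927.Dist.A3
import Pool.Agent.Helper927.Dist.B12
import Pool.Agent.Helper927.Dist.C6
import Pool.Agent.Helper927.Dist.D10
import Pool.Agent.Helper927.Dist.D7
import Pool.Agent.Helper927.Dist.F3
set_option autoImplicit false
set_option maxHeartbeats 4000000
universe u v

namespace Pool.Agent.Dist14

/-! ### TARGET: replace the `sorry`s below by proofs (auxiliary lemmas are fine, put them in this file) -/

theorem f4_stab {A : Type u} [Ring A] (J : Ideal A) {n : ℕ} (h : J ^ n = J ^ (n + 1)) (k : ℕ) :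
    J ^ (n + k) = J ^ n := by
  induction k with
  | zero => rfl
  | succ k ih => rw [← add_assoc, Submodule.pow_succ, ih, ← Submodule.pow_succ, ← h]

theorem Admissible.good_of_no_idempotent {A : Type u} [Ring A] (h : Admissible A)
    (hK : ∀ K : Ideal A, K.IsTwoSided → K ≤ Ring.jacobson A → K * K = K → K = ⊥) :
    IsFiniteProductOfArtinianChainRings A := by
  obtain ⟨hl, hr, hfin, hst, n, hn⟩ := h.data
  refine good_of_nilpotent_jacobson hl hr hfin (n + 1) ?_
  refine hK (Ring.jacobson A ^ (n + 1)) inferInstance ?_ ?_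
  · rw [Ideal.IsTwoSided.pow_succ]
    exact Ideal.mul_le_left
  · rw [← Ideal.IsTwoSided.pow_add, show n + 1 + (n + 1) = n + (n + 2) by ring, f4_stab _ hn, hn]

theorem f4_left {A : Type u} [Ring A] (hl : LDist A) (hr : RDist A)
    (hfin : {m : Ideal A | m.IsMaximal}.Finite) {n : ℕ}
    (hn : (Ring.jacobson A) ^ n = (Ring.jacobson A) ^ (n + 1)) (hN : IsNoetherianRing A) :
    IsFiniteProductOfArtinianChainRings A := by
  refine good_of_nilpotent_jacobson hl hr hfin n ?_
  refine Submodule.FG.eq_bot_of_le_jacobson_smul (IsNoetherian.noetherian _) ?_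
  conv_lhs => rw [hn, Ideal.IsTwoSided.pow_succ]
  exact le_rfl

theorem Admissible.good_of_noetherian {A : Type u} [Ring A] (h : Admissible A)
    (hN : IsNoetherianRing A ∨ IsNoetherianRing Aᵐᵒᵖ) :
    IsFiniteProductOfArtinianChainRings A := by
  rcases hN with hN | hN
  · obtain ⟨hl, hr, hfin, hst, n, hn⟩ := h.data
    exact f4_left hl hr hfin hn hN
  · have h' : LAdm Aᵐᵒᵖ := h
    obtain ⟨n, hn⟩ := jacobson_stable h'.ldist h'.finite_maximal
      (fun m hm => (h'.pow_stable m hm).imp fun k hk => hk.2)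
    exact good_unop (f4_left h'.ldist h'.rdist h'.finite_maximal hn hN)

end Pool.Agent.Dist14
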