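import Pool.Agent.Helper927.Dist.Defs
import Pool.Agent.Helper927.Dist.A2
import Pool.Agent.Helper927.Dist.B13
import Pool.Agent.Helper927.Dist.E5
import Pool.Agent.Helper927.Dist.E6
set_option autoImplicit false
set_option maxHeartbeats 4000000
universe u v

namespace Pool.Agent.Dist14

/-! ### TARGET: replace the `sorry`s below by proofs (auxiliary lemmas are fine, put them in this file) -/

theorem comm_admissible_iff {A : Type u} [CommRing A] :
    Admissible A ↔ IsArtinianRing A ∧ IsPrincipalIdealRing A := by
  have e : A ≃+* Aᵐᵒᵖ := RingEquiv.toOpposite A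
  constructor
  · intro h
    have h1 : LAdm Aᵐᵒᵖ := h
    have h2 : LAdm A := LAdm.of_surjective (e.symm : Aᵐᵒᵖ →+* A) e.symm.surjective h1
    exact comm_good_iff.1 (comm_good h2)
  · intro h
    have h1 : LAdm A := good_ladm (comm_good_iff.2 h)
    have h2 : LAdm Aᵐᵒᵖ := LAdm.of_surjective (e : A →+* Aᵐᵒᵖ) e.surjective h1
    exact h2

end Pool.Agent.Dist14
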