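import Pool.Agent.Helper927.Dist.Defs
import Pool.Agent.Helper927.Dist.A3
import Pool.Agent.Helper927.Dist.B12
import Pool.Agent.Helper927.Dist.B13
import Pool.Agent.Helper927.Dist.D11
import Pool.Agent.Helper927.Dist.F1
import Pool.Agent.Helper927.Dist.F2
import Pool.Agent.Helper927.Dist.F3
import Pool.Agent.Helper927.Dist.F4
import Pool.Agent.Helper927.Dist.F5
set_option autoImplicit false
set_option maxHeartbeats 4000000
universe u v

namespace Pool.Agent.Dist14

/-! ### TARGET: replace the `sorry`s below by proofs (auxiliary lemmas are fine, put them in this file) -/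

/-- The main theorem. -/
theorem main_result :
    (∀ (A : Type u) [Ring A], IsFiniteProductOfArtinianChainRings A → Admissible A) ∧
    (∀ (A : Type u) [CommRing A], Admissible A ↔ IsArtinianRing A ∧ IsPrincipalIdealRing A) ∧
    (∀ (A : Type u) [Ring A],
      (IsNoetherianRing A ∨ IsNoetherianRing Aᵐᵒᵖ ∨ (⨅ n : ℕ, (Ring.jacobson A) ^ n) = ⊥ ∨
        ∀ K : Ideal A, K.IsTwoSided → K ≤ Ring.jacobson A → K * K = K → K = ⊥) →
        (Admissible A ↔ IsFiniteProductOfArtinianChainRings A)) ∧
    (∀ (A : Type u) [Ring A], Admissible A →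
      (∀ U V W : Ideal A, U ⊓ (V ⊔ W) = (U ⊓ V) ⊔ (U ⊓ W)) ∧
      (∀ U V W : Ideal Aᵐᵒᵖ, U ⊓ (V ⊔ W) = (U ⊓ V) ⊔ (U ⊓ W)) ∧
      ∃ n : ℕ, (Ring.jacobson A) ^ n = (Ring.jacobson A) ^ (n + 1) ∧
        IsFiniteProductOfArtinianChainRings (A ⧸ ((Ring.jacobson A) ^ n : Ideal A))) := by
  have part1 : ∀ (A : Type u) [Ring A], IsFiniteProductOfArtinianChainRings A → Admissible A :=
    fun A _ h => good_ladm (good_op h)
  refine ⟨part1, fun A _ => comm_admissible_iff, ?_, ?_⟩
  · intro A _ hA
    refine ⟨fun h => ?_, part1 A⟩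
    rcases hA with hN | hN | hJ | hK
    · exact h.good_of_noetherian (Or.inl hN)
    · exact h.good_of_noetherian (Or.inr hN)
    · apply h.good_of_no_idempotent
      intro K _ hKJ hKK
      have hpow : ∀ n : ℕ, K ≤ (Ring.jacobson A) ^ n := by
        intro n
        induction n with
        | zero =>
          rw [Submodule.pow_zero, Submodule.one_eq_span]
          intro x _
          rw [Submodule.mem_span_singleton]
          exact ⟨x, by simp⟩
        | succ n ih =>
          rw [Submodule.pow_succ]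
          calc K = K * K := hKK.symm
            _ ≤ (Ring.jacobson A) ^ n * Ring.jacobson A := Ideal.mul_mono ih hKJ
      have : K ≤ ⨅ n : ℕ, (Ring.jacobson A) ^ n := le_iInf hpow
      rw [hJ] at this
      exact le_bot_iff.1 this
    · exact h.good_of_no_idempotent hK
  · intro A _ h
    obtain ⟨hl, hr, hfin, _, n, hn⟩ := h.data
    refine ⟨ldist_iff_lattice.1 hl, ldist_iff_lattice.1 (LAdm.ldist (R := Aᵐᵒᵖ) h), n, hn,
      quot_good hl hr hfin n⟩

end Pool.Agent.Dist14
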